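import Mathlib

set_option autoImplicit false

/-! Planar tubes, the times at which a line is near the centre, and the Hoelder step. -/

namespace Pool.Agent.K4H46.MC

open MeasureTheory Set Metric
open scoped ENNReal NNReal

/-- the planar tube -/
def Tb (l D y t u : ℝ) : Set (ℝ × ℝ) := {z | |z.2 - t| ≤ D ∧ |z.1 - (y + (z.2 - t) * u)| ≤ l}

/-- the times at which the line is near the centre -/
def Tm {m : ℕ} (D : ℝ) (ρ : Fin m → ℝ) (c : ℝ → Fin m → ℝ) (b : Fin m → ℝ) (t : ℝ)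
    (z : Fin m → ℝ) : Set ℝ :=
  {s | |s - t| ≤ D ∧ ∀ j, |b j + (s - t) * z j - c s j| ≤ ρ j}

/-- the times at which a centre moves almost linearly -/
def Bs (D ρ : ℝ) (c : ℝ → ℝ) (t ζ : ℝ) : Set ℝ :=
  {s | |s - t| ≤ 2 * D ∧ |c s - c t - ζ * (s - t)| ≤ 2 * ρ}

/-- the part of the planar tube -/
def Sl {m : ℕ} (l D : ℝ) (ρ : Fin m → ℝ) (c : ℝ → Fin m → ℝ) (y t : ℝ) (b : Fin m → ℝ)
    (v : ℝ × (Fin m → ℝ)) : Set (ℝ × ℝ) :=
  {z | z ∈ Tb l D y t v.1 ∧ z.2 ∈ Tm D ρ c b t v.2}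

theorem Tb_meas2 (l D y t : ℝ) : MeasurableSet {q : ℝ × (ℝ × ℝ) | q.2 ∈ Tb l D y t q.1} := by
  have h1 : MeasurableSet {q : ℝ × (ℝ × ℝ) | |q.2.2 - t| ≤ D} :=
    measurableSet_le (by fun_prop) measurable_const
  have h2 : MeasurableSet {q : ℝ × (ℝ × ℝ) | |q.2.1 - (y + (q.2.2 - t) * q.1)| ≤ l} :=
    measurableSet_le (by fun_prop) measurable_const
  exact h1.inter h2

theorem Tb_meas (l D y t u : ℝ) : MeasurableSet (Tb l D y t u) :=
  (Tb_meas2 l D y t).preimage (measurable_const.prodMk measurable_id)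

theorem Tm_meas2 {m : ℕ} (D : ℝ) (ρ : Fin m → ℝ) {c : ℝ → Fin m → ℝ} (hc : Measurable c)
    (b : Fin m → ℝ) (t : ℝ) : MeasurableSet {q : (Fin m → ℝ) × ℝ | q.2 ∈ Tm D ρ c b t q.1} := by
  have h1 : MeasurableSet {q : (Fin m → ℝ) × ℝ | |q.2 - t| ≤ D} :=
    measurableSet_le (by fun_prop) measurable_const
  have h2 : MeasurableSet {q : (Fin m → ℝ) × ℝ | ∀ j, |b j + (q.2 - t) * q.1 j - c q.2 j| ≤ ρ j} := by
    have : {q : (Fin m → ℝ) × ℝ | ∀ j, |b j + (q.2 - t) * q.1 j - c q.2 j| ≤ ρ j} =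
        ⋂ j, {q : (Fin m → ℝ) × ℝ | |b j + (q.2 - t) * q.1 j - c q.2 j| ≤ ρ j} := by
      ext q; simp
    rw [this]
    refine MeasurableSet.iInter fun j => measurableSet_le ?_ measurable_const
    have h3 : Measurable fun q : (Fin m → ℝ) × ℝ => c q.2 j :=
      (measurable_pi_apply j).comp (hc.comp measurable_snd)
    exact ((by fun_prop : Measurable fun q : (Fin m → ℝ) × ℝ => b j + (q.2 - t) * q.1 j).sub h3).abs
  exact h1.inter h2

theorem Tm_meas {m : ℕ} (D : ℝ) (ρ : Fin m → ℝ) {c : ℝ → Fin m → ℝ} (hc : Measurable c)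
    (b : Fin m → ℝ) (t : ℝ) (z : Fin m → ℝ) : MeasurableSet (Tm D ρ c b t z) :=
  (Tm_meas2 D ρ hc b t).preimage (measurable_const.prodMk measurable_id)

theorem Sl_meas2 {m : ℕ} (l D : ℝ) (ρ : Fin m → ℝ) {c : ℝ → Fin m → ℝ} (hc : Measurable c)
    (y t : ℝ) (b : Fin m → ℝ) :
    MeasurableSet {q : (ℝ × (Fin m → ℝ)) × (ℝ × ℝ) | q.2 ∈ Sl l D ρ c y t b q.1} := by
  have h1 : MeasurableSet {q : (ℝ × (Fin m → ℝ)) × (ℝ × ℝ) | q.2 ∈ Tb l D y t q.1.1} :=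
    (Tb_meas2 l D y t).preimage
      (by fun_prop : Measurable fun q : (ℝ × (Fin m → ℝ)) × (ℝ × ℝ) => (q.1.1, q.2))
  have h2 : MeasurableSet {q : (ℝ × (Fin m → ℝ)) × (ℝ × ℝ) | q.2.2 ∈ Tm D ρ c b t q.1.2} :=
    (Tm_meas2 D ρ hc b t).preimage
      (by fun_prop : Measurable fun q : (ℝ × (Fin m → ℝ)) × (ℝ × ℝ) => (q.1.2, q.2.2))
  exact h1.inter h2

theorem Sl_meas {m : ℕ} (l D : ℝ) (ρ : Fin m → ℝ) {c : ℝ → Fin m → ℝ} (hc : Measurable c)
    (y t : ℝ) (b : Fin m → ℝ) (v : ℝ × (Fin m → ℝ)) : MeasurableSet (Sl l D ρ c y t b v) :=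
  (Sl_meas2 l D ρ hc y t b).preimage (measurable_const.prodMk measurable_id)

theorem Bs_meas3 (D ρ : ℝ) {c : ℝ → ℝ} (hc : Measurable c) :
    MeasurableSet {q : (ℝ × ℝ) × ℝ | q.2 ∈ Bs D ρ c q.1.1 q.1.2} := by
  have h1 : MeasurableSet {q : (ℝ × ℝ) × ℝ | |q.2 - q.1.1| ≤ 2 * D} :=
    measurableSet_le (by fun_prop) measurable_const
  have h2 : MeasurableSet {q : (ℝ × ℝ) × ℝ | |c q.2 - c q.1.1 - q.1.2 * (q.2 - q.1.1)| ≤ 2 * ρ} := by
    refine measurableSet_le ?_ measurable_const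
    have h3 : Measurable fun q : (ℝ × ℝ) × ℝ => c q.2 - c q.1.1 :=
      (hc.comp measurable_snd).sub (hc.comp (measurable_fst.comp measurable_fst))
    exact (h3.sub (by fun_prop)).abs
  exact h1.inter h2

/-- the length of the set of times is measurable -/
theorem Bs_vol_meas (D ρ : ℝ) {c : ℝ → ℝ} (hc : Measurable c) :
    Measurable fun q : ℝ × ℝ => volume (Bs D ρ c q.1 q.2) :=
  measurable_measure_prodMk_left (Bs_meas3 D ρ hc)

theorem Bs_vol_le (D ρ : ℝ) (c : ℝ → ℝ) (t ζ : ℝ) :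
    volume (Bs D ρ c t ζ) ≤ ENNReal.ofReal (4 * D) := by
  calc volume (Bs D ρ c t ζ) ≤ volume (Icc (t - 2 * D) (t + 2 * D)) := by
        refine measure_mono fun s hs => ?_
        have := hs.1
        rw [abs_le] at this
        exact ⟨by linarith, by linarith⟩
    _ = _ := by rw [Real.volume_Icc]; congr 1; ring

/-- the Hoelder step -/
theorem hol {S : Set (ℝ × ℝ)} {w : ℝ × ℝ → ℝ≥0∞} (hw : Measurable w) (m : ℕ) :
    (∫⁻ z in S, w z) ^ (m + 2) ≤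
      volume S ^ m * (∫⁻ z in S, w z ^ (((m + 2 : ℕ) : ℝ) / 2)) ^ 2 := by
  have hn : (0 : ℝ) < ((m + 2 : ℕ) : ℝ) := by positivity
  have h1 := ENNReal.lintegral_mul_norm_pow_le (μ := volume.restrict S)
    (f := fun z => w z ^ (((m + 2 : ℕ) : ℝ) / 2)) (g := fun _ => (1 : ℝ≥0∞))
    (hw.pow_const _).aemeasurable aemeasurable_const
    (p := 2 / ((m + 2 : ℕ) : ℝ)) (q := (m : ℝ) / ((m + 2 : ℕ) : ℝ)) (by positivity) (by positivity)
    (by push_cast; field_simp; ring)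
  have h2 : ∫⁻ z in S, w z ≤ (∫⁻ z in S, w z ^ (((m + 2 : ℕ) : ℝ) / 2)) ^ (2 / ((m + 2 : ℕ) : ℝ)) *
      volume S ^ ((m : ℝ) / ((m + 2 : ℕ) : ℝ)) := by
    refine le_trans (le_of_eq ?_) (h1.trans (le_of_eq ?_))
    · refine lintegral_congr fun z => ?_
      rw [ENNReal.one_rpow, mul_one, ← ENNReal.rpow_mul]
      have : ((m + 2 : ℕ) : ℝ) / 2 * (2 / ((m + 2 : ℕ) : ℝ)) = 1 := by field_simp
      rw [this, ENNReal.rpow_one]
    · simp
  calc (∫⁻ z in S, w z) ^ (m + 2) ≤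
        ((∫⁻ z in S, w z ^ (((m + 2 : ℕ) : ℝ) / 2)) ^ (2 / ((m + 2 : ℕ) : ℝ)) *
          volume S ^ ((m : ℝ) / ((m + 2 : ℕ) : ℝ))) ^ (m + 2) := pow_le_pow_left₀ zero_le h2 _
    _ = _ := by
        rw [mul_pow, ← ENNReal.rpow_natCast, ← ENNReal.rpow_natCast, ← ENNReal.rpow_mul,
          ← ENNReal.rpow_mul, div_mul_cancel₀ _ hn.ne', div_mul_cancel₀ _ hn.ne',
          ENNReal.rpow_natCast, mul_comm]
        congr 1
        exact_mod_cast ENNReal.rpow_natCast _ 2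

/-- the volume of the part -/
theorem Sl_vol {m : ℕ} {l D : ℝ} (ρ : Fin m → ℝ) {c : ℝ → Fin m → ℝ} (hc : Measurable c)
    (y t : ℝ) (b : Fin m → ℝ) (v : ℝ × (Fin m → ℝ)) :
    volume (Sl l D ρ c y t b v) ≤ ENNReal.ofReal (2 * l) * volume (Tm D ρ c b t v.2) := by
  have hm := Sl_meas l D ρ hc y t b v
  rw [Measure.volume_eq_prod, Measure.prod_apply_symm hm]
  have h1 : ∀ s : ℝ, volume ((fun x => (x, s)) ⁻¹' Sl l D ρ c y t b v) ≤
      (Tm D ρ c b t v.2).indicator (fun _ => ENNReal.ofReal (2 * l)) s := by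
    intro s
    by_cases hs : s ∈ Tm D ρ c b t v.2
    · rw [indicator_of_mem hs]
      calc volume ((fun x => (x, s)) ⁻¹' Sl l D ρ c y t b v)
          ≤ volume (Icc (y + (s - t) * v.1 - l) (y + (s - t) * v.1 + l)) := by
            refine measure_mono fun x hx => ?_
            have h2 : |x - (y + (s - t) * v.1)| ≤ l := hx.1.2
            rw [abs_le] at h2
            exact ⟨by linarith, by linarith⟩
        _ = _ := by rw [Real.volume_Icc]; congr 1; ring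
    · rw [indicator_of_notMem hs, show (fun x => (x, s)) ⁻¹' Sl l D ρ c y t b v = ∅ by
        rw [eq_empty_iff_forall_notMem]
        intro x hx
        exact hs hx.2, measure_empty]
  refine (lintegral_mono h1).trans (le_of_eq ?_)
  rw [lintegral_indicator (Tm_meas D ρ hc b t v.2), setLIntegral_const]

theorem Tm_sub {m : ℕ} {D : ℝ} {ρ : Fin m → ℝ} {c : ℝ → Fin m → ℝ} {b : Fin m → ℝ} {t : ℝ}
    {z : Fin m → ℝ} {s : ℝ} (hs : s ∈ Tm D ρ c b t z) (j : Fin m) :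
    Tm D ρ c b t z ⊆ Bs D (ρ j) (fun r => c r j) s (z j) := by
  intro s' hs'
  have h1 := hs.1
  have h2 := hs'.1
  have h3 := hs.2 j
  have h4 := hs'.2 j
  rw [abs_le] at h1 h2 h3 h4
  refine ⟨abs_le.2 ⟨by linarith, by linarith⟩, abs_le.2 ⟨?_, ?_⟩⟩
  · show -(2 * ρ j) ≤ c s' j - c s j - z j * (s' - s)
    nlinarith
  · show c s' j - c s j - z j * (s' - s) ≤ 2 * ρ j
    nlinarith

/-- the weight -/
noncomputable def gh {m : ℕ} (D : ℝ) (ρ : Fin m → ℝ) (c : ℝ → Fin m → ℝ) (w : ℝ × ℝ → ℝ≥0∞)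
    (ζ : Fin m → ℝ) (p : ℝ × ℝ) : ℝ≥0∞ :=
  w p ^ (((m + 2 : ℕ) : ℝ) / 2) *
    (∏ j, volume (Bs D (ρ j) (fun r => c r j) p.2 (ζ j))) ^ ((1 : ℝ) / 2)

theorem gh_meas2 {m : ℕ} (D : ℝ) (ρ : Fin m → ℝ) {c : ℝ → Fin m → ℝ} (hc : Measurable c)
    {w : ℝ × ℝ → ℝ≥0∞} (hw : Measurable w) :
    Measurable fun q : (Fin m → ℝ) × (ℝ × ℝ) => gh D ρ c w q.1 q.2 := by
  unfold gh
  refine Measurable.mul ((hw.comp measurable_snd).pow_const _) (Measurable.pow_const ?_ _)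
  refine Finset.measurable_fun_prod _ fun j _ => ?_
  have h1 : Measurable fun r => c r j := (measurable_pi_apply j).comp hc
  exact (Bs_vol_meas D (ρ j) h1).comp
    (by fun_prop : Measurable fun q : (Fin m → ℝ) × (ℝ × ℝ) => (q.2.2, q.1 j))

theorem gh_meas {m : ℕ} (D : ℝ) (ρ : Fin m → ℝ) {c : ℝ → Fin m → ℝ} (hc : Measurable c)
    {w : ℝ × ℝ → ℝ≥0∞} (hw : Measurable w) (ζ : Fin m → ℝ) : Measurable (gh D ρ c w ζ) :=
  (gh_meas2 D ρ hc hw).comp (measurable_const.prodMk measurable_id)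

theorem gh_sq {m : ℕ} (D : ℝ) (ρ : Fin m → ℝ) (c : ℝ → Fin m → ℝ) (w : ℝ × ℝ → ℝ≥0∞)
    (ζ : Fin m → ℝ) (p : ℝ × ℝ) :
    gh D ρ c w ζ p ^ 2 = w p ^ (m + 2) * ∏ j, volume (Bs D (ρ j) (fun r => c r j) p.2 (ζ j)) := by
  unfold gh
  rw [mul_pow]
  congr 1
  · rw [← ENNReal.rpow_natCast, ← ENNReal.rpow_mul]
    have : ((m + 2 : ℕ) : ℝ) / 2 * ((2 : ℕ) : ℝ) = ((m + 2 : ℕ) : ℝ) := by push_cast; ring
    rw [this, ENNReal.rpow_natCast]
  · rw [← ENNReal.rpow_natCast, ← ENNReal.rpow_mul]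
    have : (1 : ℝ) / 2 * ((2 : ℕ) : ℝ) = 1 := by norm_num
    rw [this, ENNReal.rpow_one]

/-- **The reduction to the plane.** -/
theorem redu {m : ℕ} {l D : ℝ} (ρ : Fin m → ℝ) {c : ℝ → Fin m → ℝ}
    (hc : Measurable c) {w : ℝ × ℝ → ℝ≥0∞} (hw : Measurable w) (y t : ℝ) (b : Fin m → ℝ)
    (v : ℝ × (Fin m → ℝ)) :
    (∫⁻ z in Sl l D ρ c y t b v, w z) ^ (m + 2) ≤ ENNReal.ofReal (2 * l) ^ m *
      (∫⁻ z in Tb l D y t v.1, gh D ρ c w v.2 z) ^ 2 := by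
  set S := Sl l D ρ c y t b v with hS
  set β : ℝ≥0∞ := volume (Tm D ρ c b t v.2) with hβ
  set P : ℝ := ((m + 2 : ℕ) : ℝ) / 2 with hP
  have hSm : MeasurableSet S := Sl_meas l D ρ hc y t b v
  have hwm : Measurable fun z => w z ^ P := hw.pow_const _
  have h1 : (∫⁻ z in S, w z) ^ (m + 2) ≤ ENNReal.ofReal (2 * l) ^ m *
      (β ^ ((m : ℝ) / 2) * ∫⁻ z in S, w z ^ P) ^ 2 := by
    refine (hol hw m).trans ?_
    calc volume S ^ m * (∫⁻ z in S, w z ^ P) ^ 2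
        ≤ (ENNReal.ofReal (2 * l) * β) ^ m * (∫⁻ z in S, w z ^ P) ^ 2 :=
          mul_le_mul_left (pow_le_pow_left₀ zero_le (Sl_vol ρ hc y t b v) m) _
      _ = _ := by
          rw [mul_pow, mul_pow]
          have : (β ^ ((m : ℝ) / 2)) ^ 2 = β ^ m := by
            rw [← ENNReal.rpow_natCast, ← ENNReal.rpow_mul]
            have : (m : ℝ) / 2 * ((2 : ℕ) : ℝ) = m := by push_cast; ring
            rw [this, ENNReal.rpow_natCast]
          rw [this]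
          ring
  refine h1.trans (mul_le_mul_right (pow_le_pow_left₀ zero_le ?_ 2) _)
  rw [← lintegral_const_mul _ hwm]
  calc ∫⁻ z in S, β ^ ((m : ℝ) / 2) * w z ^ P ≤ ∫⁻ z in S, gh D ρ c w v.2 z := by
        refine setLIntegral_mono' hSm fun z hz => ?_
        unfold gh
        rw [mul_comm]
        refine mul_le_mul_right ?_ _
        have h2 : β ^ m ≤ ∏ j, volume (Bs D (ρ j) (fun r => c r j) z.2 (v.2 j)) := by
          calc β ^ m = ∏ _j : Fin m, β := by simp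
            _ ≤ _ := Finset.prod_le_prod' fun j _ => measure_mono (Tm_sub hz.2 j)
        calc β ^ ((m : ℝ) / 2) = (β ^ m) ^ ((1 : ℝ) / 2) := by
              rw [← ENNReal.rpow_natCast, ← ENNReal.rpow_mul]
              congr 1
              ring
          _ ≤ _ := ENNReal.rpow_le_rpow h2 (by norm_num)
    _ ≤ _ := lintegral_mono_set fun z hz => hz.1

end Pool.Agent.K4H46.MC
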