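import Mathlib

set_option autoImplicit false

/-! A Schur test and two estimates in the plane. -/

namespace Pool.Agent.K4H46.MC

open MeasureTheory Set
open scoped ENNReal NNReal

theorem cs2 {α : Type*} [MeasurableSpace α] {μ : Measure α} {f g : α → ℝ≥0∞} (hf : Measurable f)
    (hg : Measurable g) : (∫⁻ z, f z * g z ∂μ) ^ 2 ≤ (∫⁻ z, f z ^ 2 ∂μ) * ∫⁻ z, g z ^ 2 ∂μ := by
  have h1 := ENNReal.lintegral_mul_norm_pow_le (μ := μ)
    (f := fun z => f z ^ 2) (g := fun z => g z ^ 2) (hf.pow_const _).aemeasurable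
    (hg.pow_const _).aemeasurable (p := 1 / 2) (q := 1 / 2) (by norm_num) (by norm_num) (by norm_num)
  have e : ∀ x : ℝ≥0∞, (x ^ 2) ^ ((1 : ℝ) / 2) = x := by
    intro x
    rw [← ENNReal.rpow_natCast, ← ENNReal.rpow_mul]
    norm_num
  have e' : ∀ x : ℝ≥0∞, (x ^ ((1 : ℝ) / 2)) ^ 2 = x := by
    intro x
    rw [← ENNReal.rpow_natCast, ← ENNReal.rpow_mul]
    norm_num
  simp_rw [e] at h1
  calc (∫⁻ z, f z * g z ∂μ) ^ 2 ≤ ((∫⁻ z, f z ^ 2 ∂μ) ^ ((1 : ℝ) / 2) *
        (∫⁻ z, g z ^ 2 ∂μ) ^ ((1 : ℝ) / 2)) ^ 2 := pow_le_pow_left₀ zero_le h1 _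
    _ = _ := by rw [mul_pow, e', e']

theorem two_mul_le (a b : ℝ≥0∞) : 2 * (a * b) ≤ a ^ 2 + b ^ 2 := by
  rcases eq_or_ne a ∞ with ha | ha
  · rw [ha]; simp
  rcases eq_or_ne b ∞ with hb | hb
  · rw [hb]; simp
  lift a to ℝ≥0 using ha
  lift b to ℝ≥0 using hb
  have h : 2 * (a * b) ≤ a ^ 2 + b ^ 2 := by
    rw [← NNReal.coe_le_coe]
    push_cast
    nlinarith [sq_nonneg ((a : ℝ) - b)]
  exact_mod_cast h

theorem schur {U Z : Type*} [MeasurableSpace U] [MeasurableSpace Z] {μ : Measure U} [SFinite μ]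
    {ν : Measure Z} [SFinite ν] {T : Set (U × Z)} (hT : MeasurableSet T) {K : ℝ≥0∞}
    (hK : ∀ u, ∫⁻ u', ν {z | (u, z) ∈ T ∧ (u', z) ∈ T} ∂μ ≤ K) {g : Z → ℝ≥0∞}
    (hg : Measurable g)
    (hfin : ∫⁻ u, (∫⁻ z, T.indicator (fun _ => 1) (u, z) * g z ∂ν) ^ 2 ∂μ ≠ ∞) :
    ∫⁻ u, (∫⁻ z, T.indicator (fun _ => 1) (u, z) * g z ∂ν) ^ 2 ∂μ ≤ K * ∫⁻ z, g z ^ 2 ∂ν := by
  set I : U × Z → ℝ≥0∞ := T.indicator fun _ => 1 with hI
  have hIm : Measurable I := measurable_const.indicator hT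
  set A : U → ℝ≥0∞ := fun u => ∫⁻ z, I (u, z) * g z ∂ν with hA
  have hIg : Measurable fun q : U × Z => I q * g q.2 := hIm.mul (hg.comp measurable_snd)
  have hAm : Measurable A := hIg.lintegral_prod_right'
  set Q : ℝ≥0∞ := ∫⁻ u, A u ^ 2 ∂μ with hQ
  set Φ : Z → ℝ≥0∞ := fun z => ∫⁻ u, A u * I (u, z) ∂μ with hΦ
  have hAI : Measurable fun q : U × Z => A q.1 * I q := (hAm.comp measurable_fst).mul hIm
  have hΦm : Measurable Φ := hAI.lintegral_prod_left'
  have h1 : Q = ∫⁻ z, Φ z * g z ∂ν := by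
    have e1 : Q = ∫⁻ u, ∫⁻ z, A u * I (u, z) * g z ∂ν ∂μ := by
      rw [hQ]
      refine lintegral_congr fun u => ?_
      rw [pow_two]
      conv_lhs => rw [show A u * A u = A u * ∫⁻ z, I (u, z) * g z ∂ν from rfl]
      have hmz : Measurable fun z => I (u, z) * g z :=
        hIg.comp (measurable_const.prodMk measurable_id)
      rw [← lintegral_const_mul _ hmz]
      refine lintegral_congr fun z => ?_
      ring
    have hm3 : Measurable fun q : U × Z => A q.1 * I q * g q.2 := hAI.mul (hg.comp measurable_snd)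
    rw [e1, lintegral_lintegral_swap hm3.aemeasurable]
    refine lintegral_congr fun z => ?_
    have hmu : Measurable fun u => A u * I (u, z) := hAI.comp (measurable_id.prodMk measurable_const)
    rw [lintegral_mul_const _ hmu]
  set k : U → U → ℝ≥0∞ := fun u u' => ∫⁻ z, I (u, z) * I (u', z) ∂ν with hk
  have hkv : ∀ u u', k u u' = ν {z | (u, z) ∈ T ∧ (u', z) ∈ T} := by
    intro u u'
    have hm : MeasurableSet {z | (u, z) ∈ T ∧ (u', z) ∈ T} :=
      (hT.preimage (measurable_const.prodMk measurable_id)).inter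
        (hT.preimage (measurable_const.prodMk measurable_id))
    rw [← lintegral_indicator_one hm]
    refine lintegral_congr fun z => ?_
    by_cases h1 : (u, z) ∈ T
    · by_cases h2 : (u', z) ∈ T
      · rw [hI, indicator_of_mem h1, indicator_of_mem h2,
          indicator_of_mem (show z ∈ {z | (u, z) ∈ T ∧ (u', z) ∈ T} from ⟨h1, h2⟩)]
        simp
      · rw [hI, indicator_of_notMem h2, mul_zero,
          indicator_of_notMem (show z ∉ {z | (u, z) ∈ T ∧ (u', z) ∈ T} from fun h => h2 h.2)]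
    · rw [hI, indicator_of_notMem h1, zero_mul,
        indicator_of_notMem (show z ∉ {z | (u, z) ∈ T ∧ (u', z) ∈ T} from fun h => h1 h.1)]
  have hksymm : ∀ u u', k u u' = k u' u := by
    intro u u'
    simp only [hk]
    refine lintegral_congr fun z => mul_comm _ _
  have hkm : Measurable fun q : U × U => k q.1 q.2 := by
    have h2 : Measurable fun q : (U × U) × Z => I (q.1.1, q.2) * I (q.1.2, q.2) :=
      (hIm.comp ((measurable_fst.comp measurable_fst).prodMk measurable_snd)).mul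
        (hIm.comp ((measurable_snd.comp measurable_fst).prodMk measurable_snd))
    exact h2.lintegral_prod_right'
  have h2 : ∫⁻ z, Φ z ^ 2 ∂ν = ∫⁻ u, ∫⁻ u', A u * A u' * k u u' ∂μ ∂μ := by
    have e1 : ∀ z, Φ z ^ 2 = ∫⁻ u, ∫⁻ u', A u * A u' * (I (u, z) * I (u', z)) ∂μ ∂μ := by
      intro z
      have hm0 : Measurable fun u => A u * I (u, z) := hAI.comp (measurable_id.prodMk measurable_const)
      rw [pow_two]
      simp only [hΦ]
      rw [← lintegral_mul_const _ hm0]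
      refine lintegral_congr fun u => ?_
      rw [← lintegral_const_mul _ hm0]
      refine lintegral_congr fun u' => ?_
      ring
    simp_rw [e1]
    have hm4 : Measurable fun q : (Z × U) × U =>
        A q.1.2 * A q.2 * (I (q.1.2, q.1.1) * I (q.2, q.1.1)) :=
      ((hAm.comp (measurable_snd.comp measurable_fst)).mul (hAm.comp measurable_snd)).mul
        ((hIm.comp ((measurable_snd.comp measurable_fst).prodMk (measurable_fst.comp measurable_fst))).mul
        (hIm.comp (measurable_snd.prodMk (measurable_fst.comp measurable_fst))))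
    have hm5 : Measurable fun q : Z × U => ∫⁻ u', A q.2 * A u' * (I (q.2, q.1) * I (u', q.1)) ∂μ :=
      hm4.lintegral_prod_right'
    rw [lintegral_lintegral_swap hm5.aemeasurable]
    refine lintegral_congr fun u => ?_
    have hm6 : Measurable fun q : Z × U => A u * A q.2 * (I (u, q.1) * I (q.2, q.1)) :=
      hm4.comp ((measurable_fst.prodMk measurable_const).prodMk measurable_snd)
    rw [lintegral_lintegral_swap hm6.aemeasurable]
    refine lintegral_congr fun u' => ?_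
    have hmI : ∀ v, Measurable fun z => I (v, z) := fun v =>
      hIm.comp (measurable_const.prodMk measurable_id)
    have hmII : Measurable fun z => I (u, z) * I (u', z) := (hmI u).mul (hmI u')
    exact lintegral_const_mul _ hmII
  have h3 : ∫⁻ u, A u ^ 2 * ∫⁻ u', k u u' ∂μ ∂μ ≤ K * Q := by
    rw [hQ, ← lintegral_const_mul _ (hAm.pow_const 2)]
    refine lintegral_mono fun u => ?_
    rw [mul_comm K]
    refine mul_le_mul_right ?_ _
    simp_rw [hkv]
    exact hK u
  have hm7 : Measurable fun q : U × U => A q.1 ^ 2 * k q.1 q.2 :=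
    ((hAm.comp measurable_fst).pow_const 2).mul hkm
  have hm8 : Measurable fun q : U × U => A q.2 ^ 2 * k q.1 q.2 :=
    ((hAm.comp measurable_snd).pow_const 2).mul hkm
  have h4 : ∫⁻ u, ∫⁻ u', A u ^ 2 * k u u' ∂μ ∂μ = ∫⁻ u, A u ^ 2 * ∫⁻ u', k u u' ∂μ ∂μ := by
    refine lintegral_congr fun u => ?_
    exact lintegral_const_mul _ (hkm.comp (measurable_const.prodMk measurable_id))
  have h5 : ∫⁻ u, ∫⁻ u', A u' ^ 2 * k u u' ∂μ ∂μ = ∫⁻ u, ∫⁻ u', A u ^ 2 * k u u' ∂μ ∂μ := by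
    rw [lintegral_lintegral_swap hm8.aemeasurable]
    refine lintegral_congr fun u => lintegral_congr fun u' => ?_
    rw [hksymm]
  have h6 : 2 * ∫⁻ z, Φ z ^ 2 ∂ν ≤ 2 * (K * Q) := by
    rw [h2, ← lintegral_const_mul' _ _ (by norm_num)]
    calc ∫⁻ u, 2 * ∫⁻ u', A u * A u' * k u u' ∂μ ∂μ
        ≤ ∫⁻ u, ((∫⁻ u', A u ^ 2 * k u u' ∂μ) + ∫⁻ u', A u' ^ 2 * k u u' ∂μ) ∂μ := by
          refine lintegral_mono fun u => ?_
          have hm9 : Measurable fun u' => A u ^ 2 * k u u' :=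
            hm7.comp (measurable_const.prodMk measurable_id)
          rw [← lintegral_const_mul' _ _ (by norm_num), ← lintegral_add_left hm9]
          refine lintegral_mono fun u' => ?_
          show 2 * (A u * A u' * k u u') ≤ A u ^ 2 * k u u' + A u' ^ 2 * k u u'
          rw [← add_mul, ← mul_assoc]
          exact mul_le_mul_left (two_mul_le _ _) _
      _ = (∫⁻ u, ∫⁻ u', A u ^ 2 * k u u' ∂μ ∂μ) + ∫⁻ u, ∫⁻ u', A u' ^ 2 * k u u' ∂μ ∂μ :=
          lintegral_add_left hm7.lintegral_prod_right' _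
      _ ≤ K * Q + K * Q := by
          rw [h5, h4]
          exact add_le_add h3 h3
      _ = _ := by ring
  have h7 : ∫⁻ z, Φ z ^ 2 ∂ν ≤ K * Q :=
    (ENNReal.mul_le_mul_iff_right (by norm_num) (by norm_num)).1 h6
  have h8 : Q ^ 2 ≤ (K * Q) * ∫⁻ z, g z ^ 2 ∂ν := by
    calc Q ^ 2 = (∫⁻ z, Φ z * g z ∂ν) ^ 2 := by rw [← h1]
      _ ≤ (∫⁻ z, Φ z ^ 2 ∂ν) * ∫⁻ z, g z ^ 2 ∂ν := cs2 hΦm hg
      _ ≤ _ := mul_le_mul_left h7 _
  rcases eq_or_ne Q 0 with h0 | h0
  · rw [h0]; exact zero_le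
  have h9 : Q * Q ≤ (K * ∫⁻ z, g z ^ 2 ∂ν) * Q := by
    calc Q * Q = Q ^ 2 := (pow_two Q).symm
      _ ≤ _ := h8
      _ = _ := by ring
  exact (ENNReal.mul_le_mul_iff_left h0 hfin).1 h9

/-- the part of a strip over an interval -/
theorem strip (l a b α β : ℝ) :
    volume {z : ℝ × ℝ | z.2 ∈ Icc a b ∧ |z.1 - (α + β * z.2)| ≤ l} ≤
      ENNReal.ofReal (2 * l) * ENNReal.ofReal (b - a) := by
  have h0 : MeasurableSet {z : ℝ × ℝ | |z.1 - (α + β * z.2)| ≤ l} :=
    measurableSet_le (by fun_prop) measurable_const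
  have h1 : MeasurableSet {z : ℝ × ℝ | z.2 ∈ Icc a b ∧ |z.1 - (α + β * z.2)| ≤ l} :=
    (measurableSet_Icc.preimage measurable_snd).inter h0
  rw [Measure.volume_eq_prod, Measure.prod_apply_symm h1]
  have h2 : ∀ s : ℝ, volume ((fun x => (x, s)) ⁻¹'
      {z : ℝ × ℝ | z.2 ∈ Icc a b ∧ |z.1 - (α + β * z.2)| ≤ l}) ≤
      (Icc a b).indicator (fun _ => ENNReal.ofReal (2 * l)) s := by
    intro s
    by_cases hs : s ∈ Icc a b
    · rw [indicator_of_mem hs]
      calc volume ((fun x => (x, s)) ⁻¹' {z : ℝ × ℝ | z.2 ∈ Icc a b ∧ |z.1 - (α + β * z.2)| ≤ l})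
          ≤ volume (Icc (α + β * s - l) (α + β * s + l)) := by
            refine measure_mono fun x hx => ?_
            have h3 : |x - (α + β * s)| ≤ l := hx.2
            rw [abs_le] at h3
            exact ⟨by linarith, by linarith⟩
        _ = _ := by rw [Real.volume_Icc]; congr 1; ring
    · rw [indicator_of_notMem hs]
      have : (fun x => (x, s)) ⁻¹' {z : ℝ × ℝ | z.2 ∈ Icc a b ∧ |z.1 - (α + β * z.2)| ≤ l} = ∅ := by
        rw [eq_empty_iff_forall_notMem]
        intro x hx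
        exact hs hx.1
      rw [this, measure_empty]
  refine (lintegral_mono h2).trans (le_of_eq ?_)
  rw [lintegral_indicator measurableSet_Icc, setLIntegral_const, Real.volume_Icc]

theorem overlap {l D : ℝ} (hl : 0 < l) (hD : 0 < D) (y t u y' t' u' : ℝ) :
    volume {z : ℝ × ℝ | (|z.2 - t| ≤ D ∧ |z.1 - (y + (z.2 - t) * u)| ≤ l) ∧
      (|z.2 - t'| ≤ D ∧ |z.1 - (y' + (z.2 - t') * u')| ≤ l)} ≤ ENNReal.ofReal (4 * l * D) := by
  refine le_trans ?_ ((strip l (t - D) (t + D) (y - t * u) u).trans (le_of_eq ?_))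
  · refine measure_mono fun z hz => ?_
    obtain ⟨⟨h1, h2⟩, -⟩ := hz
    rw [abs_le] at h1
    refine ⟨⟨by linarith, by linarith⟩, ?_⟩
    have e : y - t * u + u * z.2 = y + (z.2 - t) * u := by ring
    rw [e]
    exact h2
  · rw [← ENNReal.ofReal_mul (by positivity)]
    congr 1
    ring

theorem overlap' {l D : ℝ} (hl : 0 < l) (_hD : 0 < D) (y t u y' t' u' : ℝ) (h : u ≠ u') :
    volume {z : ℝ × ℝ | (|z.2 - t| ≤ D ∧ |z.1 - (y + (z.2 - t) * u)| ≤ l) ∧
      (|z.2 - t'| ≤ D ∧ |z.1 - (y' + (z.2 - t') * u')| ≤ l)} ≤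
      ENNReal.ofReal (8 * l ^ 2 / |u' - u|) := by
  have hu : 0 < |u' - u| := abs_pos.2 (sub_ne_zero.2 h.symm)
  set s0 : ℝ := (y - t * u - (y' - t' * u')) / (u' - u) with hs0
  refine le_trans ?_ ((strip l (s0 - 2 * l / |u' - u|) (s0 + 2 * l / |u' - u|) (y - t * u) u).trans
    (le_of_eq ?_))
  · refine measure_mono fun z hz => ?_
    obtain ⟨⟨-, h2⟩, ⟨-, h4⟩⟩ := hz
    have h5 : |z.2 - s0| ≤ 2 * l / |u' - u| := by
      rw [le_div_iff₀ hu, ← abs_mul, hs0, sub_mul, div_mul_cancel₀ _ (sub_ne_zero.2 h.symm)]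
      have e1 : z.2 * (u' - u) - (y - t * u - (y' - t' * u')) =
          (z.1 - (y + (z.2 - t) * u)) - (z.1 - (y' + (z.2 - t') * u')) := by ring
      rw [e1]
      refine (abs_sub _ _).trans ?_
      linarith
    rw [abs_le] at h5
    refine ⟨⟨by linarith, by linarith⟩, ?_⟩
    have e : y - t * u + u * z.2 = y + (z.2 - t) * u := by ring
    rw [e]
    exact h2
  · rw [← ENNReal.ofReal_mul (by positivity)]
    congr 1
    field_simp
    ring

theorem int_inv {b δ R : ℝ} (hb : 0 < b) (hδ : 0 < δ) (hR : δ ≤ R) :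
    ∫⁻ s in Ioc δ R, ENNReal.ofReal (b / |s|) = ENNReal.ofReal (b * Real.log (R / δ)) := by
  have hR0 : 0 < R := by linarith
  have h1 : ∫⁻ s in Ioc δ R, ENNReal.ofReal (b / |s|) = ∫⁻ s in Ioc δ R, ENNReal.ofReal (b * s⁻¹) := by
    refine setLIntegral_congr_fun measurableSet_Ioc fun s hs => ?_
    rw [abs_of_pos (hδ.trans hs.1), div_eq_mul_inv]
  have hcont : ContinuousOn (fun s : ℝ => b * s⁻¹) (Icc δ R) := by
    refine continuousOn_const.mul (continuousOn_inv₀.mono fun s hs => ?_)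
    exact (lt_of_lt_of_le hδ hs.1).ne'
  have hint : IntegrableOn (fun s : ℝ => b * s⁻¹) (Ioc δ R) :=
    (hcont.integrableOn_Icc).mono_set Ioc_subset_Icc_self
  rw [h1, ← ofReal_integral_eq_lintegral_ofReal hint]
  · congr 1
    rw [← intervalIntegral.integral_of_le hR, intervalIntegral.integral_const_mul,
      integral_inv_of_pos hδ hR0]
  · refine (ae_restrict_iff' measurableSet_Ioc).2 (Filter.Eventually.of_forall fun s hs => ?_)
    have : 0 < s := hδ.trans hs.1
    positivity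

theorem int_min {a b R : ℝ} (ha : 0 < a) (hb : 0 < b) (hR : b ≤ a * R) :
    ∫⁻ s in Icc (-R) R, ENNReal.ofReal (min a (b / |s|)) ≤
      ENNReal.ofReal (2 * b * (1 + Real.log (a * R / b))) := by
  set δ : ℝ := b / a with hδ
  have hδ0 : 0 < δ := by positivity
  have hδR : δ ≤ R := by rw [hδ, div_le_iff₀ ha, mul_comm]; exact hR
  set f : ℝ → ℝ≥0∞ := fun s => ENNReal.ofReal (min a (b / |s|)) with hf
  have hlog : 0 ≤ Real.log (R / δ) := Real.log_nonneg (by rw [one_le_div hδ0]; exact hδR)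
  have h1 : ∫⁻ s in Icc (-δ) δ, f s ≤ ENNReal.ofReal (2 * b) := by
    calc ∫⁻ s in Icc (-δ) δ, f s ≤ ∫⁻ _s in Icc (-δ) δ, ENNReal.ofReal a :=
          lintegral_mono fun s => ENNReal.ofReal_le_ofReal (min_le_left _ _)
      _ = _ := by
          rw [setLIntegral_const, Real.volume_Icc, ← ENNReal.ofReal_mul ha.le]
          congr 1
          rw [hδ]; field_simp; ring
  have h2 : ∫⁻ s in Ioc δ R, f s ≤ ENNReal.ofReal (b * Real.log (R / δ)) := by
    rw [← int_inv hb hδ0 hδR]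
    exact lintegral_mono fun s => ENNReal.ofReal_le_ofReal (min_le_right _ _)
  have h3 : ∫⁻ s in Ico (-R) (-δ), f s = ∫⁻ s in Ioc δ R, f s := by
    rw [← lintegral_indicator measurableSet_Ico, ← lintegral_indicator measurableSet_Ioc,
      ← lintegral_neg_eq_self (fun s => (Ioc δ R).indicator f s)]
    refine lintegral_congr fun s => ?_
    by_cases hs : s ∈ Ico (-R) (-δ)
    · rw [indicator_of_mem hs, indicator_of_mem (show -s ∈ Ioc δ R from
        ⟨by linarith [hs.2], by linarith [hs.1]⟩)]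
      simp only [hf, abs_neg]
    · rw [indicator_of_notMem hs, indicator_of_notMem]
      intro h
      exact hs ⟨by linarith [h.2], by linarith [h.1]⟩
  calc ∫⁻ s in Icc (-R) R, f s ≤ ∫⁻ s in Icc (-δ) δ ∪ (Ioc δ R ∪ Ico (-R) (-δ)), f s := by
        refine lintegral_mono_set fun s hs => ?_
        rcases le_or_gt s δ with h | h
        · rcases le_or_gt (-δ) s with h' | h'
          · exact Or.inl ⟨h', h⟩
          · exact Or.inr (Or.inr ⟨hs.1, h'⟩)
        · exact Or.inr (Or.inl ⟨h, hs.2⟩)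
    _ ≤ (∫⁻ s in Icc (-δ) δ, f s) + ((∫⁻ s in Ioc δ R, f s) + ∫⁻ s in Ico (-R) (-δ), f s) := by
        refine (lintegral_union_le _ _ _).trans (add_le_add le_rfl ?_)
        exact lintegral_union_le _ _ _
    _ ≤ ENNReal.ofReal (2 * b) + (ENNReal.ofReal (b * Real.log (R / δ)) +
          ENNReal.ofReal (b * Real.log (R / δ))) := by
        rw [h3]
        exact add_le_add h1 (add_le_add h2 h2)
    _ = _ := by
        rw [← ENNReal.ofReal_add (by positivity) (by positivity),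
          ← ENNReal.ofReal_add (by positivity) (by positivity)]
        congr 1
        have : R / δ = a * R / b := by rw [hδ]; field_simp
        rw [this]
        ring

end Pool.Agent.K4H46.MC
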