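import Mathlib
import Pool.Agent.K4H46.MC.Hd
import Pool.Agent.K4H46.MC.Sch

set_option autoImplicit false

/-! The moment bound. -/

namespace Pool.Agent.K4H46.MC

open MeasureTheory Set Metric
open scoped ENNReal NNReal

/-- products -/
theorem lint_pi : ∀ {m : ℕ} {F : Fin m → ℝ → ℝ≥0∞}, (∀ j, Measurable (F j)) →
    ∫⁻ ζ : Fin m → ℝ, ∏ j, F j (ζ j) = ∏ j, ∫⁻ x, F j x := by
  intro m
  induction m with
  | zero => intro F _; simp [lintegral_unique, volume_pi, Measure.pi_univ]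
  | succ m ih =>
    intro F hF
    have hmp := (volume_preserving_piFinSuccAbove (fun _ : Fin (m + 1) => ℝ) 0).symm
    have hm : Measurable fun ζ : Fin (m + 1) → ℝ => ∏ j, F j (ζ j) :=
      Finset.measurable_fun_prod _ fun j _ => (hF j).comp (measurable_pi_apply j)
    rw [← hmp.lintegral_comp hm, Measure.volume_eq_prod]
    have e1 : ∀ z : ℝ × (Fin m → ℝ), (∏ j, F j (((MeasurableEquiv.piFinSuccAbove
        (fun _ : Fin (m + 1) => ℝ) 0).symm z) j)) = F 0 z.1 * ∏ j, F j.succ (z.2 j) := by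
      intro z
      rw [Fin.prod_univ_succ]
      congr 1
    simp_rw [e1]
    have hm2 : Measurable fun ζ : Fin m → ℝ => ∏ j : Fin m, F j.succ (ζ j) :=
      Finset.measurable_fun_prod _ fun j _ => (hF j.succ).comp (measurable_pi_apply j)
    rw [lintegral_prod_mul (f := F 0) (g := fun ζ : Fin m → ℝ => ∏ j : Fin m, F j.succ (ζ j))
      (hF 0).aemeasurable hm2.aemeasurable,
      ih fun j => hF j.succ, Fin.prod_univ_succ]

/-- Cauchy Schwarz -/
theorem cs {α : Type*} [MeasurableSpace α] {μ : Measure α} {g : α → ℝ≥0∞} (hg : Measurable g)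
    (S : Set α) : (∫⁻ z in S, g z ∂μ) ^ 2 ≤ μ S * ∫⁻ z, g z ^ 2 ∂μ := by
  have h1 := ENNReal.lintegral_mul_norm_pow_le (μ := μ.restrict S)
    (f := fun z => g z ^ 2) (g := fun _ => (1 : ℝ≥0∞)) (hg.pow_const _).aemeasurable
    aemeasurable_const (p := 1 / 2) (q := 1 / 2) (by norm_num) (by norm_num) (by norm_num)
  have h2 : ∫⁻ z in S, g z ∂μ ≤ (∫⁻ z in S, g z ^ 2 ∂μ) ^ ((1 : ℝ) / 2) * μ S ^ ((1 : ℝ) / 2) := by
    refine le_trans (le_of_eq ?_) (h1.trans (le_of_eq ?_))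
    · refine lintegral_congr fun z => ?_
      rw [ENNReal.one_rpow, mul_one, ← ENNReal.rpow_natCast, ← ENNReal.rpow_mul]
      norm_num
    · simp
  have e : ∀ x : ℝ≥0∞, (x ^ ((1 : ℝ) / 2)) ^ 2 = x := by
    intro x
    rw [← ENNReal.rpow_natCast, ← ENNReal.rpow_mul]
    norm_num
  calc (∫⁻ z in S, g z ∂μ) ^ 2 ≤ ((∫⁻ z in S, g z ^ 2 ∂μ) ^ ((1 : ℝ) / 2) *
        μ S ^ ((1 : ℝ) / 2)) ^ 2 := pow_le_pow_left₀ zero_le h2 _
    _ = (∫⁻ z in S, g z ^ 2 ∂μ) * μ S := by rw [mul_pow, e, e]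
    _ ≤ _ := by
        rw [mul_comm]
        exact mul_le_mul_right (setLIntegral_le_lintegral _ _) _

variable {ι : Type} [Fintype ι]

/-- the planar bound with a selection -/
theorem planar {l D : ℝ} (hl : 0 < l) (hD : 0 < D) (y t : ι → ℝ) {E : ι → Set ℝ}
    (hE : ∀ i, MeasurableSet (E i)) (hEd : ∀ i j, i ≠ j → Disjoint (E i) (E j))
    (hE3 : ∀ i, E i ⊆ Icc (-3) 3) {K : ℝ≥0∞}
    (hK : ∀ u ∈ Icc (-3 : ℝ) 3, ∫⁻ u' in Icc (-3 : ℝ) 3,
      ENNReal.ofReal (min (4 * l * D) (8 * l ^ 2 / |u' - u|)) ≤ K)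
    {g : ℝ × ℝ → ℝ≥0∞} (hg : Measurable g) (hfin : ∫⁻ z, g z ^ 2 ≠ ∞) :
    ∑ i, ∫⁻ u in E i, (∫⁻ z in Tb l D (y i) (t i) u, g z) ^ 2 ≤ K * ∫⁻ z, g z ^ 2 := by
  classical
  set T : Set (ℝ × (ℝ × ℝ)) := ⋃ i, {q | q.1 ∈ E i ∧ q.2 ∈ Tb l D (y i) (t i) q.1} with hT
  have hTm : MeasurableSet T := MeasurableSet.iUnion fun i =>
    ((hE i).preimage measurable_fst).inter (Tb_meas2 l D (y i) (t i))
  have huni : ∀ {u : ℝ} {i j : ι}, u ∈ E i → u ∈ E j → i = j := by
    intro u i j hi hj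
    by_contra hne
    exact (Set.disjoint_left.1 (hEd i j hne)) hi hj
  have hTi : ∀ {u : ℝ} {i : ι}, u ∈ E i → ∀ z, (u, z) ∈ T ↔ z ∈ Tb l D (y i) (t i) u := by
    intro u i hi z
    constructor
    · intro h
      obtain ⟨j, hj⟩ := mem_iUnion.1 h
      have : j = i := huni hj.1 hi
      subst this
      exact hj.2
    · intro h
      exact mem_iUnion.2 ⟨i, hi, h⟩
  have hTe : ∀ {u : ℝ}, (∀ i, u ∉ E i) → ∀ z, (u, z) ∉ T := by
    intro u hu z h
    obtain ⟨j, hj⟩ := mem_iUnion.1 h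
    exact hu j hj.1
  set A : ℝ → ℝ≥0∞ := fun u => ∫⁻ z, T.indicator (fun _ => 1) (u, z) * g z with hA
  have hAi : ∀ {u : ℝ} {i : ι}, u ∈ E i → A u = ∫⁻ z in Tb l D (y i) (t i) u, g z := by
    intro u i hi
    rw [← lintegral_indicator (Tb_meas _ _ _ _ _)]
    refine lintegral_congr fun z => ?_
    by_cases hz : z ∈ Tb l D (y i) (t i) u
    · rw [indicator_of_mem ((hTi hi z).2 hz), one_mul, indicator_of_mem hz]
    · rw [indicator_of_notMem (fun h => hz ((hTi hi z).1 h)), zero_mul, indicator_of_notMem hz]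
  have hAe : ∀ {u : ℝ}, (∀ i, u ∉ E i) → A u = 0 := by
    intro u hu
    rw [hA]
    simp only
    rw [lintegral_congr fun z => by rw [indicator_of_notMem (hTe hu z), zero_mul]]
    simp
  -- the kernel
  have hKT : ∀ u : ℝ, ∫⁻ u' : ℝ, volume {z : ℝ × ℝ | (u, z) ∈ T ∧ (u', z) ∈ T} ≤ K := by
    intro u
    by_cases hu : ∃ i, u ∈ E i
    · obtain ⟨i, hi⟩ := hu
      refine le_trans ?_ (hK u (hE3 i hi))
      rw [← lintegral_indicator measurableSet_Icc]
      refine lintegral_mono_ae ?_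
      have hne : ∀ᵐ u' : ℝ, u' ≠ u := by
        rw [ae_iff]; simp
      filter_upwards [hne] with u' hu'
      by_cases hj : ∃ j, u' ∈ E j
      · obtain ⟨j, hj⟩ := hj
        rw [indicator_of_mem (hE3 j hj)]
        have e1 : {z : ℝ × ℝ | (u, z) ∈ T ∧ (u', z) ∈ T} = {z : ℝ × ℝ |
            (|z.2 - t i| ≤ D ∧ |z.1 - (y i + (z.2 - t i) * u)| ≤ l) ∧
            (|z.2 - t j| ≤ D ∧ |z.1 - (y j + (z.2 - t j) * u')| ≤ l)} := by
          ext z
          exact and_congr (hTi hi z) (hTi hj z)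
        rw [e1, ENNReal.ofReal_min]
        exact le_min (overlap hl hD _ _ _ _ _ _) (overlap' hl hD _ _ _ _ _ _ (Ne.symm hu'))
      · push Not at hj
        have e1 : {z : ℝ × ℝ | (u, z) ∈ T ∧ (u', z) ∈ T} = ∅ := by
          rw [eq_empty_iff_forall_notMem]
          intro z hz
          exact hTe hj z hz.2
        rw [e1, measure_empty]
        exact zero_le
    · push Not at hu
      have e1 : ∀ u' : ℝ, volume {z : ℝ × ℝ | (u, z) ∈ T ∧ (u', z) ∈ T} = 0 := by
        intro u'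
        have e1 : {z : ℝ × ℝ | (u, z) ∈ T ∧ (u', z) ∈ T} = ∅ := by
          rw [eq_empty_iff_forall_notMem]
          intro z hz
          exact hTe hu z hz.1
        rw [e1, measure_empty]
      simp_rw [e1]
      simp
  -- finiteness
  have hb : ∀ u, A u ^ 2 ≤ (Icc (-3 : ℝ) 3).indicator
      (fun _ => ENNReal.ofReal (4 * l * D) * ∫⁻ z, g z ^ 2) u := by
    intro u
    by_cases hu : ∃ i, u ∈ E i
    · obtain ⟨i, hi⟩ := hu
      rw [indicator_of_mem (hE3 i hi), hAi hi]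
      refine (cs hg _).trans (mul_le_mul_left ?_ _)
      refine (measure_mono fun z hz => ?_).trans (overlap hl hD (y i) (t i) u (y i) (t i) u)
      exact ⟨hz, hz⟩
    · push Not at hu
      rw [hAe hu]
      simp
  have hfA : ∫⁻ u, A u ^ 2 ≠ ∞ := by
    refine ne_top_of_le_ne_top ?_ (lintegral_mono hb)
    rw [lintegral_indicator measurableSet_Icc, setLIntegral_const, Real.volume_Icc]
    exact ENNReal.mul_ne_top (ENNReal.mul_ne_top ENNReal.ofReal_ne_top hfin) ENNReal.ofReal_ne_top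
  have hs := schur (μ := (volume : Measure ℝ)) (ν := (volume : Measure (ℝ × ℝ))) hTm hKT hg hfA
  refine le_trans ?_ hs
  have hAm : Measurable A := by
    have h1 : Measurable fun q : ℝ × (ℝ × ℝ) => T.indicator (fun _ => (1 : ℝ≥0∞)) q * g q.2 :=
      (measurable_const.indicator hTm).mul (hg.comp measurable_snd)
    exact h1.lintegral_prod_right'
  calc ∑ i, ∫⁻ u in E i, (∫⁻ z in Tb l D (y i) (t i) u, g z) ^ 2
      = ∑ i, ∫⁻ u, (E i).indicator (fun u => A u ^ 2) u := by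
        refine Finset.sum_congr rfl fun i _ => ?_
        rw [lintegral_indicator (hE i)]
        refine setLIntegral_congr_fun (hE i) fun u hu => ?_
        rw [hAi hu]
    _ = ∫⁻ u, ∑ i, (E i).indicator (fun u => A u ^ 2) u :=
        (lintegral_finsetSum _ fun i _ => (hAm.pow_const 2).indicator (hE i)).symm
    _ ≤ ∫⁻ u, A u ^ 2 := by
        refine lintegral_mono fun u => ?_
        by_cases hu : ∃ i, u ∈ E i
        · obtain ⟨i, hi⟩ := hu
          rw [Finset.sum_eq_single i]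
          · rw [indicator_of_mem hi]
          · intro j _ hj
            exact indicator_of_notMem (fun h => hj (huni h hi)) _
          · intro h; exact absurd (Finset.mem_univ i) h
        · push Not at hu
          rw [Finset.sum_eq_zero fun i _ => indicator_of_notMem (hu i) _]
          exact zero_le

/-- **The moment bound.** -/
theorem moment {m : ℕ} {l D : ℝ} (hl : 0 < l) (hD : 0 < D) (ρ : Fin m → ℝ) {c : ℝ → Fin m → ℝ}
    (hc : Measurable c) (y t : ι → ℝ) (b : ι → Fin m → ℝ) {B : ι → Set (ℝ × (Fin m → ℝ))}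
    (hB : ∀ i, MeasurableSet (B i)) (hBd : ∀ i j, i ≠ j → Disjoint (B i) (B j))
    (hB3 : ∀ i, ∀ v ∈ B i, |v.1| ≤ 3 ∧ ∀ j, |v.2 j| ≤ 3) {w : ℝ × ℝ → ℝ≥0∞} (hw : Measurable w)
    (hfin : ∫⁻ z, w z ^ (m + 2) ≠ ∞) {K : ℝ≥0∞} {L : Fin m → ℝ≥0∞}
    (hK : ∀ u ∈ Icc (-3 : ℝ) 3, ∫⁻ u' in Icc (-3 : ℝ) 3,
      ENNReal.ofReal (min (4 * l * D) (8 * l ^ 2 / |u' - u|)) ≤ K)
    (hL : ∀ j t, ∫⁻ ζ in Icc (-3 : ℝ) 3, volume (Bs D (ρ j) (fun r => c r j) t ζ) ≤ L j) :
    ∑ i, ∫⁻ v in B i, (∫⁻ z in Sl l D ρ c (y i) (t i) (b i) v, w z) ^ (m + 2) ≤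
      ENNReal.ofReal (2 * l) ^ m * (K * ((∏ j, L j) * ∫⁻ z, w z ^ (m + 2))) := by
  classical
  have h2l : ENNReal.ofReal (2 * l) ^ m ≠ ∞ := ENNReal.pow_ne_top ENNReal.ofReal_ne_top
  set F : ι → (ℝ × (Fin m → ℝ)) → ℝ≥0∞ := fun i v =>
    (∫⁻ z in Tb l D (y i) (t i) v.1, gh D ρ c w v.2 z) ^ 2 with hF
  have hFm : ∀ i, Measurable (F i) := by
    intro i
    have h1 : Measurable fun q : (ℝ × (Fin m → ℝ)) × (ℝ × ℝ) =>
        {q : (ℝ × (Fin m → ℝ)) × (ℝ × ℝ) | q.2 ∈ Tb l D (y i) (t i) q.1.1}.indicator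
          (fun q => gh D ρ c w q.1.2 q.2) q := by
      refine Measurable.indicator ?_ ?_
      · exact (gh_meas2 D ρ hc hw).comp
          (by fun_prop : Measurable fun q : (ℝ × (Fin m → ℝ)) × (ℝ × ℝ) => (q.1.2, q.2))
      · exact (Tb_meas2 l D (y i) (t i)).preimage
          (by fun_prop : Measurable fun q : (ℝ × (Fin m → ℝ)) × (ℝ × ℝ) => (q.1.1, q.2))
    have h2 := h1.lintegral_prod_right' (ν := (volume : Measure (ℝ × ℝ)))
    have e : (fun v : ℝ × (Fin m → ℝ) => ∫⁻ z in Tb l D (y i) (t i) v.1, gh D ρ c w v.2 z) =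
        fun v => ∫⁻ z, {q : (ℝ × (Fin m → ℝ)) × (ℝ × ℝ) | q.2 ∈ Tb l D (y i) (t i) q.1.1}.indicator
          (fun q => gh D ρ c w q.1.2 q.2) (v, z) := by
      funext v
      rw [← lintegral_indicator (Tb_meas _ _ _ _ _)]
      rfl
    have h3 : Measurable fun v : ℝ × (Fin m → ℝ) =>
        ∫⁻ z in Tb l D (y i) (t i) v.1, gh D ρ c w v.2 z := by rw [e]; exact h2
    exact h3.pow_const 2
  have hstep1 : ∑ i, ∫⁻ v in B i, (∫⁻ z in Sl l D ρ c (y i) (t i) (b i) v, w z) ^ (m + 2) ≤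
      ENNReal.ofReal (2 * l) ^ m * ∑ i, ∫⁻ v in B i, F i v := by
    rw [Finset.mul_sum]
    refine Finset.sum_le_sum fun i _ => ?_
    rw [← lintegral_const_mul' _ _ h2l]
    exact lintegral_mono fun v => redu ρ hc hw (y i) (t i) (b i) v
  refine hstep1.trans (mul_le_mul_right ?_ _)
  -- the sections
  set E : (Fin m → ℝ) → ι → Set ℝ := fun ζ i => {u | (u, ζ) ∈ B i} with hE
  have hEm : ∀ ζ i, MeasurableSet (E ζ i) := fun ζ i =>
    (hB i).preimage (measurable_id.prodMk measurable_const)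
  have hsec : ∀ i, ∫⁻ v in B i, F i v = ∫⁻ ζ : Fin m → ℝ, ∫⁻ u in E ζ i, F i (u, ζ) := by
    intro i
    rw [← lintegral_indicator (hB i), Measure.volume_eq_prod,
      lintegral_prod_symm' _ ((hFm i).indicator (hB i))]
    refine lintegral_congr fun ζ => ?_
    rw [← lintegral_indicator (hEm ζ i)]
    rfl
  set Q : Set (Fin m → ℝ) := Set.univ.pi fun _ => Icc (-3 : ℝ) 3 with hQ
  have hQm : MeasurableSet Q := MeasurableSet.univ_pi fun _ => measurableSet_Icc
  have hmeasF : ∀ i, Measurable fun ζ : Fin m → ℝ => ∫⁻ u in E ζ i, F i (u, ζ) := by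
    intro i
    have h1 : Measurable fun q : (Fin m → ℝ) × ℝ => (B i).indicator (F i) (q.2, q.1) :=
      ((hFm i).indicator (hB i)).comp (measurable_snd.prodMk measurable_fst)
    have e : (fun ζ : Fin m → ℝ => ∫⁻ u in E ζ i, F i (u, ζ)) =
        fun ζ => ∫⁻ u, (B i).indicator (F i) (u, ζ) := by
      funext ζ
      rw [← lintegral_indicator (hEm ζ i)]
      rfl
    rw [e]
    exact h1.lintegral_prod_right' (ν := (volume : Measure ℝ))
  have hghfin : ∀ ζ, ∫⁻ z, gh D ρ c w ζ z ^ 2 ≠ ∞ := by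
    intro ζ
    have h1 : ∫⁻ z, gh D ρ c w ζ z ^ 2 ≤ ENNReal.ofReal (4 * D) ^ m * ∫⁻ z, w z ^ (m + 2) := by
      rw [← lintegral_const_mul' _ _ (ENNReal.pow_ne_top ENNReal.ofReal_ne_top)]
      refine lintegral_mono fun z => ?_
      rw [gh_sq, mul_comm]
      refine mul_le_mul_left ?_ _
      calc ∏ j, volume (Bs D (ρ j) (fun r => c r j) z.2 (ζ j)) ≤ ∏ _j : Fin m, ENNReal.ofReal (4 * D) :=
            Finset.prod_le_prod' fun j _ => Bs_vol_le _ _ _ _ _
        _ = _ := by simp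
    exact ne_top_of_le_ne_top (ENNReal.mul_ne_top (ENNReal.pow_ne_top ENNReal.ofReal_ne_top) hfin) h1
  have hstep2 : ∑ i, ∫⁻ v in B i, F i v ≤ ∫⁻ ζ in Q, K * ∫⁻ z, gh D ρ c w ζ z ^ 2 := by
    simp_rw [hsec]
    rw [← lintegral_finsetSum _ fun i _ => hmeasF i, ← lintegral_indicator hQm]
    refine lintegral_mono fun ζ => ?_
    simp only
    by_cases hζ : ζ ∈ Q
    · rw [indicator_of_mem hζ]
      refine planar hl hD y t (E := E ζ) (hEm ζ) (fun i j hij => ?_) (fun i u hu => ?_) hK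
        (gh_meas D ρ hc hw ζ) (hghfin ζ)
      · rw [Set.disjoint_left]
        intro u hu hu'
        exact (Set.disjoint_left.1 (hBd i j hij)) hu hu'
      · have := (hB3 i _ hu).1
        exact abs_le.1 this
    · rw [indicator_of_notMem hζ]
      refine le_of_eq (Finset.sum_eq_zero fun i _ => ?_)
      have : E ζ i = ∅ := by
        rw [eq_empty_iff_forall_notMem]
        intro u hu
        refine hζ fun j _ => ?_
        exact abs_le.1 ((hB3 i _ hu).2 j)
      rw [this]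
      simp
  refine hstep2.trans ?_
  have hghm2 : Measurable fun q : (Fin m → ℝ) × (ℝ × ℝ) => gh D ρ c w q.1 q.2 ^ 2 :=
    (gh_meas2 D ρ hc hw).pow_const 2
  rw [lintegral_const_mul _ hghm2.lintegral_prod_right']
  refine mul_le_mul_right ?_ _
  rw [lintegral_lintegral_swap hghm2.aemeasurable]
  calc ∫⁻ z, ∫⁻ ζ in Q, gh D ρ c w ζ z ^ 2 ≤ ∫⁻ z, (∏ j, L j) * w z ^ (m + 2) := by
        refine lintegral_mono fun z => ?_
        simp_rw [gh_sq]
        have hBm : ∀ j, Measurable fun x : ℝ => volume (Bs D (ρ j) (fun r => c r j) z.2 x) := by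
          intro j
          have h1 : Measurable fun r => c r j := (measurable_pi_apply j).comp hc
          exact (Bs_vol_meas D (ρ j) h1).comp (measurable_const.prodMk measurable_id)
        have hBm2 : Measurable fun ζ : Fin m → ℝ => ∏ j : Fin m,
            volume (Bs D (ρ j) (fun r => c r j) z.2 (ζ j)) :=
          Finset.measurable_fun_prod _ fun j _ => (hBm j).comp (measurable_pi_apply j)
        rw [lintegral_const_mul _ hBm2, mul_comm]
        refine mul_le_mul_left ?_ _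
        rw [← lintegral_indicator hQm]
        have e1 : ∀ ζ : Fin m → ℝ, Q.indicator (fun ζ => ∏ j, volume (Bs D (ρ j)
            (fun r => c r j) z.2 (ζ j))) ζ = ∏ j, (Icc (-3 : ℝ) 3).indicator
              (fun x => volume (Bs D (ρ j) (fun r => c r j) z.2 x)) (ζ j) := by
          intro ζ
          by_cases hζ : ζ ∈ Q
          · rw [indicator_of_mem hζ]
            refine Finset.prod_congr rfl fun j _ => ?_
            rw [indicator_of_mem (hζ j (mem_univ j))]
          · rw [indicator_of_notMem hζ]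
            have : ∃ j, ζ j ∉ Icc (-3 : ℝ) 3 := by
              by_contra h
              push Not at h
              exact hζ fun j _ => h j
            obtain ⟨j, hj⟩ := this
            exact (Finset.prod_eq_zero (Finset.mem_univ j) (indicator_of_notMem hj _)).symm
        simp_rw [e1]
        rw [lint_pi fun j => (hBm j).indicator measurableSet_Icc]
        refine Finset.prod_le_prod' fun j _ => ?_
        rw [lintegral_indicator measurableSet_Icc]
        exact hL j z.2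
    _ = _ := lintegral_const_mul _ (hw.pow_const _)

end Pool.Agent.K4H46.MC
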