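import Mathlib
import Pool.Agent.K4H46.US.Bx
import Pool.Agent.K4H46.MC.Mo

set_option autoImplicit false

/-! The slices of the boxes. -/

namespace Pool.Agent.K4H46.MC

open MeasureTheory Set Metric
open scoped ENNReal NNReal
open Pool.Agent.H810R3.Tub (Vec Space nor box dir Fb wv wv_pos)
open Pool.Agent.K4H46.US (pt pt_meas sp_lint box_slice repr_meas coord_le vol_two)

variable {m : ℕ}

/-- the point with given coordinates -/
noncomputable def mk (e : OrthonormalBasis (Fin (m + 1)) ℝ (Vec (m + 1))) (k0 : Fin (m + 1))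
    (q : ℝ × (Fin m → ℝ)) : Vec (m + 1) :=
  e.repr.symm (WithLp.toLp 2 (k0.insertNth (α := fun _ => ℝ) q.1 q.2))

theorem mk_mp (e : OrthonormalBasis (Fin (m + 1)) ℝ (Vec (m + 1))) (k0 : Fin (m + 1)) :
    MeasurePreserving (mk e k0) volume volume := by
  have h1 := (volume_preserving_piFinSuccAbove (fun _ : Fin (m + 1) => ℝ) k0).symm
  have h2 := PiLp.volume_preserving_toLp (Fin (m + 1))
  exact (e.measurePreserving_repr_symm.comp h2).comp h1

theorem mk_k0 (e : OrthonormalBasis (Fin (m + 1)) ℝ (Vec (m + 1))) (k0 : Fin (m + 1))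
    (q : ℝ × (Fin m → ℝ)) : e.repr (mk e k0 q) k0 = q.1 := by
  unfold mk
  rw [LinearIsometryEquiv.apply_symm_apply]
  simp

theorem mk_succ (e : OrthonormalBasis (Fin (m + 1)) ℝ (Vec (m + 1))) (k0 : Fin (m + 1))
    (q : ℝ × (Fin m → ℝ)) (j : Fin m) : e.repr (mk e k0 q) (k0.succAbove j) = q.2 j := by
  unfold mk
  rw [LinearIsometryEquiv.apply_symm_apply]
  simp

/-- the moving cylinder -/
def Cy (e : OrthonormalBasis (Fin (m + 1)) ℝ (Vec (m + 1))) (k0 : Fin (m + 1))
    (c : ℝ → Fin m → ℝ) (r : Fin m → ℝ) : Set (Space (m + 1)) :=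
  {y | ∀ j, |e.repr y.fst (k0.succAbove j) - c y.snd j| ≤ r j}

theorem fs_meas : Measurable fun y : Space (m + 1) => (y.fst, y.snd) :=
  (WithLp.volume_preserving_ofLp (Vec (m + 1)) ℝ).measurable

theorem Cy_meas (e : OrthonormalBasis (Fin (m + 1)) ℝ (Vec (m + 1))) (k0 : Fin (m + 1))
    {c : ℝ → Fin m → ℝ} (hc : Measurable c) (r : Fin m → ℝ) : MeasurableSet (Cy e k0 c r) := by
  have : Cy e k0 c r = ⋂ j, {y : Space (m + 1) |
      |e.repr y.fst (k0.succAbove j) - c y.snd j| ≤ r j} := by
    ext y; simp [Cy]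
  rw [this]
  refine MeasurableSet.iInter fun j => measurableSet_le ?_ measurable_const
  have h1 : Measurable fun y : Space (m + 1) => e.repr y.fst (k0.succAbove j) :=
    (repr_meas e _).comp (measurable_fst.comp fs_meas)
  have h2 : Measurable fun y : Space (m + 1) => c y.snd j :=
    (measurable_pi_apply j).comp (hc.comp (measurable_snd.comp fs_meas))
  exact (h1.sub h2).abs

/-- the weight supported in the moving cylinder -/
noncomputable def Wt (e : OrthonormalBasis (Fin (m + 1)) ℝ (Vec (m + 1))) (k0 : Fin (m + 1))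
    (c : ℝ → Fin m → ℝ) (r : Fin m → ℝ) (w : ℝ × ℝ → ℝ≥0∞) (y : Space (m + 1)) : ℝ≥0∞ :=
  w (e.repr y.fst k0, y.snd) * (Cy e k0 c r).indicator (fun _ => 1) y

theorem Wt_meas (e : OrthonormalBasis (Fin (m + 1)) ℝ (Vec (m + 1))) (k0 : Fin (m + 1))
    {c : ℝ → Fin m → ℝ} (hc : Measurable c) (r : Fin m → ℝ) {w : ℝ × ℝ → ℝ≥0∞} (hw : Measurable w) :
    Measurable (Wt e k0 c r w) := by
  refine Measurable.mul (hw.comp ?_) (measurable_const.indicator (Cy_meas e k0 hc r))
  exact ((repr_meas e _).comp (measurable_fst.comp fs_meas)).prodMk (measurable_snd.comp fs_meas)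

/-- the intersection of two intervals -/
theorem vol_ind (x r y l : ℝ) :
    volume (Icc (x - r) (x + r) ∩ Icc (y - l) (y + l)) ≤
      {p : ℝ | |p - x| ≤ r + l}.indicator (fun _ => ENNReal.ofReal (min (2 * r) (2 * l))) y := by
  by_cases hy : |y - x| ≤ r + l
  · rw [indicator_of_mem (show y ∈ {p : ℝ | |p - x| ≤ r + l} from hy)]
    exact vol_two x r y l
  · rw [indicator_of_notMem (show y ∉ {p : ℝ | |p - x| ≤ r + l} from hy)]
    have : Icc (x - r) (x + r) ∩ Icc (y - l) (y + l) = ∅ := by
      rw [eq_empty_iff_forall_notMem]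
      rintro z ⟨h1, h2⟩
      apply hy
      rw [abs_le]
      exact ⟨by linarith [h1.1, h1.2, h2.1, h2.2], by linarith [h1.1, h1.2, h2.1, h2.2]⟩
    rw [this, measure_empty]

/-- the integral of a weight over a box -/
theorem bx_int {N : ℝ} (hN : 1 ≤ N) {ω : Vec (m + 1)} (hω : ‖ω‖ ≤ 1)
    {f : Fin (m + 1) → Space (m + 1)}
    (hf : Orthonormal ℝ (Fin.cons (nor ω) f : Fin (m + 1 + 1) → Space (m + 1)))
    (a : Space (m + 1)) (e : OrthonormalBasis (Fin (m + 1)) ℝ (Vec (m + 1))) (k0 : Fin (m + 1))
    {q : ℝ × (Fin m → ℝ)} (hv : ‖mk e k0 q + (2 : ℝ) • ω‖ ≤ 1 / N)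
    {c : ℝ → Fin m → ℝ} (hc : Measurable c) {w : ℝ × ℝ → ℝ≥0∞} (hw : Measurable w)
    (r : Fin m → ℝ) {l D : ℝ} (hl : (2 * ((m + 1 : ℕ) : ℝ) + 1) * N = l)
    (hD : (2 * ((m + 1 : ℕ) : ℝ) + 1) * N ^ 2 = D) :
    ∫⁻ y in box N (nor ω) f a, Wt e k0 c r w y ≤
      (∏ j, ENNReal.ofReal (min (2 * r j) (2 * l))) *
        ∫⁻ z in Sl l D (fun j => r j + l) c (e.repr a.fst k0) a.snd
          (fun j => e.repr a.fst (k0.succAbove j)) q, w z := by
  have hbm : MeasurableSet (box N (nor ω) f a) :=
    (Pool.Agent.H810R3.Tub.box_closed _ _ _ _).measurableSet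
  have hgm : Measurable (Wt e k0 c r w) := Wt_meas e k0 hc r hw
  set τ : ℝ := a.snd with hτ
  set y0 : ℝ := e.repr a.fst k0 with hy0
  set b : Fin m → ℝ := fun j => e.repr a.fst (k0.succAbove j) with hb
  set S := Sl l D (fun j => r j + l) c y0 τ b q with hS
  have hSm : MeasurableSet S := Sl_meas l D _ hc y0 τ b q
  have hTm := Tb_meas l D y0 τ q.1
  set J : ℝ → Fin m → Set ℝ := fun t j => Icc (c t j - r j) (c t j + r j) ∩
    Icc ((b j + (t - τ) * q.2 j) - l) ((b j + (t - τ) * q.2 j) + l) with hJ
  have hJm : ∀ t j, MeasurableSet (J t j) := fun t j => measurableSet_Icc.inter measurableSet_Icc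
  rw [← lintegral_indicator hbm, sp_lint (hgm.indicator hbm),
    ← lintegral_const_mul' _ _ (ENNReal.prod_ne_top fun k _ => ENNReal.ofReal_ne_top),
    ← lintegral_indicator hSm, Measure.volume_eq_prod,
    lintegral_prod_symm' _ ((hw.const_mul _).indicator hSm)]
  refine lintegral_mono fun t => ?_
  have hmk := mk_mp e k0
  have hm1 : Measurable fun x : Vec (m + 1) => (box N (nor ω) f a).indicator (Wt e k0 c r w) (pt x t) :=
    (hgm.indicator hbm).comp (pt_meas.comp (measurable_id.prodMk measurable_const))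
  have hprodm : Measurable fun z : Fin m → ℝ => ∏ j, (J t j).indicator (fun _ => (1 : ℝ≥0∞)) (z j) :=
    Finset.measurable_fun_prod _ fun j _ =>
      (measurable_const.indicator (hJm t j)).comp (measurable_pi_apply j)
  have hwt : Measurable fun y : ℝ => (Tb l D y0 τ q.1).indicator w (y, t) :=
    (hw.indicator hTm).comp (measurable_id.prodMk measurable_const)
  show ∫⁻ x : Vec (m + 1), (box N (nor ω) f a).indicator (Wt e k0 c r w) (pt x t) ≤ _
  rw [← hmk.lintegral_comp hm1]
  calc ∫⁻ p : ℝ × (Fin m → ℝ), (box N (nor ω) f a).indicator (Wt e k0 c r w) (pt (mk e k0 p) t)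
      ≤ ∫⁻ p : ℝ × (Fin m → ℝ), (Tb l D y0 τ q.1).indicator w (p.1, t) *
          ∏ j, (J t j).indicator (fun _ => (1 : ℝ≥0∞)) (p.2 j) := by
        refine lintegral_mono fun p => ?_
        show (box N (nor ω) f a).indicator (Wt e k0 c r w) (pt (mk e k0 p) t) ≤ _
        by_cases hbx : pt (mk e k0 p) t ∈ box N (nor ω) f a
        · rw [indicator_of_mem hbx]
          obtain ⟨h1, h2⟩ := box_slice hN hω hf hbx hv
          rw [hl] at h2
          rw [hD] at h1
          have h1' : |t - τ| ≤ D := h1
          have h2' : ‖mk e k0 p - (a.fst + (t - τ) • mk e k0 q)‖ ≤ l := h2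
          have hco : ∀ k, |e.repr (mk e k0 p) k - (e.repr a.fst k + (t - τ) * e.repr (mk e k0 q) k)| ≤ l := by
            intro k
            have h3 := (coord_le e _ k).trans h2'
            rw [map_sub, map_add, map_smul] at h3
            exact h3
          have hT : ((p.1, t) : ℝ × ℝ) ∈ Tb l D y0 τ q.1 := by
            refine ⟨h1', ?_⟩
            have h3 := hco k0
            rw [mk_k0, mk_k0] at h3
            exact h3
          rw [indicator_of_mem hT]
          unfold Wt
          have e3 : e.repr (pt (mk e k0 p) t).fst k0 = p.1 := mk_k0 e k0 p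
          have e4 : (pt (mk e k0 p) t).snd = t := rfl
          rw [e3, e4]
          refine mul_le_mul_right ?_ _
          by_cases hC : pt (mk e k0 p) t ∈ Cy e k0 c r
          · rw [indicator_of_mem hC]
            have h8 : ∏ j, (J t j).indicator (fun _ => (1 : ℝ≥0∞)) (p.2 j) = 1 := by
              refine Finset.prod_eq_one fun j _ => ?_
              rw [indicator_of_mem]
              have h5 : |e.repr (mk e k0 p) (k0.succAbove j) - c t j| ≤ r j := hC j
              have h6 := hco (k0.succAbove j)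
              rw [mk_succ] at h5
              rw [mk_succ, mk_succ] at h6
              rw [abs_le] at h5 h6
              exact ⟨⟨by linarith, by linarith⟩, ⟨by simp only [hb]; linarith,
                by simp only [hb]; linarith⟩⟩
            rw [h8]
          · rw [indicator_of_notMem hC]; exact zero_le
        · rw [indicator_of_notMem hbx]; exact zero_le
    _ = (∫⁻ y : ℝ, (Tb l D y0 τ q.1).indicator w (y, t)) * ∏ j, volume (J t j) := by
        rw [Measure.volume_eq_prod, lintegral_prod_mul
          (f := fun y : ℝ => (Tb l D y0 τ q.1).indicator w (y, t)) hwt.aemeasurable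
          (g := fun z : Fin m → ℝ => ∏ j, (J t j).indicator (fun _ => (1 : ℝ≥0∞)) (z j))
          hprodm.aemeasurable,
          lint_pi (F := fun j => (J t j).indicator (fun _ => (1 : ℝ≥0∞)))
            fun j => measurable_const.indicator (hJm t j)]
        congr 1
        refine Finset.prod_congr rfl fun j _ => ?_
        exact lintegral_indicator_one (hJm t j)
    _ ≤ _ := by
        rw [← lintegral_mul_const _ hwt]
        refine lintegral_mono fun y => ?_
        by_cases hyT : ((y, t) : ℝ × ℝ) ∈ Tb l D y0 τ q.1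
        · rw [indicator_of_mem hyT]
          by_cases hyS : ((y, t) : ℝ × ℝ) ∈ S
          · rw [indicator_of_mem hyS, mul_comm]
            refine mul_le_mul_left (Finset.prod_le_prod' fun j _ => ?_) _
            exact vol_two _ _ _ _
          · rw [indicator_of_notMem hyS]
            have : ∃ j, ¬ |b j + (t - τ) * q.2 j - c t j| ≤ r j + l := by
              by_contra h
              push Not at h
              exact hyS ⟨hyT, hyT.1, h⟩
            obtain ⟨j, hj⟩ := this
            rw [Finset.prod_eq_zero (Finset.mem_univ j), mul_zero]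
            have h7 := vol_ind (c t j) (r j) (b j + (t - τ) * q.2 j) l
            rw [indicator_of_notMem (show b j + (t - τ) * q.2 j ∉
              {p : ℝ | |p - c t j| ≤ r j + l} from hj)] at h7
            exact le_antisymm h7 zero_le
        · rw [indicator_of_notMem hyT, zero_mul]; exact zero_le

end Pool.Agent.K4H46.MC
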