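import Mathlib
import Pool.Agent.K4H46.MC.Hd
import Pool.Agent.K4H46.MC.Sch

set_option autoImplicit false

/-! The two one-dimensional integrals. -/

namespace Pool.Agent.K4H46.MC

open MeasureTheory Set Metric
open scoped ENNReal NNReal

theorem log3 {N : ℝ} (hN : 1 ≤ N) : 1 + Real.log (3 * N) ≤ 3 * (1 + Real.log N) := by
  have h1 : Real.log (3 * N) = Real.log 3 + Real.log N :=
    Real.log_mul (by norm_num) (by linarith)
  have h2 : Real.log 3 ≤ 2 := by
    have := Real.log_le_sub_one_of_pos (show (0 : ℝ) < 3 by norm_num)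
    linarith
  have h3 : 0 ≤ Real.log N := Real.log_nonneg hN
  linarith

theorem shift (f : ℝ → ℝ≥0∞) (t a b : ℝ) :
    ∫⁻ s in Icc (t + a) (t + b), f (s - t) = ∫⁻ s in Icc a b, f s := by
  rw [← lintegral_indicator measurableSet_Icc, ← lintegral_indicator measurableSet_Icc,
    ← lintegral_sub_right_eq_self (fun s => (Icc a b).indicator f s) t]
  refine lintegral_congr fun s => ?_
  by_cases hs : s ∈ Icc (t + a) (t + b)
  · rw [indicator_of_mem hs, indicator_of_mem (show s - t ∈ Icc a b from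
      ⟨by linarith [hs.1], by linarith [hs.2]⟩)]
  · rw [indicator_of_notMem hs, indicator_of_notMem]
    intro h
    exact hs ⟨by linarith [h.1], by linarith [h.2]⟩

theorem kbound {N l : ℝ} (hN : 1 ≤ N) (hl : 0 < l) {u : ℝ} (hu : u ∈ Icc (-3 : ℝ) 3) :
    ∫⁻ u' in Icc (-3 : ℝ) 3, ENNReal.ofReal (min (4 * l * (l * N)) (8 * l ^ 2 / |u' - u|)) ≤
      ENNReal.ofReal (48 * l ^ 2 * (1 + Real.log N)) := by
  have hN0 : 0 < N := by linarith
  have hlN : 0 ≤ Real.log N := Real.log_nonneg hN
  calc ∫⁻ u' in Icc (-3 : ℝ) 3, ENNReal.ofReal (min (4 * l * (l * N)) (8 * l ^ 2 / |u' - u|))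
      ≤ ∫⁻ u' in Icc (u + (-6)) (u + 6),
          ENNReal.ofReal (min (4 * l * (l * N)) (8 * l ^ 2 / |u' - u|)) :=
        lintegral_mono_set fun s hs => ⟨by linarith [hu.2, hs.1], by linarith [hu.1, hs.2]⟩
    _ = ∫⁻ s in Icc (-6) 6, ENNReal.ofReal (min (4 * l * (l * N)) (8 * l ^ 2 / |s|)) :=
        shift (fun s => ENNReal.ofReal (min (4 * l * (l * N)) (8 * l ^ 2 / |s|))) u (-6) 6
    _ ≤ ENNReal.ofReal (2 * (8 * l ^ 2) * (1 + Real.log (4 * l * (l * N) * 6 / (8 * l ^ 2)))) :=
        int_min (by positivity) (by positivity) (by nlinarith [sq_nonneg l])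
    _ ≤ _ := by
        refine ENNReal.ofReal_le_ofReal ?_
        have e1 : 4 * l * (l * N) * 6 / (8 * l ^ 2) = 3 * N := by field_simp; ring
        rw [e1]
        have := log3 hN
        nlinarith [sq_nonneg l]

theorem lbound {N l ρ : ℝ} (hN : 1 ≤ N) (hl : 0 < l) (hρ : l ≤ ρ) {c : ℝ → ℝ} (hc : Measurable c)
    (t : ℝ) : ∫⁻ ζ in Icc (-3 : ℝ) 3, volume (Bs (l * N) ρ c t ζ) ≤
      ENNReal.ofReal (72 * min ρ (l * N) * (1 + Real.log N)) := by
  set D : ℝ := l * N with hD
  have hN0 : 0 < N := by linarith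
  have hlN : 0 ≤ Real.log N := Real.log_nonneg hN
  have hD0 : 0 < D := by positivity
  have hρ0 : 0 < ρ := by linarith
  have h1 : ∫⁻ ζ in Icc (-3 : ℝ) 3, volume (Bs D ρ c t ζ) ≤
      ∫⁻ s in Icc (t + -(2 * D)) (t + 2 * D), ENNReal.ofReal (min 6 (4 * ρ / |s - t|)) := by
    set G : Set (ℝ × ℝ) := {q | q.2 ∈ Bs D ρ c t q.1} with hG
    have hGm : MeasurableSet G := (Bs_meas3 D ρ hc).preimage
      (by fun_prop : Measurable fun q : ℝ × ℝ => ((t, q.1), q.2))
    have hGi : Measurable fun q : ℝ × ℝ => (Icc (-3 : ℝ) 3).indicator (fun _ => (1 : ℝ≥0∞)) q.1 *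
        G.indicator (fun _ => 1) q :=
      ((measurable_const.indicator measurableSet_Icc).comp measurable_fst).mul
        (measurable_const.indicator hGm)
    have e1 : ∫⁻ ζ in Icc (-3 : ℝ) 3, volume (Bs D ρ c t ζ) = ∫⁻ ζ, ∫⁻ s,
        (Icc (-3 : ℝ) 3).indicator (fun _ => (1 : ℝ≥0∞)) ζ * G.indicator (fun _ => 1) (ζ, s) := by
      rw [← lintegral_indicator measurableSet_Icc]
      refine lintegral_congr fun ζ => ?_
      by_cases hζ : ζ ∈ Icc (-3 : ℝ) 3
      · simp_rw [indicator_of_mem hζ, one_mul]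
        have hm : MeasurableSet (Bs D ρ c t ζ) := hGm.preimage (measurable_const.prodMk measurable_id)
        rw [← lintegral_indicator_one hm]
        rfl
      · simp_rw [indicator_of_notMem hζ, zero_mul]
        simp
    rw [e1, lintegral_lintegral_swap hGi.aemeasurable, ← lintegral_indicator measurableSet_Icc]
    refine lintegral_mono_ae ?_
    have hne : ∀ᵐ s : ℝ, s ≠ t := by
      rw [ae_iff]; simp
    filter_upwards [hne] with s hs
    have hst : 0 < |s - t| := abs_pos.2 (sub_ne_zero.2 hs)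
    by_cases hI : s ∈ Icc (t + -(2 * D)) (t + 2 * D)
    · rw [indicator_of_mem hI]
      have e2 : ∫⁻ ζ, (Icc (-3 : ℝ) 3).indicator (fun _ => (1 : ℝ≥0∞)) ζ * G.indicator (fun _ => 1) (ζ, s) ≤
          volume (Icc (-3 : ℝ) 3 ∩ Icc ((c s - c t) / (s - t) - 2 * ρ / |s - t|)
            ((c s - c t) / (s - t) + 2 * ρ / |s - t|)) := by
        rw [← lintegral_indicator_one (measurableSet_Icc.inter measurableSet_Icc)]
        refine lintegral_mono fun ζ => ?_
        by_cases hζ : ζ ∈ Icc (-3 : ℝ) 3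
        · by_cases hG' : (ζ, s) ∈ G
          · have h3 : |c s - c t - ζ * (s - t)| ≤ 2 * ρ := hG'.2
            have h4 : |ζ - (c s - c t) / (s - t)| ≤ 2 * ρ / |s - t| := by
              rw [le_div_iff₀ hst, ← abs_mul, sub_mul, div_mul_cancel₀ _ (sub_ne_zero.2 hs), abs_sub_comm]
              exact h3
            rw [abs_le] at h4
            rw [indicator_of_mem (show ζ ∈ Icc (-3 : ℝ) 3 ∩ Icc ((c s - c t) / (s - t) - 2 * ρ / |s - t|)
              ((c s - c t) / (s - t) + 2 * ρ / |s - t|) from ⟨hζ, by linarith, by linarith⟩),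
              indicator_of_mem hζ, indicator_of_mem hG']
            simp
          · rw [indicator_of_notMem hG', mul_zero]; exact zero_le
        · rw [indicator_of_notMem hζ, zero_mul]; exact zero_le
      refine e2.trans ?_
      rw [ENNReal.ofReal_min]
      refine le_min ?_ ?_
      · refine (measure_mono inter_subset_left).trans (le_of_eq ?_)
        rw [Real.volume_Icc]; norm_num
      · refine (measure_mono inter_subset_right).trans (le_of_eq ?_)
        rw [Real.volume_Icc]; congr 1; ring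
    · rw [indicator_of_notMem hI]
      refine le_of_eq ?_
      have : ∀ ζ : ℝ, (ζ, s) ∉ G := by
        intro ζ h
        have h3 : |s - t| ≤ 2 * D := h.1
        rw [abs_le] at h3
        exact hI ⟨by linarith, by linarith⟩
      rw [lintegral_congr fun ζ => by rw [indicator_of_notMem (this ζ), mul_zero]]
      simp
  refine h1.trans ?_
  rw [shift (fun s => ENNReal.ofReal (min 6 (4 * ρ / |s|))) t (-(2 * D)) (2 * D)]
  rcases le_or_gt ρ D with h | h
  · rw [min_eq_left h]
    refine (int_min (by norm_num) (by positivity) (by linarith)).trans (ENNReal.ofReal_le_ofReal ?_)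
    have h3 : 6 * (2 * D) / (4 * ρ) ≤ 3 * N := by
      rw [div_le_iff₀ (by positivity), hD]
      nlinarith
    have h4 : Real.log (6 * (2 * D) / (4 * ρ)) ≤ Real.log (3 * N) :=
      Real.log_le_log (by positivity) h3
    have := log3 hN
    nlinarith
  · rw [min_eq_right h.le]
    calc ∫⁻ s in Icc (-(2 * D)) (2 * D), ENNReal.ofReal (min 6 (4 * ρ / |s|))
        ≤ ∫⁻ _s in Icc (-(2 * D)) (2 * D), ENNReal.ofReal 6 :=
          lintegral_mono fun s => ENNReal.ofReal_le_ofReal (min_le_left _ _)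
      _ = ENNReal.ofReal (24 * D) := by
          rw [setLIntegral_const, Real.volume_Icc, ← ENNReal.ofReal_mul (by norm_num)]
          congr 1; ring
      _ ≤ _ := ENNReal.ofReal_le_ofReal (by nlinarith)

end Pool.Agent.K4H46.MC
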