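import Mathlib
import Pool.Agent.K4H45.BL.End
import Pool.Agent.K4H46.US.Su2
import Pool.Agent.K4H46.MC.Bx
import Pool.Agent.K4H46.MC.Ln

set_option autoImplicit false

/-! The estimate for moving cylinders of a fixed shape. -/

namespace Pool.Agent.K4H46.MC

open MeasureTheory Set Metric
open scoped ENNReal NNReal
open Pool.Agent.H810R3.Tub (Vec Space nor box dir Fb wv wv_pos)
open Pool.Agent.K4H45.BL (Fb_split vd vd_pos)

/-- the constant -/
noncomputable def Gb (m : ℕ) (σ N l : ℝ) : ℝ :=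
  2 ^ m * 48 * 72 ^ m * l ^ (m + 2) * (1 + Real.log N) ^ (m + 1) / (vd (m + 1) * (σ / N) ^ (m + 1))

theorem shape {m : ℕ} {N σ : ℝ} (hN : 1 ≤ N) (hσ : 0 < σ) (hσ1 : σ ≤ 1) {ι : Type} [Fintype ι]
    {ω : ι → Vec (m + 1)} {f : ι → Fin (m + 1) → Space (m + 1)} (hω : ∀ i, ‖ω i‖ ≤ 1)
    (hsep : ∀ i j, i ≠ j → σ / N ≤ ‖ω i - ω j‖)
    (hf : ∀ i, Orthonormal ℝ (Fin.cons (nor (ω i)) (f i) : Fin (m + 1 + 1) → Space (m + 1)))
    (a : ι → Space (m + 1)) (e : OrthonormalBasis (Fin (m + 1)) ℝ (Vec (m + 1)))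
    (k0 : Fin (m + 1)) {c : ℝ → Fin m → ℝ} (hc : Measurable c) {w : ℝ × ℝ → ℝ≥0∞}
    (hw : Measurable w) (hfin : ∫⁻ z, w z ^ (m + 2) ≠ ∞) {r : Fin m → ℝ} (hr : ∀ k, 0 ≤ r k)
    {l : ℝ} (hl : l = (2 * ((m + 1 : ℕ) : ℝ) + 1) * N) :
    (∫⁻ y, Fb N ω f a y * Wt e k0 c r w y) ^ (m + 2) ≤
      (Fintype.card ι : ℝ≥0∞) ^ (m + 1) * (ENNReal.ofReal (Gb m σ N l) *
        ((∏ k, ENNReal.ofReal (min (2 * r k) (2 * l))) ^ (m + 2) *
          (ENNReal.ofReal (∏ k, min (r k + l) (l * N)) * ∫⁻ z, w z ^ (m + 2)))) := by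
  classical
  have hN0 : 0 < N := by linarith
  have hlN : 0 ≤ Real.log N := Real.log_nonneg hN
  have hl0 : 0 < l := by rw [hl]; positivity
  set D : ℝ := l * N with hD
  have hD0 : 0 < D := by positivity
  have hlD : l ≤ D := by rw [hD]; exact le_mul_of_one_le_right hl0.le hN
  have hdd : (2 * ((m + 1 : ℕ) : ℝ) + 1) * N = l := hl.symm
  have hDD : (2 * ((m + 1 : ℕ) : ℝ) + 1) * N ^ 2 = D := by rw [hD, hl]; ring
  set gm := Wt e k0 c r w with hgm
  have hgmm : Measurable gm := Wt_meas e k0 hc r hw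
  set X : ι → ℝ≥0∞ := fun i => ∫⁻ y in box N (nor (ω i)) (f i) (a i), gm y with hX
  set c0 : ℝ≥0∞ := ∏ k, ENNReal.ofReal (min (2 * r k) (2 * l)) with hc0
  set B : ι → Set (Vec (m + 1)) := fun i => ball (-((2 : ℝ) • ω i)) (σ / N) with hB
  set B' : ι → Set (ℝ × (Fin m → ℝ)) := fun i => mk e k0 ⁻¹' B i with hB'
  have hmk := mk_mp e k0
  have hBm : ∀ i, MeasurableSet (B i) := fun i => measurableSet_ball
  have hBm' : ∀ i, MeasurableSet (B' i) := fun i => hmk.measurable (hBm i)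
  have hσN : 0 < σ / N := by positivity
  have hσN1 : σ / N ≤ 1 / N := by gcongr
  have h1N : 1 / N ≤ 1 := by rw [div_le_one hN0]; exact hN
  set Y : ι → (ℝ × (Fin m → ℝ)) → ℝ≥0∞ := fun i q =>
    ∫⁻ z in Sl l D (fun j => r j + l) c (e.repr (a i).fst k0) (a i).snd
      (fun j => e.repr (a i).fst (k0.succAbove j)) q, w z with hY
  have hXv : ∀ i, ∀ q ∈ B' i, X i ≤ c0 * Y i q := by
    intro i q hq
    have h1 : ‖mk e k0 q + (2 : ℝ) • ω i‖ ≤ 1 / N := by
      have hq' : mk e k0 q ∈ B i := hq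
      rw [hB, mem_ball, dist_eq_norm, sub_neg_eq_add] at hq'
      exact hq'.le.trans hσN1
    exact bx_int hN (hω i) (hf i) (a i) e k0 h1 hc hw r hdd hDD
  have hvolB : ∀ i, volume (B' i) = ENNReal.ofReal (vd (m + 1) * (σ / N) ^ (m + 1)) := by
    intro i
    rw [hB', hmk.measure_preimage (hBm i).nullMeasurableSet, hB,
      Measure.addHaar_ball_of_pos _ _ hσN, finrank_euclideanSpace_fin, mul_comm (vd (m + 1)),
      ENNReal.ofReal_mul (by positivity)]
    congr 1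
    rw [vd, ENNReal.ofReal_toReal measure_ball_lt_top.ne]
  set β : ℝ := vd (m + 1) * (σ / N) ^ (m + 1) with hβ
  have hβ0 : 0 < β := mul_pos (vd_pos _) (by positivity)
  have hXB : ∀ i, X i ^ (m + 2) * ENNReal.ofReal β ≤ c0 ^ (m + 2) *
      ∫⁻ q in B' i, Y i q ^ (m + 2) := by
    intro i
    calc X i ^ (m + 2) * ENNReal.ofReal β = ∫⁻ _q in B' i, X i ^ (m + 2) := by
          rw [setLIntegral_const, hvolB]
      _ ≤ ∫⁻ q in B' i, c0 ^ (m + 2) * Y i q ^ (m + 2) := by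
          refine setLIntegral_mono' (hBm' i) fun q hq => ?_
          rw [← mul_pow]
          exact pow_le_pow_left₀ zero_le (hXv i q hq) _
      _ = _ := lintegral_const_mul' _ _ (ENNReal.pow_ne_top
          (ENNReal.prod_ne_top fun k _ => ENNReal.ofReal_ne_top))
  have hmo := moment (ι := ι) hl0 hD0 (fun j => r j + l) hc (fun i => e.repr (a i).fst k0)
    (fun i => (a i).snd) (fun i j => e.repr (a i).fst (k0.succAbove j)) (B := B') hBm'
    (fun i j hij => by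
      refine Disjoint.preimage _ (ball_disjoint_ball ?_)
      rw [dist_eq_norm]
      have h1 := hsep i j hij
      have h2 : ‖-((2 : ℝ) • ω i) - -((2 : ℝ) • ω j)‖ = 2 * ‖ω i - ω j‖ := by
        have : -((2 : ℝ) • ω i) - -((2 : ℝ) • ω j) = (-(2 : ℝ)) • (ω i - ω j) := by module
        rw [this, norm_smul]
        norm_num
      rw [h2]
      linarith) (fun i q hq => by
      have hq' : mk e k0 q ∈ B i := hq
      rw [hB, mem_ball, dist_eq_norm, sub_neg_eq_add] at hq'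
      have h3 : ‖mk e k0 q‖ ≤ 3 := by
        have h2 : mk e k0 q = (mk e k0 q + (2 : ℝ) • ω i) - (2 : ℝ) • ω i := by abel
        rw [h2]
        refine (norm_sub_le _ _).trans ?_
        rw [norm_smul, Real.norm_eq_abs, abs_of_pos (by norm_num : (0 : ℝ) < 2)]
        linarith [hω i, hσN1.trans h1N]
      refine ⟨?_, fun j => ?_⟩
      · have := Pool.Agent.K4H46.US.coord_le e (mk e k0 q) k0
        rw [mk_k0] at this
        exact this.trans h3
      · have := Pool.Agent.K4H46.US.coord_le e (mk e k0 q) (k0.succAbove j)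
        rw [mk_succ] at this
        exact this.trans h3) hw hfin
    (K := ENNReal.ofReal (48 * l ^ 2 * (1 + Real.log N)))
    (L := fun j => ENNReal.ofReal (72 * min (r j + l) D * (1 + Real.log N)))
    (fun u hu => by rw [hD]; exact kbound hN hl0 hu)
    (fun j t => by
      have h1 : Measurable fun s => c s j := (measurable_pi_apply j).comp hc
      rw [hD]
      exact lbound hN hl0 (by linarith [hr j]) h1 t)
  set ct : ℝ := ∏ k, min (r k + l) D with hct
  have hct0 : 0 ≤ ct := Finset.prod_nonneg fun k _ => le_min (by linarith [hr k]) hD0.le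
  have hGb : 0 ≤ Gb m σ N l := by unfold Gb; rw [← hβ]; positivity
  have e5 : ENNReal.ofReal (2 * l) ^ m * (ENNReal.ofReal (48 * l ^ 2 * (1 + Real.log N)) *
      ((∏ k, ENNReal.ofReal (72 * min (r k + l) D * (1 + Real.log N))) *
        ∫⁻ z, w z ^ (m + 2))) = ENNReal.ofReal β * (ENNReal.ofReal (Gb m σ N l) *
      (ENNReal.ofReal ct * ∫⁻ z, w z ^ (m + 2))) := by
    have hmn : ∀ k, 0 ≤ min (r k + l) D := fun k => le_min (by linarith [hr k]) hD0.le
    have hpr : 0 ≤ ∏ k, 72 * min (r k + l) D * (1 + Real.log N) := Finset.prod_nonneg fun k _ => by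
      have := hmn k
      positivity
    rw [← ENNReal.ofReal_pow (by positivity), ← ENNReal.ofReal_prod_of_nonneg fun k _ => by
      have := hmn k
      positivity]
    set M : ℝ≥0∞ := ∫⁻ z, w z ^ (m + 2) with hM
    rw [← mul_assoc (ENNReal.ofReal (48 * l ^ 2 * (1 + Real.log N))), ← mul_assoc,
      ← mul_assoc (ENNReal.ofReal (Gb m σ N l)), ← mul_assoc (ENNReal.ofReal β)]
    congr 1
    rw [← ENNReal.ofReal_mul (by positivity), ← ENNReal.ofReal_mul (by positivity),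
      ← ENNReal.ofReal_mul hGb, ← ENNReal.ofReal_mul hβ0.le]
    congr 1
    rw [Finset.prod_mul_distrib, Finset.prod_mul_distrib, ← hct]
    simp only [Finset.prod_const, Finset.card_univ, Fintype.card_fin]
    unfold Gb
    rw [← hβ]
    have e6 : ∀ Z : ℝ, β * (Z / β * ct) = Z * ct := by
      intro Z
      field_simp
    rw [e6, mul_pow]
    ring
  have hmo2 : ∑ i, ∫⁻ q in B' i, Y i q ^ (m + 2) ≤ ENNReal.ofReal β * (ENNReal.ofReal (Gb m σ N l) *
      (ENNReal.ofReal ct * ∫⁻ z, w z ^ (m + 2))) := hmo.trans (le_of_eq e5)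
  have hsum : (∑ i, X i ^ (m + 2)) * ENNReal.ofReal β ≤ (c0 ^ (m + 2) * (ENNReal.ofReal (Gb m σ N l) *
      (ENNReal.ofReal ct * ∫⁻ z, w z ^ (m + 2)))) * ENNReal.ofReal β := by
    calc (∑ i, X i ^ (m + 2)) * ENNReal.ofReal β = ∑ i, X i ^ (m + 2) * ENNReal.ofReal β :=
          Finset.sum_mul _ _ _
      _ ≤ ∑ i, c0 ^ (m + 2) * ∫⁻ q in B' i, Y i q ^ (m + 2) :=
          Finset.sum_le_sum fun i _ => hXB i
      _ = c0 ^ (m + 2) * ∑ i, ∫⁻ q in B' i, Y i q ^ (m + 2) := (Finset.mul_sum _ _ _).symm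
      _ ≤ _ := by
          refine (mul_le_mul_right hmo2 _).trans (le_of_eq ?_)
          ring
  have hsum2 : ∑ i, X i ^ (m + 2) ≤ c0 ^ (m + 2) * (ENNReal.ofReal (Gb m σ N l) *
      (ENNReal.ofReal ct * ∫⁻ z, w z ^ (m + 2))) := by
    refine (ENNReal.mul_le_mul_iff_left ?_ ENNReal.ofReal_ne_top).1 hsum
    rw [ne_eq, ENNReal.ofReal_eq_zero, not_le]
    exact hβ0
  have hpm : (∑ i, X i) ^ (m + 2) ≤ (Fintype.card ι : ℝ≥0∞) ^ (m + 1) * ∑ i, X i ^ (m + 2) := by
    have h4 := ENNReal.rpow_sum_le_const_mul_sum_rpow (Finset.univ : Finset ι) X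
      (p := ((m + 2 : ℕ) : ℝ)) (by push_cast; linarith [(Nat.cast_nonneg m : (0 : ℝ) ≤ m)])
    have e4 : (((m + 2 : ℕ) : ℝ) - 1) = ((m + 1 : ℕ) : ℝ) := by push_cast; ring
    rw [e4, Finset.card_univ] at h4
    simp_rw [ENNReal.rpow_natCast] at h4
    exact h4
  have hsplit : ∫⁻ y, Fb N ω f a y * gm y = ∑ i, X i := Fb_split N ω f a hgmm
  rw [hsplit]
  refine hpm.trans ((mul_le_mul_right hsum2 _).trans (le_of_eq ?_))
  ring

end Pool.Agent.K4H46.MC
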