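import Mathlib
import Pool.Agent.K4H46.MO.Dy
import Pool.Agent.K4H46.US.Un
import Pool.Agent.K4H46.MC.Sp

set_option autoImplicit false

/-! Weights which are nonincreasing away from a moving centre in all horizontal directions but one. -/

namespace Pool.Agent.K4H46.MC

open MeasureTheory Set Metric
open scoped ENNReal NNReal
open Pool.Agent.H810R3.Tub (Vec Space nor box dir Fb wv wv_pos)
open Pool.Agent.K4H45.BL (Fb_split vd vd_pos)
open Pool.Agent.K4H46.MO (dsp abs_dsp exists_dsp uIcc_shift)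
open Pool.Agent.K4H46.US (pt pt_meas sp_lint ae_coord hh hh_sum cθ cθ_pos tsum_pi_pow)

variable {m : ℕ}

/-- for each height and each value of the coordinate `k0` the weight is nonincreasing away from the
centre, in all directions of the basis but `k0` -/
def Unim (e : OrthonormalBasis (Fin (m + 1)) ℝ (Vec (m + 1))) (k0 : Fin (m + 1))
    (c : ℝ → Fin m → ℝ) (W : Space (m + 1) → ℝ≥0∞) : Prop :=
  ∀ (t : ℝ) (x y : Vec (m + 1)), e.repr x k0 = e.repr y k0 →
    (∀ j, e.repr x (k0.succAbove j) ∈ uIcc (c t j) (e.repr y (k0.succAbove j))) →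
    W (pt y t) ≤ W (pt x t)

/-- the value at the corner -/
noncomputable def wc (e : OrthonormalBasis (Fin (m + 1)) ℝ (Vec (m + 1))) (k0 : Fin (m + 1))
    (c : ℝ → Fin m → ℝ) (W : Space (m + 1) → ℝ≥0∞) (p : Fin m → Bool × ℤ) (z : ℝ × ℝ) : ℝ≥0∞ :=
  W (pt (mk e k0 (z.1, fun j => c z.2 j + dsp (p j))) z.2)

theorem cover {e : OrthonormalBasis (Fin (m + 1)) ℝ (Vec (m + 1))} {k0 : Fin (m + 1)}
    {c : ℝ → Fin m → ℝ} {W : Space (m + 1) → ℝ≥0∞} (hW : Unim e k0 c W) (t : ℝ)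
    {x : Vec (m + 1)} (h : ∀ j, e.repr x (k0.succAbove j) ≠ c t j) :
    ∃ p : Fin m → Bool × ℤ, W (pt x t) ≤ wc e k0 c W p (e.repr x k0, t) ∧
      pt x t ∈ Cy e k0 c fun k => (2 : ℝ) ^ ((p k).2 + 1) := by
  choose p hp1 hp2 using fun j => exists_dsp (sub_ne_zero.2 (h j))
  refine ⟨p, ?_, fun j => (hp2 j).le⟩
  refine hW t _ _ (by rw [mk_k0]) fun j => ?_
  rw [mk_succ]
  have := uIcc_shift (a := c t j) (hp1 j)
  simpa using this

theorem wc_norm {e : OrthonormalBasis (Fin (m + 1)) ℝ (Vec (m + 1))} {k0 : Fin (m + 1)}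
    {c : ℝ → Fin m → ℝ} {W : Space (m + 1) → ℝ≥0∞} (hW : Unim e k0 c W) (n : ℕ)
    (p : Fin m → Bool × ℤ) (z : ℝ × ℝ) :
    wc e k0 c W p z ^ n ≤ ENNReal.ofReal (∏ k, (2 : ℝ) ^ (-(p k).2)) *
      ∫⁻ x : Fin m → ℝ, W (pt (mk e k0 (z.1, x)) z.2) ^ n := by
  set B : Set (Fin m → ℝ) := Set.univ.pi fun k => uIcc (c z.2 k) (c z.2 k + dsp (p k)) with hB
  have hvol : volume B = ENNReal.ofReal (∏ k, (2 : ℝ) ^ (p k).2) := by
    rw [hB, volume_pi_pi, ENNReal.ofReal_prod_of_nonneg fun k _ => by positivity]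
    refine Finset.prod_congr rfl fun k _ => ?_
    rw [Real.volume_interval, add_sub_cancel_left, abs_dsp]
  have hBm : MeasurableSet B := MeasurableSet.univ_pi fun k => measurableSet_uIcc
  have h1 : wc e k0 c W p z ^ n * volume B ≤ ∫⁻ x : Fin m → ℝ, W (pt (mk e k0 (z.1, x)) z.2) ^ n := by
    calc wc e k0 c W p z ^ n * volume B = ∫⁻ _x in B, wc e k0 c W p z ^ n := by
          rw [setLIntegral_const]
      _ ≤ ∫⁻ x in B, W (pt (mk e k0 (z.1, x)) z.2) ^ n := by
          refine setLIntegral_mono' hBm fun x hx => pow_le_pow_left₀ zero_le ?_ n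
          refine hW z.2 _ _ (by rw [mk_k0, mk_k0]) fun j => ?_
          rw [mk_succ, mk_succ]
          exact hx j (mem_univ j)
      _ ≤ _ := setLIntegral_le_lintegral _ _
  have hpos : (0 : ℝ) < ∏ k, (2 : ℝ) ^ (p k).2 := Finset.prod_pos fun k _ => by positivity
  calc wc e k0 c W p z ^ n = ENNReal.ofReal (∏ k, (2 : ℝ) ^ (-(p k).2)) *
        (wc e k0 c W p z ^ n * volume B) := by
        rw [hvol, mul_comm (wc e k0 c W p z ^ n), ← mul_assoc,
          ← ENNReal.ofReal_mul (Finset.prod_nonneg fun k _ => by positivity)]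
        have : (∏ k, (2 : ℝ) ^ (-(p k).2)) * ∏ k, (2 : ℝ) ^ (p k).2 = 1 := by
          rw [← Finset.prod_mul_distrib]
          refine Finset.prod_eq_one fun k _ => ?_
          rw [zpow_neg]
          exact inv_mul_cancel₀ (by positivity)
        rw [this, ENNReal.ofReal_one, one_mul]
    _ ≤ _ := mul_le_mul_right h1 _

theorem wc_meas (e : OrthonormalBasis (Fin (m + 1)) ℝ (Vec (m + 1))) (k0 : Fin (m + 1))
    {c : ℝ → Fin m → ℝ} (hc : Measurable c) {W : Space (m + 1) → ℝ≥0∞} (hW : Measurable W)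
    (p : Fin m → Bool × ℤ) : Measurable (wc e k0 c W p) := by
  have h1 : Measurable fun z : ℝ × ℝ => fun j => c z.2 j + dsp (p j) := by
    refine measurable_pi_lambda _ fun j => ?_
    exact ((measurable_pi_apply j).comp (hc.comp measurable_snd)).add_const _
  exact hW.comp (pt_meas.comp (((mk_mp e k0).measurable.comp (measurable_fst.prodMk h1)).prodMk
    measurable_snd))

theorem slice_lint (e : OrthonormalBasis (Fin (m + 1)) ℝ (Vec (m + 1))) (k0 : Fin (m + 1))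
    {h : Space (m + 1) → ℝ≥0∞} (hm : Measurable h) :
    ∫⁻ y, h y = ∫⁻ z : ℝ × ℝ, ∫⁻ x : Fin m → ℝ, h (pt (mk e k0 (z.1, x)) z.2) := by
  have hmk := mk_mp e k0
  have h1 : Measurable fun q : (ℝ × ℝ) × (Fin m → ℝ) => h (pt (mk e k0 (q.1.1, q.2)) q.1.2) :=
    hm.comp (pt_meas.comp ((hmk.measurable.comp
      (by fun_prop : Measurable fun q : (ℝ × ℝ) × (Fin m → ℝ) => (q.1.1, q.2))).prodMk
      (measurable_snd.comp measurable_fst)))
  have h2 : Measurable fun z : ℝ × ℝ => ∫⁻ x : Fin m → ℝ, h (pt (mk e k0 (z.1, x)) z.2) :=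
    h1.lintegral_prod_right' (ν := (volume : Measure (Fin m → ℝ)))
  rw [sp_lint hm, Measure.volume_eq_prod ℝ ℝ, lintegral_prod_symm' _ h2]
  refine lintegral_congr fun t => ?_
  have h3 : Measurable fun x : Vec (m + 1) => h (pt x t) :=
    hm.comp (pt_meas.comp (measurable_id.prodMk measurable_const))
  rw [← hmk.lintegral_comp h3, Measure.volume_eq_prod]
  exact lintegral_prod _ (h3.comp hmk.measurable).aemeasurable

/-- the constant -/
noncomputable def kw (m : ℕ) (σ N : ℝ) : ℝ :=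
  Gb m σ N ((2 * ((m + 1 : ℕ) : ℝ) + 1) * N) *
    (2 * (cθ (1 / ((m + 2 : ℕ) : ℝ)) * ((2 * ((m + 1 : ℕ) : ℝ) + 1) * N) *
    (1 + Real.log N))) ^ (m * (m + 2))

/-- **The critical inequality.** -/
theorem crit {m : ℕ} {N σ : ℝ} (hN : 1 ≤ N) (hσ : 0 < σ) (hσ1 : σ ≤ 1) {ι : Type} [Fintype ι]
    {ω : ι → Vec (m + 1)} {f : ι → Fin (m + 1) → Space (m + 1)} (hω : ∀ i, ‖ω i‖ ≤ 1)
    (hsep : ∀ i j, i ≠ j → σ / N ≤ ‖ω i - ω j‖)
    (hf : ∀ i, Orthonormal ℝ (Fin.cons (nor (ω i)) (f i) : Fin (m + 1 + 1) → Space (m + 1)))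
    (a : ι → Space (m + 1)) {e : OrthonormalBasis (Fin (m + 1)) ℝ (Vec (m + 1))}
    {k0 : Fin (m + 1)} {c : ℝ → Fin m → ℝ} (hc : Measurable c) {W : Space (m + 1) → ℝ≥0∞}
    (hW : Measurable W) (hWu : Unim e k0 c W) :
    (∫⁻ y, Fb N ω f a y * W y) ^ (m + 2) ≤
      (Fintype.card ι : ℝ≥0∞) ^ (m + 1) * (ENNReal.ofReal (kw m σ N) * ∫⁻ y, W y ^ (m + 2)) := by
  classical
  have hN0 : 0 < N := by linarith
  have hlN : 0 ≤ Real.log N := Real.log_nonneg hN
  set l : ℝ := (2 * ((m + 1 : ℕ) : ℝ) + 1) * N with hl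
  have hl0 : 0 < l := by rw [hl]; positivity
  set D : ℝ := l * N with hD
  have hD0 : 0 < D := by positivity
  have hlD : l ≤ D := by rw [hD]; exact le_mul_of_one_le_right hl0.le hN
  set n : ℝ := ((m + 2 : ℕ) : ℝ) with hn
  have hn0 : 0 < n := by rw [hn]; exact_mod_cast (by omega : 0 < m + 2)
  have hn2 : 2 ≤ n := by rw [hn]; exact_mod_cast (by omega : 2 ≤ m + 2)
  set θ : ℝ := 1 / n with hθ
  have hθ0 : 0 < θ := by positivity
  have hθ2 : θ ≤ 1 / 2 := one_div_le_one_div_of_le (by norm_num) hn2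
  have hGb : 0 < Gb m σ N l := by
    unfold Gb
    have := vd_pos (m + 1)
    positivity
  have hkw : 0 < kw m σ N := by
    unfold kw
    rw [← hl]
    have := cθ_pos hθ0
    rw [hθ, hn] at this
    positivity
  set M : ℝ≥0∞ := ∫⁻ y, W y ^ (m + 2) with hM
  rcases isEmpty_or_nonempty ι with hι | hι
  · have : ∀ y, Fb N ω f a y = 0 := fun y => by unfold Fb; exact Finset.sum_of_isEmpty _
    simp [this]
  have hcard : (Fintype.card ι : ℝ≥0∞) ≠ 0 := by
    have := Fintype.card_pos (α := ι)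
    exact_mod_cast this.ne'
  by_cases hMt : M = ∞
  · rw [hMt, ENNReal.mul_top (by rw [ne_eq, ENNReal.ofReal_eq_zero, not_le]; exact hkw),
      ENNReal.mul_top (pow_ne_zero _ hcard)]
    exact le_top
  -- the pieces
  have hMs : M = ∫⁻ z : ℝ × ℝ, ∫⁻ x : Fin m → ℝ, W (pt (mk e k0 (z.1, x)) z.2) ^ (m + 2) :=
    slice_lint e k0 (hW.pow_const _)
  have hwn : ∀ p : Fin m → Bool × ℤ, ∫⁻ z, wc e k0 c W p z ^ (m + 2) ≤
      ENNReal.ofReal (∏ k, (2 : ℝ) ^ (-(p k).2)) * M := by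
    intro p
    refine (lintegral_mono fun z => wc_norm hWu (m + 2) p z).trans (le_of_eq ?_)
    rw [lintegral_const_mul' _ _ ENNReal.ofReal_ne_top, hMs]
  set P : (Fin m → Bool × ℤ) → Space (m + 1) → ℝ≥0∞ := fun p =>
    Wt e k0 c (fun k => (2 : ℝ) ^ ((p k).2 + 1)) (wc e k0 c W p) with hP
  have hPm : ∀ p, Measurable (P p) := fun p => Wt_meas e k0 hc _ (wc_meas e k0 hc hW p)
  have hFm : Measurable (Fb N ω f a) := Pool.Agent.H810R3.Tub.Fb_measurable N ω f a
  have h1 : ∫⁻ y, Fb N ω f a y * W y ≤ ∑' p, ∫⁻ y, Fb N ω f a y * P p y := by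
    have hFP : ∀ p, Measurable fun y => Fb N ω f a y * P p y := fun p => hFm.mul (hPm p)
    have hFW : Measurable fun y => Fb N ω f a y * W y := hFm.mul hW
    have hFS : Measurable fun y => ∑' p, Fb N ω f a y * P p y := Measurable.tsum hFP
    rw [← lintegral_tsum fun p => (hFP p).aemeasurable, sp_lint hFW, sp_lint hFS]
    refine lintegral_mono fun t => lintegral_mono_ae ?_
    filter_upwards [ae_coord e (mk e k0 (0, c t))] with x hx
    obtain ⟨p, hp1, hp2⟩ := cover hWu t (x := x) fun j => by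
      have := hx (k0.succAbove j)
      rwa [mk_succ] at this
    refine le_trans ?_ (ENNReal.le_tsum p)
    refine mul_le_mul_right ?_ _
    have e1 : P p (pt x t) = wc e k0 c W p (e.repr x k0, t) := by
      simp only [hP, Wt]
      rw [indicator_of_mem hp2, mul_one]
      rfl
    rw [e1]
    exact hp1
  set Z : ℝ≥0∞ := (Fintype.card ι : ℝ≥0∞) ^ (m + 1) * (ENNReal.ofReal (Gb m σ N l) * M) with hZ
  have h2 : ∀ p, ∫⁻ y, Fb N ω f a y * P p y ≤ Z ^ θ * ∏ k, ENNReal.ofReal (hh θ l D (p k).2) := by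
    intro p
    have h3 := shape hN hσ hσ1 hω hsep hf a e k0 hc (wc_meas e k0 hc hW p)
      (ne_top_of_le_ne_top (ENNReal.mul_ne_top ENNReal.ofReal_ne_top hMt) (hwn p))
      (r := fun k => (2 : ℝ) ^ ((p k).2 + 1)) (fun k => by positivity) hl
    rw [← hD] at h3
    have h4 : (∫⁻ y, Fb N ω f a y * P p y) ^ (m + 2) ≤
        Z * (∏ k, ENNReal.ofReal (hh θ l D (p k).2)) ^ (m + 2) := by
      refine h3.trans ?_
      set c0 : ℝ≥0∞ := ∏ k, ENNReal.ofReal (min (2 * (2 : ℝ) ^ ((p k).2 + 1)) (2 * l)) with hc0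
      set ct : ℝ := ∏ k, min ((2 : ℝ) ^ ((p k).2 + 1) + l) D with hct
      have hct0 : 0 ≤ ct := Finset.prod_nonneg fun k _ => le_min (by positivity) hD0.le
      have e4 : (∏ k, ENNReal.ofReal (hh θ l D (p k).2)) ^ (m + 2) = c0 ^ (m + 2) *
          (ENNReal.ofReal ct * ENNReal.ofReal (∏ k, (2 : ℝ) ^ (-(p k).2))) := by
        have e5 : ∀ k, ENNReal.ofReal (hh θ l D (p k).2) ^ (m + 2) =
            ENNReal.ofReal (min (2 * (2 : ℝ) ^ ((p k).2 + 1)) (2 * l)) ^ (m + 2) *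
            (ENNReal.ofReal (min ((2 : ℝ) ^ ((p k).2 + 1) + l) D) *
              ENNReal.ofReal ((2 : ℝ) ^ (-(p k).2))) := by
          intro k
          have q1 : (0 : ℝ) ≤ min (2 * (2 : ℝ) ^ ((p k).2 + 1)) (2 * l) :=
            le_min (by positivity) (by positivity)
          have q2 : (0 : ℝ) ≤ min ((2 : ℝ) ^ ((p k).2 + 1) + l) D := le_min (by positivity) hD0.le
          have q3 : (0 : ℝ) ≤ (2 : ℝ) ^ (-(p k).2) := by positivity
          have q4 : ∀ x : ℝ, 0 ≤ x → (x ^ θ) ^ (m + 2) = x := by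
            intro x hx
            rw [← Real.rpow_natCast, ← Real.rpow_mul hx, ← hn, hθ, one_div_mul_cancel hn0.ne',
              Real.rpow_one]
          unfold hh
          rw [← ENNReal.ofReal_pow (by positivity), mul_pow, mul_pow, q4 _ q2, q4 _ q3,
            ENNReal.ofReal_mul (by positivity), ENNReal.ofReal_mul (by positivity),
            ENNReal.ofReal_pow q1, mul_assoc]
        rw [← Finset.prod_pow, Finset.prod_congr rfl fun k _ => e5 k, Finset.prod_mul_distrib,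
          Finset.prod_mul_distrib, Finset.prod_pow]
        congr 2
        · rw [hct, ENNReal.ofReal_prod_of_nonneg fun k _ => le_min (by positivity) hD0.le]
        · rw [ENNReal.ofReal_prod_of_nonneg fun k _ => by positivity]
      calc (Fintype.card ι : ℝ≥0∞) ^ (m + 1) * (ENNReal.ofReal (Gb m σ N l) *
            (c0 ^ (m + 2) * (ENNReal.ofReal ct * ∫⁻ z, wc e k0 c W p z ^ (m + 2))))
          ≤ (Fintype.card ι : ℝ≥0∞) ^ (m + 1) * (ENNReal.ofReal (Gb m σ N l) *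
            (c0 ^ (m + 2) * (ENNReal.ofReal ct *
              (ENNReal.ofReal (∏ k, (2 : ℝ) ^ (-(p k).2)) * M)))) := by
            gcongr
            exact hwn p
        _ = _ := by rw [e4, hZ]; ring
    have h5 := ENNReal.rpow_le_rpow h4 hθ0.le
    rw [ENNReal.mul_rpow_of_nonneg _ _ hθ0.le, ← ENNReal.rpow_natCast, ← ENNReal.rpow_natCast,
      ← ENNReal.rpow_mul, ← ENNReal.rpow_mul, ← hn, hθ, mul_one_div_cancel hn0.ne',
      ENNReal.rpow_one, ENNReal.rpow_one, ← hθ] at h5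
    exact h5
  have h3 : ∑' p : Fin m → Bool × ℤ, ∏ k, ENNReal.ofReal (hh θ l D (p k).2) ≤
      ENNReal.ofReal (2 * (cθ θ * l * (1 + Real.log N))) ^ m := by
    rw [tsum_pi_pow fun q : Bool × ℤ => ENNReal.ofReal (hh θ l D q.2)]
    refine pow_le_pow_left₀ zero_le ?_ _
    rw [ENNReal.tsum_prod' (f := fun q : Bool × ℤ => ENNReal.ofReal (hh θ l D q.2))]
    simp only [tsum_bool]
    have h4 := hh_sum hθ0 hθ2 hl0 hlD
    have e1 : D / l = N := by rw [hD]; field_simp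
    rw [e1] at h4
    refine (add_le_add h4 h4).trans (le_of_eq ?_)
    have := cθ_pos hθ0
    rw [← ENNReal.ofReal_add (by positivity) (by positivity)]
    congr 1
    ring
  have h4 : ∫⁻ y, Fb N ω f a y * W y ≤ Z ^ θ *
      ENNReal.ofReal (2 * (cθ θ * l * (1 + Real.log N))) ^ m := by
    refine h1.trans ((ENNReal.tsum_le_tsum h2).trans ?_)
    rw [ENNReal.tsum_mul_left]
    exact mul_le_mul_right h3 _
  refine (pow_le_pow_left₀ zero_le h4 (m + 2)).trans (le_of_eq ?_)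
  have e6 : (Z ^ θ) ^ (m + 2) = Z := by
    rw [← ENNReal.rpow_natCast, ← ENNReal.rpow_mul, ← hn, hθ, one_div_mul_cancel hn0.ne',
      ENNReal.rpow_one]
  have e7 : ENNReal.ofReal (kw m σ N) = ENNReal.ofReal (Gb m σ N l) *
      ENNReal.ofReal (2 * (cθ θ * l * (1 + Real.log N))) ^ (m * (m + 2)) := by
    have := cθ_pos hθ0
    rw [← ENNReal.ofReal_pow (by positivity), ← ENNReal.ofReal_mul hGb.le]
    rfl
  rw [mul_pow, e6, e7, ← pow_mul, hZ]
  ring

end Pool.Agent.K4H46.MC
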