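import Mathlib
import Pool.Agent.K4H45.BL.End
import Pool.Agent.K4H46.US.Un
import Pool.Agent.K4H46.MC.Un

set_option autoImplicit false

/-! All exponents. -/

namespace Pool.Agent.K4H46.MC

open MeasureTheory Set Metric
open scoped ENNReal NNReal
open Pool.Agent.H810R3.Tub (Vec Space nor box dir Fb wv wv_pos)
open Pool.Agent.K4H45.BL (Fb_split vd vd_pos T0 lowA lowB rpow_conj realA realB condA condB)
open Pool.Agent.K4H46.US (pt cθ cθ_pos)

/-- the constant -/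
noncomputable def c5 (d : ℕ) : ℝ :=
  1 + 2 ^ (d - 1) * 48 * 72 ^ (d - 1) * (2 * (d : ℝ) + 1) ^ (d + 1) *
    (2 * (cθ (1 / ((d + 1 : ℕ) : ℝ)) * (2 * (d : ℝ) + 1))) ^ ((d - 1) * (d + 1))

theorem c5_ge (d : ℕ) : 1 ≤ c5 d := by
  unfold c5
  have h1 : (0 : ℝ) < 1 / ((d + 1 : ℕ) : ℝ) := by positivity
  have := cθ_pos h1
  have h2 : 0 ≤ 2 ^ (d - 1) * 48 * 72 ^ (d - 1) * (2 * (d : ℝ) + 1) ^ (d + 1) *
    (2 * (cθ (1 / ((d + 1 : ℕ) : ℝ)) * (2 * (d : ℝ) + 1))) ^ ((d - 1) * (d + 1)) := by positivity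
  linarith

/-- the constant of the critical inequality -/
noncomputable def kk (d : ℕ) (σ N : ℝ) : ℝ :=
  1 * (c5 d * N ^ d * (1 + Real.log N) ^ d) ^ (d + 1) / (vd d * (σ / N) ^ d)

theorem kk_pos {d : ℕ} {σ N : ℝ} (hN : 1 ≤ N) (hσ : 0 < σ) : 0 < kk d σ N := by
  have h1 := c5_ge d
  have h2 := vd_pos d
  have h3 : 0 ≤ Real.log N := Real.log_nonneg hN
  have h4 : 0 < N := by linarith
  have h5 : 0 < c5 d := by linarith
  unfold kk
  positivity

theorem kw_le {m : ℕ} {σ N : ℝ} (hN : 1 ≤ N) (hσ : 0 < σ) : kw m σ N ≤ kk (m + 1) σ N := by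
  have hN0 : 0 < N := by linarith
  have hlN : 0 ≤ Real.log N := Real.log_nonneg hN
  set l : ℝ := 1 + Real.log N with hl
  have hl1 : 1 ≤ l := by linarith
  have hl0 : 0 < l := by linarith
  have hv := vd_pos (m + 1)
  have hθ : (0 : ℝ) < 1 / ((m + 1 + 1 : ℕ) : ℝ) := by positivity
  have hcθ := cθ_pos hθ
  set c' : ℝ := 2 * (cθ (1 / ((m + 1 + 1 : ℕ) : ℝ)) * (2 * ((m + 1 : ℕ) : ℝ) + 1)) with hc'
  have hc'0 : 0 < c' := by positivity
  set G : ℝ := 2 ^ m * 48 * 72 ^ m * (2 * ((m + 1 : ℕ) : ℝ) + 1) ^ (m + 1 + 1) *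
    c' ^ (m * (m + 1 + 1)) with hG
  have hG0 : 0 < G := by positivity
  have e1 : kw m σ N = (G * N ^ ((m + 1) * (m + 2)) * l ^ (m + 1 + m * (m + 2))) /
      (vd (m + 1) * (σ / N) ^ (m + 1)) := by
    unfold kw Gb
    have e2 : 2 * (cθ (1 / ((m + 2 : ℕ) : ℝ)) * ((2 * ((m + 1 : ℕ) : ℝ) + 1) * N) * l) =
        c' * N * l := by rw [hc']; ring
    rw [← hl, e2, mul_pow, mul_pow, mul_pow _ N, hG]
    ring
  have e3 : c5 (m + 1) = 1 + G := rfl
  rw [e1]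
  unfold kk
  rw [e3, one_mul, ← hl]
  refine div_le_div_of_nonneg_right ?_ (by positivity)
  have h1 : G ≤ (1 + G) ^ (m + 1 + 1) := by
    calc G ≤ 1 + G := by linarith
      _ = (1 + G) ^ 1 := (pow_one _).symm
      _ ≤ _ := pow_le_pow_right₀ (by linarith) (by omega)
  have h2 : l ^ (m + 1 + m * (m + 2)) ≤ (l ^ (m + 1)) ^ (m + 1 + 1) := by
    rw [← pow_mul]
    refine pow_le_pow_right₀ hl1 ?_
    nlinarith
  calc G * N ^ ((m + 1) * (m + 2)) * l ^ (m + 1 + m * (m + 2))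
      ≤ (1 + G) ^ (m + 1 + 1) * N ^ ((m + 1) * (m + 2)) * (l ^ (m + 1)) ^ (m + 1 + 1) := by
        gcongr
    _ = _ := by
        rw [mul_pow, mul_pow, ← pow_mul N]

/-- the critical inequality with real exponents -/
theorem critU {m : ℕ} {N σ : ℝ} (hN : 1 ≤ N) (hσ : 0 < σ) (hσ1 : σ ≤ 1) {ι : Type} [Fintype ι]
    {ω : ι → Vec (m + 1)} {f : ι → Fin (m + 1) → Space (m + 1)} (hω : ∀ i, ‖ω i‖ ≤ 1)
    (hsep : ∀ i j, i ≠ j → σ / N ≤ ‖ω i - ω j‖)
    (hf : ∀ i, Orthonormal ℝ (Fin.cons (nor (ω i)) (f i) : Fin (m + 1 + 1) → Space (m + 1)))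
    (a : ι → Space (m + 1)) {e : OrthonormalBasis (Fin (m + 1)) ℝ (Vec (m + 1))}
    {k0 : Fin (m + 1)} {c : ℝ → Fin m → ℝ} (hc : Measurable c) {W : Space (m + 1) → ℝ≥0∞}
    (hW : Measurable W) (hWu : Unim e k0 c W) :
    (∫⁻ y, Fb N ω f a y * W y) ^ (((m + 1 : ℕ) : ℝ) + 1) ≤
      (Fintype.card ι : ℝ≥0∞) ^ ((m + 1 : ℕ) : ℝ) * (ENNReal.ofReal (kk (m + 1) σ N) *
        ∫⁻ y, W y ^ (((m + 1 : ℕ) : ℝ) + 1)) := by
  have h := crit hN hσ hσ1 hω hsep hf a hc hW hWu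
  have e1 : (((m + 1 : ℕ) : ℝ) + 1) = ((m + 2 : ℕ) : ℝ) := by push_cast; ring
  rw [e1]
  simp_rw [ENNReal.rpow_natCast]
  refine h.trans (mul_le_mul_right (mul_le_mul_left (ENNReal.ofReal_le_ofReal (kw_le hN hσ)) _) _)

theorem Unim.rpow {m : ℕ} {e : OrthonormalBasis (Fin (m + 1)) ℝ (Vec (m + 1))} {k0 : Fin (m + 1)}
    {c : ℝ → Fin m → ℝ} {W : Space (m + 1) → ℝ≥0∞} (h : Unim e k0 c W) {s : ℝ} (hs : 0 ≤ s) :
    Unim e k0 c fun y => W y ^ s :=
  fun t x y h0 hxy => ENNReal.rpow_le_rpow (h t x y h0 hxy) hs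

variable {d : ℕ}

/-- the constant of the theorem for test functions -/
noncomputable def c6 (d : ℕ) (σ κ : ℝ) : ℝ :=
  1 + c5 d ^ (d + 1) / (vd d * σ ^ d) * ((1 + (d : ℝ)) ^ (d + 1) * wv d) / κ +
    c5 d ^ (d + 1) / (vd d * σ ^ d) * (2 ^ (d + 1) / wv d) ^ d / κ

theorem c6_props (d : ℕ) {σ κ : ℝ} (hσ : 0 < σ) (hκ : 0 < κ) : 1 ≤ c6 d σ κ ∧
    c5 d ^ (d + 1) / (vd d * σ ^ d) * ((1 + (d : ℝ)) ^ (d + 1) * wv d) / κ ≤ c6 d σ κ ∧
    c5 d ^ (d + 1) / (vd d * σ ^ d) * (2 ^ (d + 1) / wv d) ^ d / κ ≤ c6 d σ κ := by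
  have h1 : 0 < c5 d := by linarith [c5_ge d]
  have h2 := vd_pos d
  have h3 := wv_pos d
  have h4 : 0 ≤ c5 d ^ (d + 1) / (vd d * σ ^ d) * ((1 + (d : ℝ)) ^ (d + 1) * wv d) / κ := by positivity
  have h5 : 0 ≤ c5 d ^ (d + 1) / (vd d * σ ^ d) * (2 ^ (d + 1) / wv d) ^ d / κ := by positivity
  unfold c6
  refine ⟨by linarith, by linarith, by linarith⟩

/-- all exponents, from the critical inequality -/
theorem all_of (hd : 1 ≤ d) {N σ κ : ℝ} (hN : 1 ≤ N) (hσ : 0 < σ) (hσ1 : σ ≤ 1)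
    (hκ : 0 < κ) {ι : Type} [Fintype ι] {ω : ι → Vec d} {f : ι → Fin d → Space d} (hω : ∀ i, ‖ω i‖ ≤ 1)
    (hsep : ∀ i j, i ≠ j → σ / N ≤ ‖ω i - ω j‖) (hcard : κ * N ^ d ≤ (Fintype.card ι : ℝ))
    (hf : ∀ i, Orthonormal ℝ (Fin.cons (nor (ω i)) (f i) : Fin (d + 1) → Space d)) (a : ι → Space d)
    {W : Space d → ℝ≥0∞} (hW : Measurable W) {p : ℝ≥0∞} {r : ℝ} (hr : 1 ≤ r)
    (hpr : p⁻¹ + (ENNReal.ofReal r)⁻¹ = 1)
    (h3 : (∫⁻ y, Fb N ω f a y * W y ^ (r / ((d : ℝ) + 1))) ^ ((d : ℝ) + 1) ≤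
      (Fintype.card ι : ℝ≥0∞) ^ (d : ℝ) * (ENNReal.ofReal (kk d σ N) *
        ∫⁻ y, (W y ^ (r / ((d : ℝ) + 1))) ^ ((d : ℝ) + 1))) :
    ∫⁻ y, Fb N ω f a y * W y ≤
      ENNReal.ofReal (c6 d σ κ * (1 + Real.log N) ^ d) * T0 N ω f p *
        (∫⁻ y, W y ^ r) ^ (1 / r) := by
  obtain ⟨hp1, hpr'⟩ := rpow_conj hr hpr
  have hr0 : 0 < r := by linarith
  have hN0 : 0 < N := by linarith
  have hd0 : (0:ℝ) < d := by exact_mod_cast hd
  have hn0 : (0:ℝ) < (d:ℝ) + 1 := by linarith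
  have hlN : 0 ≤ Real.log N := Real.log_nonneg hN
  set l : ℝ := (1 + Real.log N) ^ d with hld
  have hl : 1 ≤ l := one_le_pow₀ (by linarith)
  obtain ⟨hC1, hCA, hCB⟩ := c6_props d hσ hκ
  have h1 : 0 < c5 d := by linarith [c5_ge d]
  have h2 := vd_pos d
  have hw0 := wv_pos d
  set C : ℝ := c6 d σ κ with hC
  set q : ℝ := (Fintype.card ι : ℝ) with hq
  have hq0 : 0 < q := lt_of_lt_of_le (by positivity) hcard
  have hL0 : (0 : ℝ) < 1 := one_pos
  -- the main quantities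
  set P : ℝ≥0∞ := ∫⁻ y, W y ^ r with hP
  have hkc : 0 < kk d σ N := kk_pos hN hσ
  set A : ℝ := q ^ d * kk d σ N with hA
  have hA0 : 0 < A := by positivity
  have hAe : (Fintype.card ι : ℝ≥0∞) ^ (d : ℝ) * ENNReal.ofReal (kk d σ N) = ENNReal.ofReal A := by
    rw [hA, ENNReal.ofReal_mul (by positivity), ENNReal.ofReal_pow hq0.le, hq, ENNReal.ofReal_natCast,
      ENNReal.rpow_natCast]
  set Uy : Space d → ℝ≥0∞ := fun y => W y ^ (r / ((d:ℝ) + 1)) with hUy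
  have hUym : Measurable Uy := hW.pow_const _
  -- the critical inequality
  have hcrit : ∫⁻ y, Fb N ω f a y * Uy y ≤ (ENNReal.ofReal A * P) ^ (1 / ((d:ℝ) + 1)) := by
    have e1 : ∫⁻ y, Uy y ^ ((d : ℝ) + 1) = P := by
      refine lintegral_congr fun y => ?_
      simp only [hUy]
      rw [← ENNReal.rpow_mul]
      congr 1
      field_simp
    rw [e1, ← mul_assoc, hAe] at h3
    have h4 := ENNReal.rpow_le_rpow h3 (z := 1 / ((d:ℝ) + 1)) (by positivity)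
    rw [← ENNReal.rpow_mul, mul_one_div_cancel hn0.ne', ENNReal.rpow_one] at h4
    exact h4
  -- the measure
  set μ : Measure (Space d) := volume.withDensity (Fb N ω f a) with hμ
  have hFm := Pool.Agent.H810R3.Tub.Fb_measurable N ω f a
  have hμi : ∀ {g : Space d → ℝ≥0∞}, Measurable g → ∫⁻ y, g y ∂μ = ∫⁻ y, Fb N ω f a y * g y := by
    intro g hg
    rw [hμ, lintegral_withDensity_eq_lintegral_mul _ hFm hg]
    rfl
  rw [← hμi hW]
  rcases le_total ((d:ℝ) + 1) r with hnr | hnr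
  · -- large conjugate exponents
    set V : ℝ := q * N ^ (d + 2) with hV
    have hV0 : 0 < V := by positivity
    set B : ℝ := (1 + (d : ℝ)) ^ (d + 1) * wv d * N ^ (2 * (d + 1)) with hB
    have hB0 : 0 < B := by positivity
    have hVa : ∫⁻ y, (1:ℝ≥0∞) ∂μ = ENNReal.ofReal V := by
      rw [hμi measurable_const]
      simp_rw [mul_one]
      exact Pool.Agent.H810R3.Tub.Fb_int hN hf a
    have hs : 0 ≤ 1 - ((d:ℝ) + 1) / r := by
      rw [sub_nonneg, div_le_one hr0]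
      exact hnr
    have h3 : ∫⁻ y, W y ∂μ ≤ (∫⁻ y, Uy y ∂μ) ^ (((d:ℝ) + 1) / r) *
        (∫⁻ y, (1:ℝ≥0∞) ∂μ) ^ (1 - ((d:ℝ) + 1) / r) := by
      have h4 := ENNReal.lintegral_mul_norm_pow_le (μ := μ) hUym.aemeasurable
        (measurable_const (a := (1:ℝ≥0∞))).aemeasurable (p := ((d:ℝ) + 1) / r)
        (q := 1 - ((d:ℝ) + 1) / r) (by positivity) hs (by ring)
      refine le_trans (le_of_eq ?_) h4
      refine lintegral_congr fun y => ?_
      rw [ENNReal.one_rpow, mul_one, hUy]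
      simp only
      rw [← ENNReal.rpow_mul]
      have : r / ((d:ℝ) + 1) * (((d:ℝ) + 1) / r) = 1 := by field_simp
      rw [this, ENNReal.rpow_one]
    have hreal := realA (A := A) (B := B) (V := V) (C := C) (L := 1) (l := l)
      (n := (d:ℝ) + 1) (r := r) hA0 hB0 hV0 hC1 hL0 hl hn0 hr hnr (by
        have h5 := condA (d := d) (b := (1 + (d : ℝ)) ^ (d + 1) * wv d) hq0 hN hκ hσ hL0 hl h1 h2
          (by positivity) hcard hCA
        have e2 : ((d : ℝ) + 1) = ((d + 1 : ℕ) : ℝ) := by push_cast; ring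
        rw [e2, Real.rpow_natCast, Real.rpow_natCast]
        exact h5)
    rw [Real.one_rpow, mul_one] at hreal
    have hlow := lowA hN ω f hf hp1 hpr'
    rw [← hB, ← hq, ← hV] at hlow
    have hfin : ENNReal.ofReal (A ^ (1 / r) * V ^ (1 - ((d:ℝ) + 1) / r)) ≤
        ENNReal.ofReal (C * l) * T0 N ω f p := by
      have hBr : 0 < B ^ (1 / r) := Real.rpow_pos_of_pos hB0 _
      have hBr0 : ENNReal.ofReal (B ^ (1 / r)) ≠ 0 := by
        rw [ne_eq, ENNReal.ofReal_eq_zero, not_le]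
        exact hBr
      have hx : ENNReal.ofReal (A ^ (1 / r) * V ^ (1 - ((d:ℝ) + 1) / r)) * ENNReal.ofReal (B ^ (1 / r)) ≤
          ENNReal.ofReal (C * l) * T0 N ω f p * ENNReal.ofReal (B ^ (1 / r)) := by
        rw [← ENNReal.ofReal_mul (by positivity)]
        calc ENNReal.ofReal (A ^ (1 / r) * V ^ (1 - ((d:ℝ) + 1) / r) * B ^ (1 / r))
            ≤ ENNReal.ofReal (C * l * V) := ENNReal.ofReal_le_ofReal hreal
          _ = ENNReal.ofReal (C * l) * ENNReal.ofReal V := ENNReal.ofReal_mul (by positivity)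
          _ ≤ ENNReal.ofReal (C * l) * (T0 N ω f p * ENNReal.ofReal B ^ (1 / r)) :=
              mul_le_mul_right hlow _
          _ = _ := by rw [ENNReal.ofReal_rpow_of_pos hB0, ← mul_assoc]
      exact (ENNReal.mul_le_mul_iff_left hBr0 ENNReal.ofReal_ne_top).1 hx
    calc ∫⁻ y, W y ∂μ ≤ ((ENNReal.ofReal A * P) ^ (1 / ((d:ℝ) + 1))) ^ (((d:ℝ) + 1) / r) *
          (ENNReal.ofReal V) ^ (1 - ((d:ℝ) + 1) / r) := by
          refine h3.trans ?_
          rw [hVa, hμi hUym]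
          exact mul_le_mul_left (ENNReal.rpow_le_rpow hcrit (by positivity)) _
      _ = ENNReal.ofReal (A ^ (1 / r) * V ^ (1 - ((d:ℝ) + 1) / r)) * P ^ (1 / r) := by
          rw [← ENNReal.rpow_mul]
          have e3 : 1 / ((d:ℝ) + 1) * (((d:ℝ) + 1) / r) = 1 / r := by field_simp
          rw [e3, ENNReal.mul_rpow_of_nonneg _ _ (by positivity), ENNReal.ofReal_rpow_of_pos hA0,
            ENNReal.ofReal_rpow_of_pos hV0, ENNReal.ofReal_mul (by positivity)]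
          ring
      _ ≤ _ := mul_le_mul_left hfin _
  · -- small conjugate exponents
    set s : ℝ := (1 - 1 / r) * (((d:ℝ) + 1) / d) with hs
    have hr1 : 0 ≤ 1 - 1 / r := by
      rw [sub_nonneg, div_le_one hr0]
      exact hr
    have hs0 : 0 ≤ s := by positivity
    have hsr : s / ((d:ℝ) + 1) + (1 - s) = 1 / r := by
      rw [hs]
      field_simp
      ring
    have hs1 : s ≤ 1 := by
      have h3 : 1 / ((d:ℝ) + 1) ≤ 1 / r := one_div_le_one_div_of_le hr0 hnr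
      have h4 : s / ((d:ℝ) + 1) + (1 - s) = 1 - s * (d / ((d:ℝ) + 1)) := by field_simp; ring
      have h5 : s * (d / ((d:ℝ) + 1)) ≤ 1 * (d / ((d:ℝ) + 1)) := by
        have e : (d:ℝ) / ((d:ℝ) + 1) = 1 - 1 / ((d:ℝ) + 1) := by field_simp; ring
        rw [one_mul]
        rw [h4] at hsr
        linarith
      have h6 : 0 < (d:ℝ) / ((d:ℝ) + 1) := by positivity
      exact le_of_mul_le_mul_right h5 h6
    set Vy : Space d → ℝ≥0∞ := fun y => W y ^ r with hVy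
    have hVym : Measurable Vy := hW.pow_const _
    have h3 : ∫⁻ y, W y ∂μ ≤ (∫⁻ y, Uy y ∂μ) ^ s * (∫⁻ y, Vy y ∂μ) ^ (1 - s) := by
      have h4 := ENNReal.lintegral_mul_norm_pow_le (μ := μ) hUym.aemeasurable
        hVym.aemeasurable (p := s) (q := 1 - s) hs0 (by linarith) (by ring)
      refine le_trans (le_of_eq ?_) h4
      refine lintegral_congr fun y => ?_
      rw [hUy, hVy]
      simp only
      rw [← ENNReal.rpow_mul, ← ENNReal.rpow_mul, ← ENNReal.rpow_add_of_nonneg _ _ (by positivity)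
        (mul_nonneg hr0.le (by linarith))]
      have e : r / ((d:ℝ) + 1) * s + r * (1 - s) = 1 := by
        have : r / ((d:ℝ) + 1) * s + r * (1 - s) = r * (s / ((d:ℝ) + 1) + (1 - s)) := by ring
        rw [this, hsr, mul_one_div_cancel hr0.ne']
      rw [e, ENNReal.rpow_one]
    have h7 : ∫⁻ y, Vy y ∂μ ≤ ENNReal.ofReal q * P := by
      rw [hμi hVym]
      calc ∫⁻ y, Fb N ω f a y * Vy y ≤ ∫⁻ y, ENNReal.ofReal q * Vy y := by
            refine lintegral_mono fun y => mul_le_mul_left ?_ _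
            refine (Pool.Agent.H810R3.Tub.Fb_le N ω f a y).trans (le_of_eq ?_)
            rw [hq, ENNReal.ofReal_natCast]
        _ = ENNReal.ofReal q * ∫⁻ y, Vy y := lintegral_const_mul' _ _ ENNReal.ofReal_ne_top
    set X : ℝ := (N / 2) ^ (d + 1) * wv d with hX
    have hX0 : 0 < X := by positivity
    have hreal := realB (A := A) (q := q) (W := X) (C := C) (L := 1) (l := l)
      (d := (d:ℝ)) (r := r) (s := s) hA0 hq0 hX0 hC1 hL0 hl hd0 hs0 hs1 hsr (by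
        have h5 := condB (d := d) hq0 hN hκ hσ hL0 hl h1 h2 hw0 hcard hCB
        have e2 : ((d : ℝ) + 1) = ((d + 1 : ℕ) : ℝ) := by push_cast; ring
        rw [e2, Real.rpow_natCast, Real.rpow_natCast, Real.rpow_natCast]
        exact h5)
    rw [Real.one_rpow, mul_one, mul_one] at hreal
    have hlow := lowB hN ω f hf hp1 hpr'
    rw [← hq, ← hX] at hlow
    calc ∫⁻ y, W y ∂μ ≤ ((ENNReal.ofReal A * P) ^ (1 / ((d:ℝ) + 1))) ^ s *
          (ENNReal.ofReal q * P) ^ (1 - s) := by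
          refine h3.trans ?_
          refine mul_le_mul' (ENNReal.rpow_le_rpow ?_ hs0) (ENNReal.rpow_le_rpow h7 (by linarith))
          rw [hμi hUym]
          exact hcrit
      _ = ENNReal.ofReal (A ^ (s / ((d:ℝ) + 1)) * q ^ (1 - s)) * P ^ (1 / r) := by
          have hsn : 0 ≤ s / ((d:ℝ) + 1) := by positivity
          have hs1' : 0 ≤ 1 - s := by linarith
          rw [← ENNReal.rpow_mul]
          have e3 : 1 / ((d:ℝ) + 1) * s = s / ((d:ℝ) + 1) := by ring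
          rw [e3, ENNReal.mul_rpow_of_nonneg _ _ hsn, ENNReal.mul_rpow_of_nonneg _ _ hs1',
            ENNReal.ofReal_rpow_of_pos hA0, ENNReal.ofReal_rpow_of_pos (by positivity),
            ENNReal.ofReal_mul (by positivity), ← hsr, ENNReal.rpow_add_of_nonneg _ _ hsn hs1']
          ring
      _ ≤ _ := by
          refine mul_le_mul_left ?_ _
          calc ENNReal.ofReal (A ^ (s / ((d:ℝ) + 1)) * q ^ (1 - s))
              ≤ ENNReal.ofReal (C * l * (q * X ^ (1 - 1 / r))) :=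
                ENNReal.ofReal_le_ofReal hreal
            _ = ENNReal.ofReal (C * l) *
                ENNReal.ofReal (q * X ^ (1 - 1 / r)) := ENNReal.ofReal_mul (by positivity)
            _ ≤ _ := mul_le_mul_right hlow _

/-- **All exponents.** -/
theorem allU {m : ℕ} {N σ κ : ℝ} (hN : 1 ≤ N) (hσ : 0 < σ) (hσ1 : σ ≤ 1)
    (hκ : 0 < κ) {ι : Type} [Fintype ι] {ω : ι → Vec (m + 1)}
    {f : ι → Fin (m + 1) → Space (m + 1)} (hω : ∀ i, ‖ω i‖ ≤ 1)
    (hsep : ∀ i j, i ≠ j → σ / N ≤ ‖ω i - ω j‖) (hcard : κ * N ^ (m + 1) ≤ (Fintype.card ι : ℝ))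
    (hf : ∀ i, Orthonormal ℝ (Fin.cons (nor (ω i)) (f i) : Fin (m + 1 + 1) → Space (m + 1)))
    (a : ι → Space (m + 1)) {e : OrthonormalBasis (Fin (m + 1)) ℝ (Vec (m + 1))}
    {k0 : Fin (m + 1)} {c : ℝ → Fin m → ℝ} (hc : Measurable c) {W : Space (m + 1) → ℝ≥0∞}
    (hW : Measurable W) (hWu : Unim e k0 c W) {p : ℝ≥0∞} {r : ℝ} (hr : 1 ≤ r)
    (hpr : p⁻¹ + (ENNReal.ofReal r)⁻¹ = 1) :
    ∫⁻ y, Fb N ω f a y * W y ≤
      ENNReal.ofReal (c6 (m + 1) σ κ * (1 + Real.log N) ^ (m + 1)) * T0 N ω f p *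
        (∫⁻ y, W y ^ r) ^ (1 / r) := by
  have hr0 : 0 < r := by linarith
  exact all_of (Nat.succ_pos m) hN hσ hσ1 hκ hω hsep hcard hf a hW hr hpr
    (critU hN hσ hσ1 hω hsep hf a hc (hW.pow_const _) (hWu.rpow (by positivity)))

end Pool.Agent.K4H46.MC
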