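import Mathlib
import Pool.Agent.K4H46.MC.Al

set_option autoImplicit false

/-! Level sets. -/

namespace Pool.Agent.K4H46.MC

open MeasureTheory Set Metric
open scoped ENNReal NNReal
open Pool.Agent.H810R3.Tub (Vec Space nor box dir Fb wv wv_pos)
open Pool.Agent.K4H45.BL (Fb_split vd vd_pos T0 moment_of_level card_le real_end)
open Pool.Agent.K4H46.US (pt)

variable {d : ℕ}

/-- for each height and each value of the coordinate `k0` the weight is nonincreasing away from the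
centre, in all directions of the basis but `k0` -/
def UnimV (e : OrthonormalBasis (Fin d) ℝ (Vec d)) (k0 : Fin d) (c : ℝ → Vec d)
    (W : Space d → ℝ≥0∞) : Prop :=
  ∀ (t : ℝ) (x y : Vec d), e.repr x k0 = e.repr y k0 →
    (∀ k, k ≠ k0 → e.repr x k ∈ uIcc (e.repr (c t) k) (e.repr y k)) → W (pt y t) ≤ W (pt x t)

theorem UnimV.toUnim {m : ℕ} {e : OrthonormalBasis (Fin (m + 1)) ℝ (Vec (m + 1))}
    {k0 : Fin (m + 1)} {c : ℝ → Vec (m + 1)} {W : Space (m + 1) → ℝ≥0∞} (h : UnimV e k0 c W) :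
    Unim e k0 (fun t j => e.repr (c t) (k0.succAbove j)) W := by
  intro t x y h0 hj
  refine h t x y h0 fun k hk => ?_
  obtain ⟨j, rfl⟩ := Fin.exists_succAbove_eq hk
  exact hj j

theorem cmeas {m : ℕ} (e : OrthonormalBasis (Fin (m + 1)) ℝ (Vec (m + 1)))
    (k0 : Fin (m + 1)) {c : ℝ → Vec (m + 1)} (hc : Measurable c) :
    Measurable fun t => fun j : Fin m => e.repr (c t) (k0.succAbove j) :=
  measurable_pi_lambda _ fun j => (Pool.Agent.K4H46.US.repr_meas e _).comp hc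

/-- the critical inequality with real exponents -/
theorem critV (hd : 1 ≤ d) {N σ : ℝ} (hN : 1 ≤ N) (hσ : 0 < σ) (hσ1 : σ ≤ 1) {ι : Type} [Fintype ι]
    {ω : ι → Vec d} {f : ι → Fin d → Space d} (hω : ∀ i, ‖ω i‖ ≤ 1)
    (hsep : ∀ i j, i ≠ j → σ / N ≤ ‖ω i - ω j‖)
    (hf : ∀ i, Orthonormal ℝ (Fin.cons (nor (ω i)) (f i) : Fin (d + 1) → Space d))
    (a : ι → Space d) {e : OrthonormalBasis (Fin d) ℝ (Vec d)} {k0 : Fin d}
    {c : ℝ → Vec d} (hc : Measurable c) {W : Space d → ℝ≥0∞} (hW : Measurable W)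
    (hWu : UnimV e k0 c W) :
    (∫⁻ y, Fb N ω f a y * W y) ^ ((d : ℝ) + 1) ≤
      (Fintype.card ι : ℝ≥0∞) ^ (d : ℝ) * (ENNReal.ofReal (kk d σ N) *
        ∫⁻ y, W y ^ ((d : ℝ) + 1)) := by
  obtain ⟨m, rfl⟩ : ∃ m, d = m + 1 := ⟨d - 1, by omega⟩
  exact critU hN hσ hσ1 hω hsep hf a (cmeas e k0 hc) hW hWu.toUnim

/-- all exponents -/
theorem allV (hd : 1 ≤ d) {N σ κ : ℝ} (hN : 1 ≤ N) (hσ : 0 < σ) (hσ1 : σ ≤ 1)
    (hκ : 0 < κ) {ι : Type} [Fintype ι] {ω : ι → Vec d} {f : ι → Fin d → Space d} (hω : ∀ i, ‖ω i‖ ≤ 1)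
    (hsep : ∀ i j, i ≠ j → σ / N ≤ ‖ω i - ω j‖) (hcard : κ * N ^ d ≤ (Fintype.card ι : ℝ))
    (hf : ∀ i, Orthonormal ℝ (Fin.cons (nor (ω i)) (f i) : Fin (d + 1) → Space d)) (a : ι → Space d)
    {e : OrthonormalBasis (Fin d) ℝ (Vec d)} {k0 : Fin d} {c : ℝ → Vec d} (hc : Measurable c)
    {W : Space d → ℝ≥0∞} (hW : Measurable W) (hWu : UnimV e k0 c W) {p : ℝ≥0∞} {r : ℝ} (hr : 1 ≤ r)
    (hpr : p⁻¹ + (ENNReal.ofReal r)⁻¹ = 1) :
    ∫⁻ y, Fb N ω f a y * W y ≤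
      ENNReal.ofReal (c6 d σ κ * (1 + Real.log N) ^ d) * T0 N ω f p *
        (∫⁻ y, W y ^ r) ^ (1 / r) := by
  obtain ⟨m, rfl⟩ : ∃ m, d = m + 1 := ⟨d - 1, by omega⟩
  exact allU hN hσ hσ1 hκ hω hsep hcard hf a (cmeas e k0 hc) hW hWu.toUnim hr hpr

/-- the sets whose sections are unimodal in all directions but one -/
def UniSet (S : Set (Space d)) : Prop := MeasurableSet S ∧
  ∃ (e : OrthonormalBasis (Fin d) ℝ (Vec d)) (k0 : Fin d) (c : ℝ → Vec d), Measurable c ∧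
    ∀ (t : ℝ) (x y : Vec d), e.repr x k0 = e.repr y k0 →
      (∀ k, k ≠ k0 → e.repr x k ∈ uIcc (e.repr (c t) k) (e.repr y k)) → pt y t ∈ S → pt x t ∈ S

/-- covers -/
def Cv (K : ℕ) (m : ℝ≥0∞) (A : Set (Space d)) : Prop :=
  ∃ S : Fin K → Set (Space d), (∀ l, UniSet (S l)) ∧ A ⊆ ⋃ l, S l ∧ ∑ l, volume (S l) ≤ m

theorem piece (hd : 1 ≤ d) {S : Set (Space d)} (hS : UniSet S)
    {N σ : ℝ} (hN : 1 ≤ N) (hσ : 0 < σ) (hσ1 : σ ≤ 1)
    {ι : Type} [Fintype ι] {ω : ι → Vec d} {f : ι → Fin d → Space d} (hω : ∀ i, ‖ω i‖ ≤ 1)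
    (hsep : ∀ i j, i ≠ j → σ / N ≤ ‖ω i - ω j‖)
    (hf : ∀ i, Orthonormal ℝ (Fin.cons (nor (ω i)) (f i) : Fin (d + 1) → Space d)) (a : ι → Space d) :
    ∫⁻ y in S, Fb N ω f a y ≤ ((Fintype.card ι : ℝ≥0∞) ^ (d : ℝ) * (ENNReal.ofReal (kk d σ N) *
      volume S)) ^ (1 / ((d : ℝ) + 1)) := by
  classical
  obtain ⟨hSm, e, k0, c, hc, hu⟩ := hS
  have hd0 : (0:ℝ) ≤ d := Nat.cast_nonneg d
  have hn0 : (0:ℝ) < (d:ℝ) + 1 := by linarith
  have hW : Measurable (S.indicator fun _ => (1 : ℝ≥0∞)) := measurable_const.indicator hSm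
  have hWu : UnimV e k0 c (S.indicator fun _ => (1 : ℝ≥0∞)) := by
    intro t x y h0 hxy
    by_cases hy : pt y t ∈ S
    · rw [indicator_of_mem hy, indicator_of_mem (hu t x y h0 hxy hy)]
    · rw [indicator_of_notMem hy]; exact zero_le
  have h := critV hd hN hσ hσ1 hω hsep hf a hc hW hWu
  have e2 : ∫⁻ y, S.indicator (fun _ => (1:ℝ≥0∞)) y ^ ((d : ℝ) + 1) = volume S := by
    have h3 : ∀ y, S.indicator (fun _ => (1:ℝ≥0∞)) y ^ ((d : ℝ) + 1) =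
        S.indicator (fun _ => (1:ℝ≥0∞)) y := by
      intro y
      by_cases hy : y ∈ S
      · rw [indicator_of_mem hy, ENNReal.one_rpow]
      · rw [indicator_of_notMem hy, ENNReal.zero_rpow_of_pos hn0]
    simp_rw [h3]
    rw [lintegral_indicator hSm, setLIntegral_const, one_mul]
  have e3 : ∫⁻ y, Fb N ω f a y * S.indicator (fun _ => 1) y = ∫⁻ y in S, Fb N ω f a y := by
    rw [← lintegral_indicator hSm]
    refine lintegral_congr fun y => ?_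
    by_cases hy : y ∈ S
    · rw [indicator_of_mem hy, indicator_of_mem hy, mul_one]
    · rw [indicator_of_notMem hy, indicator_of_notMem hy, mul_zero]
  rw [e2, e3] at h
  have h4 := ENNReal.rpow_le_rpow h (z := 1 / ((d:ℝ) + 1)) (by positivity)
  rw [← ENNReal.rpow_mul, mul_one_div_cancel hn0.ne', ENNReal.rpow_one] at h4
  exact h4

theorem level (hd : 1 ≤ d) {N σ : ℝ} (hN : 1 ≤ N) (hσ : 0 < σ) (hσ1 : σ ≤ 1)
    {ι : Type} [Fintype ι] {ω : ι → Vec d} {f : ι → Fin d → Space d} (hω : ∀ i, ‖ω i‖ ≤ 1)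
    (hsep : ∀ i j, i ≠ j → σ / N ≤ ‖ω i - ω j‖)
    (hf : ∀ i, Orthonormal ℝ (Fin.cons (nor (ω i)) (f i) : Fin (d + 1) → Space d)) (a : ι → Space d)
    {K : ℕ} {M : ℝ} {t : ℕ} {A : Set (Space d)} (hAt : A = {y | (t : ℝ≥0∞) < Fb N ω f a y})
    (hcov : Cv K (ENNReal.ofReal M * volume A) A) :
    ((t : ℝ≥0∞) + 1) ^ (((d:ℝ) + 1) / d) * volume A ≤
      ((K : ℝ≥0∞) ^ (d : ℝ) * ((Fintype.card ι : ℝ≥0∞) ^ (d : ℝ) *
        (ENNReal.ofReal (kk d σ N) * ENNReal.ofReal M))) ^ (1 / (d : ℝ)) := by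
  classical
  have hd0 : (0:ℝ) < d := by exact_mod_cast hd
  have hn0 : (0:ℝ) < (d:ℝ) + 1 := by linarith
  obtain ⟨S, hS, hAS, hv⟩ := hcov
  have hFm := Pool.Agent.H810R3.Tub.Fb_measurable N ω f a
  have hAm : MeasurableSet A := by
    rw [hAt]
    exact measurableSet_lt measurable_const hFm
  set G : ℝ≥0∞ := (Fintype.card ι : ℝ≥0∞) ^ (d : ℝ) with hG
  set k0 : ℝ≥0∞ := ENNReal.ofReal (kk d σ N) with hk0
  -- Chebyshev
  have h1 : ((t : ℝ≥0∞) + 1) * volume A ≤ ∫⁻ y in A, Fb N ω f a y := by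
    rw [← setLIntegral_const]
    refine setLIntegral_mono' hAm fun y hy => ?_
    rw [hAt, Set.mem_ofPred_eq] at hy
    have hint : ∃ n : ℕ, Fb N ω f a y = n := by
      unfold Fb
      refine ⟨∑ i, if y ∈ box N (nor (ω i)) (f i) (a i) then 1 else 0, ?_⟩
      rw [Nat.cast_sum]
      refine Finset.sum_congr rfl fun i _ => ?_
      by_cases hyi : y ∈ box N (nor (ω i)) (f i) (a i)
      · rw [indicator_of_mem hyi, if_pos hyi, Nat.cast_one]
      · rw [indicator_of_notMem hyi, if_neg hyi, Nat.cast_zero]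
    obtain ⟨n, hn⟩ := hint
    rw [hn] at hy ⊢
    have h2 : t < n := by exact_mod_cast hy
    have h3 : t + 1 ≤ n := h2
    exact_mod_cast h3
  have h2 : ∫⁻ y in A, Fb N ω f a y ≤ ∑ l, (G * (k0 * volume (S l))) ^ (1 / ((d : ℝ) + 1)) := by
    calc ∫⁻ y in A, Fb N ω f a y ≤ ∫⁻ y in ⋃ l, S l, Fb N ω f a y := lintegral_mono_set hAS
      _ ≤ ∑' l, ∫⁻ y in S l, Fb N ω f a y := lintegral_iUnion_le _ _
      _ = ∑ l, ∫⁻ y in S l, Fb N ω f a y := tsum_fintype _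
      _ ≤ _ := Finset.sum_le_sum fun l _ => piece hd (hS l) hN hσ hσ1 hω hsep hf a
  have h3 : (∑ l, (G * (k0 * volume (S l))) ^ (1 / ((d : ℝ) + 1))) ^ ((d : ℝ) + 1) ≤
      (K : ℝ≥0∞) ^ (d : ℝ) * (G * (k0 * (ENNReal.ofReal M * volume A))) := by
    have h4 := ENNReal.rpow_sum_le_const_mul_sum_rpow (Finset.univ : Finset (Fin K))
      (fun l => (G * (k0 * volume (S l))) ^ (1 / ((d : ℝ) + 1))) (p := (d : ℝ) + 1) (by linarith)
    rw [add_sub_cancel_right, Finset.card_univ, Fintype.card_fin] at h4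
    refine h4.trans (mul_le_mul_right ?_ _)
    have e : ∀ l, ((G * (k0 * volume (S l))) ^ (1 / ((d : ℝ) + 1))) ^ ((d : ℝ) + 1) =
        G * (k0 * volume (S l)) := by
      intro l
      rw [← ENNReal.rpow_mul, one_div_mul_cancel hn0.ne', ENNReal.rpow_one]
    simp_rw [e]
    rw [← Finset.mul_sum, ← Finset.mul_sum]
    exact mul_le_mul_right (mul_le_mul_right hv _) _
  have h5 : (((t : ℝ≥0∞) + 1) * volume A) ^ ((d : ℝ) + 1) ≤
      ((K : ℝ≥0∞) ^ (d : ℝ) * (G * (k0 * ENNReal.ofReal M))) * volume A := by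
    refine (ENNReal.rpow_le_rpow (h1.trans h2) hn0.le).trans (h3.trans (le_of_eq ?_))
    ring
  rcases eq_or_ne (volume A) 0 with h0 | h0
  · rw [h0, mul_zero]
    exact zero_le
  have hAfin : volume A ≠ ∞ := by
    have h6 : ∫⁻ y, Fb N ω f a y ≠ ∞ := by
      rw [Pool.Agent.H810R3.Tub.Fb_int hN hf a]
      exact ENNReal.ofReal_ne_top
    intro htop
    rw [htop, ENNReal.mul_top (by simp)] at h1
    exact h6 (top_le_iff.1 (h1.trans (setLIntegral_le_lintegral _ _)))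
  have h7 : ((t : ℝ≥0∞) + 1) ^ ((d : ℝ) + 1) * volume A ^ (d : ℝ) ≤
      (K : ℝ≥0∞) ^ (d : ℝ) * (G * (k0 * ENNReal.ofReal M)) := by
    rw [ENNReal.mul_rpow_of_nonneg _ _ hn0.le] at h5
    have e : volume A ^ ((d : ℝ) + 1) = volume A ^ (d : ℝ) * volume A := by
      rw [ENNReal.rpow_add _ _ h0 hAfin, ENNReal.rpow_one]
    rw [e, ← mul_assoc] at h5
    exact (ENNReal.mul_le_mul_iff_left h0 hAfin).1 h5
  have h8 := ENNReal.rpow_le_rpow h7 (z := 1 / (d:ℝ)) (by positivity)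
  refine le_trans (le_of_eq ?_) h8
  rw [ENNReal.mul_rpow_of_nonneg _ _ (by positivity), ← ENNReal.rpow_mul, ← ENNReal.rpow_mul,
    mul_one_div_cancel hd0.ne', ENNReal.rpow_one, mul_one_div]

/-- The moment. -/
theorem moment_bound (hd : 1 ≤ d) {σ : ℝ} (hσ : 0 < σ) (hσ1 : σ ≤ 1) : ∃ E : ℝ, 0 < E ∧ ∀ N : ℝ, 1 ≤ N →
    ∀ (ι : Type) [Fintype ι] [Nonempty ι] (ω : ι → Vec d) (f : ι → Fin d → Space d), (∀ i, ‖ω i‖ ≤ 1) →
    (∀ i j, i ≠ j → σ / N ≤ ‖ω i - ω j‖) →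
    (∀ i, Orthonormal ℝ (Fin.cons (nor (ω i)) (f i) : Fin (d + 1) → Space d)) → ∀ a : ι → Space d,
    ∀ (K : ℕ) (M : ℝ), 1 ≤ K → 0 < M →
    (∀ t : ℕ, Cv K (ENNReal.ofReal M * volume {y | (t : ℝ≥0∞) < Fb N ω f a y})
      {y | (t : ℝ≥0∞) < Fb N ω f a y}) →
    ∫⁻ y, Fb N ω f a y ^ (((d:ℝ) + 1) / d) ≤ ENNReal.ofReal (E * N ^ (2 * (d + 1)) *
      (((1 + Real.log N) ^ d) ^ (2 * d + 1) * ((K:ℝ) ^ d * (1 * M))) ^ (1 / (d:ℝ))) := by
  have hd0 : (0:ℝ) < d := by exact_mod_cast hd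
  have hv := vd_pos d
  have hc : 0 < c5 d := by linarith [c5_ge d]
  set B : ℝ := (volume (closedBall (0 : Space d) 7)).toReal with hB
  have hB0 : 0 < B := ENNReal.toReal_pos (measure_closedBall_pos _ _ (by norm_num)).ne'
    measure_closedBall_lt_top.ne
  set C : ℝ := B / (vd d * σ ^ d) with hC
  have hC0 : 0 < C := by positivity
  set C4 : ℝ := 1 + |Real.log C| + d with hC4
  have hC40 : 0 < C4 := by positivity
  set E1 : ℝ := c5 d ^ (d + 1) / (vd d * σ ^ d) with hE1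
  have hE10 : 0 < E1 := by positivity
  refine ⟨2 * C4 * (C * E1 ^ (1 / (d:ℝ))), by positivity, ?_⟩
  intro N hN ι _ _ ω f hω hsep hf a K M hK hM hcov
  have hN0 : 0 < N := by linarith
  have hlN : 0 ≤ Real.log N := Real.log_nonneg hN
  have hK0 : (0:ℝ) < K := by exact_mod_cast (by omega : 0 < K)
  set q : ℝ := (Fintype.card ι : ℝ) with hq
  have hq0 : 0 < q := by
    have := Fintype.card_pos (α := ι)
    rw [hq]
    exact_mod_cast this
  have hqC : q ≤ C * N ^ d := by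
    have h := card_le hN hσ hσ1 hω hsep
    rw [← hq, ← hB, div_pow] at h
    rw [hC, div_mul_eq_mul_div, le_div_iff₀ (by positivity)]
    calc q * (vd d * σ ^ d) = q * (vd d * (σ ^ d / N ^ d)) * N ^ d := by field_simp
      _ ≤ B * N ^ d := by gcongr
  set X : ℝ := (1 + Real.log N) ^ d with hX
  have hX1 : 1 + Real.log N ≤ X := by
    rw [hX]
    calc 1 + Real.log N = (1 + Real.log N) ^ 1 := (pow_one _).symm
      _ ≤ _ := pow_le_pow_right₀ (by linarith) (by omega)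
  have hX0 : 1 ≤ X := by linarith
  have hlogq : 1 + Real.log q ≤ C4 * X := by
    have h1 : Real.log q ≤ Real.log (C * N ^ d) := Real.log_le_log hq0 hqC
    rw [Real.log_mul hC0.ne' (by positivity), Real.log_pow] at h1
    have h2 : Real.log C ≤ |Real.log C| := le_abs_self _
    have h3 : 0 ≤ |Real.log C| := abs_nonneg _
    have h4 : 1 + Real.log q ≤ C4 * (1 + Real.log N) := by
      rw [hC4]
      nlinarith
    exact h4.trans (mul_le_mul_of_nonneg_left hX1 hC40.le)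
  set Z : ℝ≥0∞ := ((K : ℝ≥0∞) ^ (d : ℝ) * ((Fintype.card ι : ℝ≥0∞) ^ (d : ℝ) *
        (ENNReal.ofReal (kk d σ N) * ENNReal.ofReal M))) ^ (1 / (d : ℝ)) with hZ
  have he : 1 + 1 / (d:ℝ) = ((d:ℝ) + 1) / d := by field_simp
  have he1 : 1 / (d:ℝ) ≤ 1 := by
    rw [div_le_one hd0]
    exact_mod_cast hd
  have h1 := moment_of_level (N := N) (ω := ω) (f := f) a (e := 1 / (d:ℝ)) (by positivity) he1 (Z := Z) (by
    intro t
    rw [he]
    exact level hd hN hσ hσ1 hω hsep hf a rfl (hcov t))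
  rw [he] at h1
  refine h1.trans ?_
  have hkc : 0 < kk d σ N := kk_pos hN hσ
  have hZr : Z = ENNReal.ofReal (((K:ℝ) ^ d * (q ^ d * (kk d σ N * M))) ^ (1 / (d:ℝ))) := by
    rw [hZ, ← ENNReal.ofReal_rpow_of_nonneg (by positivity) (by positivity),
      ENNReal.ofReal_mul (p := (K:ℝ) ^ d) (by positivity), ENNReal.ofReal_mul (p := q ^ d) (by positivity),
      ENNReal.ofReal_mul (p := kk d σ N) hkc.le, ENNReal.ofReal_pow hq0.le, ENNReal.ofReal_pow hK0.le,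
      hq, ENNReal.ofReal_natCast, ENNReal.ofReal_natCast, ENNReal.rpow_natCast, ENNReal.rpow_natCast]
  rw [hZr, ← ENNReal.ofReal_mul (by positivity)]
  have e2 : (2:ℝ≥0∞) * ENNReal.ofReal (((K:ℝ) ^ d * (q ^ d * (kk d σ N * M))) ^ (1 / (d:ℝ)) *
      (1 + Real.log q)) = ENNReal.ofReal (2 * (((K:ℝ) ^ d * (q ^ d * (kk d σ N * M))) ^ (1 / (d:ℝ)) *
      (1 + Real.log q))) := by
    rw [ENNReal.ofReal_mul (p := 2) (by norm_num)]
    norm_num
  rw [e2]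
  refine ENNReal.ofReal_le_ofReal ?_
  have h3 := real_end hd (q := q) (N := N) (σ := σ) (L := 1) (l := X) (c := c5 d) (v := vd d)
    (C := C) (K := K) (M := M) hq0 hN hσ one_pos hX0 hc hv hC0 hK0 hM hqC
  have hZ0 : 0 ≤ ((K:ℝ) ^ d * (q ^ d * (kk d σ N * M))) ^ (1 / (d:ℝ)) := by positivity
  calc 2 * (((K:ℝ) ^ d * (q ^ d * (kk d σ N * M))) ^ (1 / (d:ℝ)) * (1 + Real.log q))
      ≤ 2 * (((K:ℝ) ^ d * (q ^ d * (kk d σ N * M))) ^ (1 / (d:ℝ)) * (C4 * X)) := by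
        gcongr
    _ = 2 * C4 * (((K:ℝ) ^ d * (q ^ d * (kk d σ N * M))) ^ (1 / (d:ℝ)) * X) := by ring
    _ ≤ 2 * C4 * (C * E1 ^ (1 / (d:ℝ)) * N ^ (2 * (d + 1)) *
          (X ^ (2 * d + 1) * ((K:ℝ) ^ d * (1 * M))) ^ (1 / (d:ℝ))) := by
        refine mul_le_mul_of_nonneg_left ?_ (by positivity)
        exact h3
    _ = _ := by ring

end Pool.Agent.K4H46.MC
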