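import Mathlib

set_option autoImplicit false

/-! Measurable selection. -/

namespace Pool.Agent.K4H46.MC

open MeasureTheory Set Metric
open scoped ENNReal NNReal

/-- the selection -/
theorem sel {α : Type*} [MeasurableSpace α] {μ : Measure α} [SigmaFinite μ]
    {m : ℕ → α → ℝ≥0∞} (hm : ∀ i, Measurable (m i)) {p r : ℝ} (hp : 1 < p)
    (hr : r = p / (p - 1)) {B : ℝ≥0∞}
    (h : ∀ (idx : α → ℕ) (w : α → ℝ≥0∞), Measurable idx → Measurable w →
      ∫⁻ t, w t * m (idx t) t ∂μ ≤ B * (∫⁻ t, w t ^ r ∂μ) ^ (1 / r)) :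
    ∫⁻ t, (⨆ i, m i t) ^ p ∂μ ≤ B ^ p := by
  classical
  have hp0 : 0 < p := by linarith
  have hp1 : 0 < p - 1 := by linarith
  have hr0 : 0 < r := by rw [hr]; positivity
  have hrp : (p - 1) * r = p := by rw [hr]; field_simp
  have hrr : 1 - 1 / r = 1 / p := by rw [hr]; field_simp; ring
  set M : ℕ → α → ℝ≥0∞ := fun n t =>
    (Finset.range (n + 1)).sup' Finset.nonempty_range_add_one fun k => m k t with hM
  have hMm : ∀ n, Measurable (M n) := fun n => Finset.measurable_range_sup'' fun k _ => hm k
  have hMmono : ∀ t, Monotone fun n => M n t := by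
    intro t a b hab
    exact Finset.sup'_mono _ (Finset.range_mono (by omega)) _
  have hmM : ∀ n k t, k ≤ n → m k t ≤ M n t := fun n k t hk =>
    Finset.le_sup' (fun k => m k t) (Finset.mem_range.2 (by omega))
  have hex : ∀ n t, ∃ k, k ≤ n ∧ m k t = M n t := by
    intro n t
    obtain ⟨k, hk, hk2⟩ := Finset.exists_mem_eq_sup' (s := Finset.range (n + 1))
      Finset.nonempty_range_add_one fun k => m k t
    exact ⟨k, by have := Finset.mem_range.1 hk; omega, hk2.symm⟩
  set idx : ℕ → α → ℕ := fun n t => Nat.find (hex n t) with hidx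
  have hidxm : ∀ n, Measurable (idx n) := by
    intro n
    refine measurable_find (hex n) fun k => ?_
    by_cases hk : k ≤ n
    · have : {t | k ≤ n ∧ m k t = M n t} = {t | m k t = M n t} := by
        ext t; simp [hk]
      rw [this]
      exact measurableSet_eq_fun (hm k) (hMm n)
    · have : {t | k ≤ n ∧ m k t = M n t} = ∅ := by
        ext t; simp [hk]
      rw [this]
      exact MeasurableSet.empty
  have hidx2 : ∀ n t, m (idx n t) t = M n t := fun n t => (Nat.find_spec (hex n t)).2
  set M' : ℕ → α → ℝ≥0∞ := fun n => (spanningSets μ n).indicator fun t => min (M n t) n with hM'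
  have hM'm : ∀ n, Measurable (M' n) := fun n =>
    ((hMm n).min measurable_const).indicator (measurableSet_spanningSets μ n)
  have hM'M : ∀ n t, M' n t ≤ M n t := by
    intro n t
    by_cases ht : t ∈ spanningSets μ n
    · simp only [hM']; rw [indicator_of_mem ht]; exact min_le_left _ _
    · simp only [hM']; rw [indicator_of_notMem ht]; exact zero_le
  have hM'mono : ∀ t, Monotone fun n => M' n t := by
    intro t a b hab
    simp only [hM']
    by_cases ht : t ∈ spanningSets μ a
    · have ht' : t ∈ spanningSets μ b := monotone_spanningSets μ hab ht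
      rw [indicator_of_mem ht, indicator_of_mem ht']
      exact min_le_min (hMmono t hab) (by exact_mod_cast hab)
    · rw [indicator_of_notMem ht]; exact zero_le
  have hbound : ∀ n, ∫⁻ t, M' n t ^ p ∂μ ≤ B ^ p := by
    intro n
    set X : ℝ≥0∞ := ∫⁻ t, M' n t ^ p ∂μ with hX
    have hXfin : X ≠ ∞ := by
      have h1 : X ≤ ∫⁻ t in spanningSets μ n, (n : ℝ≥0∞) ^ p ∂μ := by
        rw [hX, ← lintegral_indicator (measurableSet_spanningSets μ n)]
        refine lintegral_mono fun t => ?_
        by_cases ht : t ∈ spanningSets μ n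
        · simp only [hM']
          rw [indicator_of_mem ht, indicator_of_mem ht]
          exact ENNReal.rpow_le_rpow (min_le_right _ _) hp0.le
        · simp only [hM']
          rw [indicator_of_notMem ht, indicator_of_notMem ht, ENNReal.zero_rpow_of_pos hp0]
      refine ne_top_of_le_ne_top ?_ h1
      rw [setLIntegral_const]
      exact ENNReal.mul_ne_top (ENNReal.rpow_ne_top_of_nonneg hp0.le (ENNReal.natCast_ne_top n))
        (measure_spanningSets_lt_top μ n).ne
    have h2 := h (idx n) (fun t => M' n t ^ (p - 1)) (hidxm n) ((hM'm n).pow_const _)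
    have e1 : ∀ t, (M' n t ^ (p - 1)) ^ r = M' n t ^ p := fun t => by
      rw [← ENNReal.rpow_mul, hrp]
    simp_rw [e1, hidx2] at h2
    have h3 : X ≤ B * X ^ (1 / r) := by
      refine le_trans (lintegral_mono fun t => ?_) h2
      have : M' n t ^ p = M' n t ^ (p - 1) * M' n t := by
        rw [← ENNReal.rpow_one (M' n t), ← ENNReal.rpow_mul, ← ENNReal.rpow_mul,
          ← ENNReal.rpow_add_of_nonneg _ _ (by linarith) (by norm_num)]
        congr 1; ring
      rw [this]
      exact mul_le_mul_right (hM'M n t) _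
    rcases eq_or_ne X 0 with h0 | h0
    · rw [h0]; exact zero_le
    have h4 : X ^ (1 / p) ≤ B := by
      have h5 : X ^ (1 / r) ≠ 0 := by
        rw [ne_eq, ENNReal.rpow_eq_zero_iff]
        rintro (⟨h6, -⟩ | ⟨h6, -⟩)
        · exact h0 h6
        · exact hXfin h6
      have h6 : X ^ (1 / r) ≠ ∞ := ENNReal.rpow_ne_top_of_nonneg (by positivity) hXfin
      have h7 : X ^ (1 / p) * X ^ (1 / r) = X := by
        rw [← ENNReal.rpow_add _ _ h0 hXfin, ← hrr]
        have : 1 - 1 / r + 1 / r = 1 := by ring
        rw [this, ENNReal.rpow_one]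
      have h8 : X ^ (1 / p) * X ^ (1 / r) ≤ B * X ^ (1 / r) := by rw [h7]; exact h3
      exact (ENNReal.mul_le_mul_iff_left h5 h6).1 h8
    have h9 := ENNReal.rpow_le_rpow h4 hp0.le
    rwa [← ENNReal.rpow_mul, one_div_mul_cancel hp0.ne', ENNReal.rpow_one] at h9
  have hsup : ∀ t, (⨆ i, m i t) ^ p ≤ ⨆ n, M' n t ^ p := by
    intro t
    have h1 : (⨆ i, m i t) ≤ ⨆ n, M' n t := by
      refine iSup_le fun i => le_of_forall_lt fun b hb => ?_
      obtain ⟨b', hb1, hb2⟩ := exists_between hb
      have hb'fin : b' ≠ ∞ := ne_top_of_lt hb2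
      obtain ⟨n0, hn0⟩ : ∃ n, t ∈ spanningSets μ n := by
        have : t ∈ ⋃ n, spanningSets μ n := by rw [iUnion_spanningSets]; exact mem_univ t
        exact mem_iUnion.1 this
      obtain ⟨n, hn⟩ := exists_nat_ge (max (max (i : ℝ) n0) b'.toReal)
      have hni : i ≤ n := by
        have : (i : ℝ) ≤ n := le_trans (le_trans (le_max_left _ _) (le_max_left _ _)) hn
        exact_mod_cast this
      have hnt : n0 ≤ n := by
        have : (n0 : ℝ) ≤ n := le_trans (le_trans (le_max_right _ _) (le_max_left _ _)) hn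
        exact_mod_cast this
      have hnb : b' ≤ n := by
        rw [← ENNReal.ofReal_toReal hb'fin, ← ENNReal.ofReal_natCast]
        exact ENNReal.ofReal_le_ofReal (le_trans (le_max_right _ _) hn)
      refine lt_of_lt_of_le hb1 (le_iSup_of_le n ?_)
      simp only [hM']
      rw [indicator_of_mem (monotone_spanningSets μ hnt hn0)]
      exact le_min (hb2.le.trans (hmM n i t hni)) hnb
    refine (ENNReal.rpow_le_rpow h1 hp0.le).trans (le_of_eq ?_)
    exact (ENNReal.orderIsoRpow p hp0).map_iSup _
  calc ∫⁻ t, (⨆ i, m i t) ^ p ∂μ ≤ ∫⁻ t, ⨆ n, M' n t ^ p ∂μ := lintegral_mono hsup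
    _ = ⨆ n, ∫⁻ t, M' n t ^ p ∂μ := lintegral_iSup (fun n => (hM'm n).pow_const _)
        fun a b hab t => ENNReal.rpow_le_rpow (hM'mono t hab) hp0.le
    _ ≤ _ := iSup_le hbound

end Pool.Agent.K4H46.MC
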