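import Mathlib
import Pool.Agent.K4H46.MC.Se
import Pool.Agent.K4H46.MC.Un

set_option autoImplicit false

/-! The central Morrey norm of the slices. -/

namespace Pool.Agent.K4H46.MC

open MeasureTheory Set Metric
open scoped ENNReal NNReal
open Pool.Agent.H810R3.Tub (Vec Space nor box dir Fb wv wv_pos)
open Pool.Agent.K4H46.US (pt pt_meas)

variable {m : ℕ}

/-- the rectangle -/
def Bc (c ρ : Fin m → ℝ) : Set (Fin m → ℝ) := {u | ∀ j, |u j - c j| ≤ ρ j}

theorem Bc_eq (c ρ : Fin m → ℝ) : Bc c ρ = Set.univ.pi fun j => Icc (c j - ρ j) (c j + ρ j) := by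
  ext u
  simp only [Bc, mem_ofPred_eq, Set.mem_univ_pi, mem_Icc]
  refine forall_congr' fun j => ?_
  rw [abs_le]
  constructor
  · rintro ⟨h1, h2⟩; constructor <;> linarith
  · rintro ⟨h1, h2⟩; constructor <;> linarith

theorem Bc_meas (c ρ : Fin m → ℝ) : MeasurableSet (Bc c ρ) := by
  rw [Bc_eq]
  exact MeasurableSet.univ_pi fun _ => measurableSet_Icc

theorem Bc_vol (c ρ : Fin m → ℝ) : volume (Bc c ρ) = ∏ j, ENNReal.ofReal (2 * ρ j) := by
  rw [Bc_eq, volume_pi_pi]
  refine Finset.prod_congr rfl fun j _ => ?_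
  rw [Real.volume_Icc]
  congr 1
  ring

/-- the central Morrey norm -/
noncomputable def cn (p : ℝ) (c : Fin m → ℝ) (g : (Fin m → ℝ) → ℝ≥0∞) : ℝ≥0∞ :=
  ⨆ (ρ : Fin m → ℝ) (_ : ∀ k, 0 < ρ k), volume (Bc c ρ) ^ (1 / p - 1) * ∫⁻ u in Bc c ρ, g u

theorem morrey {F : Space (m + 1) → ℝ≥0∞} (hF : Measurable F)
    (e : OrthonormalBasis (Fin (m + 1)) ℝ (Vec (m + 1))) (k0 : Fin (m + 1))
    {p r : ℝ} (hp : 1 < p) (hr : r = p / (p - 1)) {B : ℝ≥0∞} {c : ℝ → Fin m → ℝ} (hc : Measurable c)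
    (hdual : ∀ W : Space (m + 1) → ℝ≥0∞, Measurable W → Unim e k0 c W →
      ∫⁻ y, F y * W y ≤ B * (∫⁻ y, W y ^ r) ^ (1 / r)) :
    ∫⁻ z : ℝ × ℝ, cn p (c z.2) (fun u => F (pt (mk e k0 (z.1, u)) z.2)) ^ p ≤ (2 ^ m * B) ^ p := by
  classical
  have hp0 : 0 < p := by linarith
  have hp1 : 0 < p - 1 := by linarith
  have hr0 : 0 < r := by rw [hr]; positivity
  have hexp : (1 / p - 1) * r = -1 := by rw [hr]; field_simp; ring
  obtain ⟨ν, hν⟩ := exists_surjective_nat (Fin m → ℚ)
  set rr : ℕ → Fin m → ℝ := fun i k => if 0 < ν i k then ((ν i k : ℚ) : ℝ) else 1 with hrr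
  have hrr0 : ∀ i k, 0 < rr i k := by
    intro i k
    simp only [hrr]
    split_ifs with h
    · exact_mod_cast h
    · norm_num
  set V : ℕ → ℝ≥0∞ := fun i => ∏ j, ENNReal.ofReal (2 * rr i j) with hV
  have hv0 : ∀ i, V i ≠ 0 := by
    intro i
    rw [hV, Finset.prod_ne_zero_iff]
    intro k _
    rw [ne_eq, ENNReal.ofReal_eq_zero, not_le]
    linarith [hrr0 i k]
  have hvt : ∀ i, V i ≠ ∞ := fun i => ENNReal.prod_ne_top fun k _ => ENNReal.ofReal_ne_top
  have hvv : ∀ i, V i ^ (1 / p - 1) ≠ ∞ := by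
    intro i
    rw [ne_eq, ENNReal.rpow_eq_top_iff]
    rintro (⟨h, -⟩ | ⟨h, -⟩)
    · exact hv0 i h
    · exact hvt i h
  have hmk := mk_mp e k0
  have hpm : Measurable fun q : (ℝ × ℝ) × (Fin m → ℝ) => pt (mk e k0 (q.1.1, q.2)) q.1.2 :=
    pt_meas.comp ((hmk.measurable.comp
      (by fun_prop : Measurable fun q : (ℝ × ℝ) × (Fin m → ℝ) => (q.1.1, q.2))).prodMk
      (measurable_snd.comp measurable_fst))
  -- membership
  have hCB : ∀ (i : ℕ) (z : ℝ × ℝ) (u : Fin m → ℝ),
      pt (mk e k0 (z.1, u)) z.2 ∈ Cy e k0 c (rr i) ↔ u ∈ Bc (c z.2) (rr i) := by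
    intro i z u
    refine forall_congr' fun j => ?_
    show |e.repr (mk e k0 (z.1, u)) (k0.succAbove j) - c z.2 j| ≤ rr i j ↔ _
    rw [mk_succ]
  set mm : ℕ → ℝ × ℝ → ℝ≥0∞ := fun i z => V i ^ (1 / p - 1) *
    ∫⁻ u in Bc (c z.2) (rr i), F (pt (mk e k0 (z.1, u)) z.2) with hmm
  have hmmm : ∀ i, Measurable (mm i) := by
    intro i
    refine Measurable.const_mul ?_ _
    have h1 : Measurable fun q : (ℝ × ℝ) × (Fin m → ℝ) =>
        (Cy e k0 c (rr i)).indicator F (pt (mk e k0 (q.1.1, q.2)) q.1.2) :=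
      (hF.indicator (Cy_meas e k0 hc (rr i))).comp hpm
    have e1 : (fun z : ℝ × ℝ => ∫⁻ u in Bc (c z.2) (rr i), F (pt (mk e k0 (z.1, u)) z.2)) =
        fun z => ∫⁻ u, (Cy e k0 c (rr i)).indicator F (pt (mk e k0 (z.1, u)) z.2) := by
      funext z
      rw [← lintegral_indicator (Bc_meas _ _)]
      refine lintegral_congr fun u => ?_
      by_cases hu : u ∈ Bc (c z.2) (rr i)
      · rw [indicator_of_mem hu, indicator_of_mem ((hCB i z u).2 hu)]
      · rw [indicator_of_notMem hu, indicator_of_notMem fun h => hu ((hCB i z u).1 h)]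
    rw [e1]
    exact h1.lintegral_prod_right' (ν := (volume : Measure (Fin m → ℝ)))
  -- the dual bound
  have key : ∀ (idx : ℝ × ℝ → ℕ) (w : ℝ × ℝ → ℝ≥0∞), Measurable idx → Measurable w →
      ∫⁻ z, w z * mm (idx z) z ≤ B * (∫⁻ z, w z ^ r) ^ (1 / r) := by
    intro idx w hidx hw
    set π : Space (m + 1) → ℝ × ℝ := fun y => (e.repr y.fst k0, y.snd) with hπ
    have hπm : Measurable π := ((Pool.Agent.K4H46.US.repr_meas e _).comp
      (measurable_fst.comp fs_meas)).prodMk (measurable_snd.comp fs_meas)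
    have hπ2 : ∀ (z : ℝ × ℝ) (u : Fin m → ℝ), π (pt (mk e k0 (z.1, u)) z.2) = z := by
      intro z u
      show (e.repr (mk e k0 (z.1, u)) k0, z.2) = z
      rw [mk_k0]
    set G : ℕ × Space (m + 1) → ℝ≥0∞ := fun q => V q.1 ^ (1 / p - 1) *
      (Cy e k0 c (rr q.1)).indicator (fun _ => (1 : ℝ≥0∞)) q.2 with hG
    have hGm : Measurable G := by
      refine measurable_from_prod_countable_right fun i => ?_
      have h0 : Measurable fun y : Space (m + 1) =>
          (Cy e k0 c (rr i)).indicator (fun _ => (1 : ℝ≥0∞)) y :=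
        measurable_const.indicator (Cy_meas e k0 hc (rr i))
      have h1 : Measurable fun y : Space (m + 1) => V i ^ (1 / p - 1) *
          (Cy e k0 c (rr i)).indicator (fun _ => (1 : ℝ≥0∞)) y := h0.const_mul _
      exact h1
    set W : Space (m + 1) → ℝ≥0∞ := fun y => w (π y) * G (idx (π y), y) with hW
    have hWm : Measurable W := (hw.comp hπm).mul
      (hGm.comp ((hidx.comp hπm).prodMk measurable_id))
    have hWu : Unim e k0 c W := by
      intro t x y h0 hxy
      have e0 : π (pt x t) = π (pt y t) := by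
        show (e.repr x k0, t) = (e.repr y k0, t)
        rw [h0]
      simp only [hW, hG]
      rw [e0]
      refine mul_le_mul_right (mul_le_mul_right ?_ _) _
      by_cases hy : pt y t ∈ Cy e k0 c (rr (idx (π (pt y t))))
      · rw [indicator_of_mem hy, indicator_of_mem]
        intro j
        have h1 := hy j
        have h2 := hxy j
        exact (abs_sub_left_of_mem_uIcc h2).trans h1
      · rw [indicator_of_notMem hy]; exact zero_le
    have h1 := hdual W hWm hWu
    have e1 : ∫⁻ y, F y * W y = ∫⁻ z, w z * mm (idx z) z := by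
      have hFW : Measurable fun y => F y * W y := hF.mul hWm
      rw [slice_lint e k0 hFW]
      refine lintegral_congr fun z => ?_
      have e3 : ∀ u : Fin m → ℝ, F (pt (mk e k0 (z.1, u)) z.2) * W (pt (mk e k0 (z.1, u)) z.2) =
          (w z * V (idx z) ^ (1 / p - 1)) *
          (Bc (c z.2) (rr (idx z))).indicator (fun u => F (pt (mk e k0 (z.1, u)) z.2)) u := by
        intro u
        simp only [hW, hG, hπ2]
        by_cases hu : u ∈ Bc (c z.2) (rr (idx z))
        · rw [indicator_of_mem hu, indicator_of_mem ((hCB _ z u).2 hu)]; ring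
        · rw [indicator_of_notMem hu, indicator_of_notMem fun h => hu ((hCB _ z u).1 h)]; ring
      simp_rw [e3]
      have hFu : Measurable fun u : Fin m → ℝ => F (pt (mk e k0 (z.1, u)) z.2) :=
        (hF.comp hpm).comp (measurable_const.prodMk measurable_id)
      rw [lintegral_const_mul _ (hFu.indicator (Bc_meas _ _)), lintegral_indicator (Bc_meas _ _),
        mul_assoc]
    have e4 : ∫⁻ y, W y ^ r = ∫⁻ z, w z ^ r := by
      rw [slice_lint e k0 (hWm.pow_const _)]
      refine lintegral_congr fun z => ?_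
      have e5 : ∀ u : Fin m → ℝ, W (pt (mk e k0 (z.1, u)) z.2) ^ r =
          (w z ^ r * V (idx z) ^ (-1 : ℝ)) *
          (Bc (c z.2) (rr (idx z))).indicator (fun _ => 1) u := by
        intro u
        simp only [hW, hG, hπ2]
        by_cases hu : u ∈ Bc (c z.2) (rr (idx z))
        · rw [indicator_of_mem hu, indicator_of_mem ((hCB _ z u).2 hu), mul_one, mul_one,
            ENNReal.mul_rpow_of_nonneg _ _ hr0.le, ← ENNReal.rpow_mul, hexp]
        · rw [indicator_of_notMem hu, indicator_of_notMem fun h => hu ((hCB _ z u).1 h), mul_zero,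
            mul_zero, mul_zero, ENNReal.zero_rpow_of_pos hr0]
      simp_rw [e5]
      rw [lintegral_const_mul _ (measurable_const.indicator (Bc_meas _ _)),
        lintegral_indicator (Bc_meas _ _), setLIntegral_const, one_mul, mul_assoc,
        ENNReal.rpow_neg_one, Bc_vol]
      rw [show (∏ j, ENNReal.ofReal (2 * rr (idx z) j)) = V (idx z) from rfl,
        ENNReal.inv_mul_cancel (hv0 _) (hvt _), mul_one]
    rwa [e1, e4] at h1
  have hsel := sel (μ := (volume : Measure (ℝ × ℝ))) hmmm hp hr key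
  -- comparison with the countable family
  have hcmp : ∀ z : ℝ × ℝ, cn p (c z.2) (fun u => F (pt (mk e k0 (z.1, u)) z.2)) ≤
      2 ^ m * ⨆ i, mm i z := by
    intro z
    unfold cn
    refine iSup_le fun ρ => iSup_le fun hρ => ?_
    obtain ⟨i, hi1, hi2⟩ : ∃ i, Bc (c z.2) ρ ⊆ Bc (c z.2) (rr i) ∧
        V i ≤ 2 ^ m * volume (Bc (c z.2) ρ) := by
      have hq : ∀ k, ∃ q : ℚ, ρ k < q ∧ (q : ℝ) < 2 * ρ k := fun k =>
        exists_rat_btwn (by linarith [hρ k])
      choose q hq1 hq2 using hq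
      obtain ⟨i, hi⟩ := hν q
      have hqpos : ∀ k, 0 < q k := by
        intro k
        have h1 := hq1 k
        have h2 := hρ k
        have : (0 : ℝ) < q k := by linarith
        exact_mod_cast this
      have hri : ∀ k, rr i k = q k := by
        intro k
        simp only [hrr]
        rw [hi, if_pos (hqpos k)]
      refine ⟨i, ?_, ?_⟩
      · intro u hu k
        rw [hri]
        exact (hu k).trans (hq1 k).le
      · rw [Bc_vol]
        calc V i ≤ ∏ k, (2 * ENNReal.ofReal (2 * ρ k)) := by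
              refine Finset.prod_le_prod' fun k _ => ?_
              rw [hri]
              have e2 : (2 : ℝ≥0∞) * ENNReal.ofReal (2 * ρ k) = ENNReal.ofReal (2 * (2 * ρ k)) := by
                rw [ENNReal.ofReal_mul (p := 2) (by norm_num)]
                norm_num
              rw [e2]
              exact ENNReal.ofReal_le_ofReal (by linarith [hq2 k])
          _ = _ := by
              rw [Finset.prod_mul_distrib, Finset.prod_const, Finset.card_univ, Fintype.card_fin]
    have hpe : 1 / p - 1 ≤ 0 := by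
      rw [sub_nonpos, div_le_one hp0]; exact hp.le
    have h2d0 : (2 : ℝ≥0∞) ^ m ≠ 0 := pow_ne_zero _ (by norm_num)
    have h2dt : (2 : ℝ≥0∞) ^ m ≠ ∞ := ENNReal.pow_ne_top (by norm_num)
    have h2d1 : (1 : ℝ≥0∞) ≤ 2 ^ m := one_le_pow₀ (by norm_num)
    have h3 : volume (Bc (c z.2) ρ) ^ (1 / p - 1) ≤ 2 ^ m * V i ^ (1 / p - 1) := by
      have h4 : V i * (2 ^ m)⁻¹ ≤ volume (Bc (c z.2) ρ) := by
        rw [← div_eq_mul_inv]
        exact ENNReal.div_le_of_le_mul' hi2
      have h5 : volume (Bc (c z.2) ρ) ^ (1 / p - 1) ≤ (V i * (2 ^ m)⁻¹) ^ (1 / p - 1) := by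
        have e6 : ∀ x : ℝ≥0∞, x ^ (1 / p - 1) = (x ^ (1 - 1 / p))⁻¹ := fun x => by
          rw [← ENNReal.rpow_neg]; congr 1; ring
        rw [e6, e6]
        exact ENNReal.inv_le_inv.2 (ENNReal.rpow_le_rpow h4 (by linarith))
      refine h5.trans ?_
      rw [ENNReal.mul_rpow_of_ne_top (hvt i) (ENNReal.inv_ne_top.2 h2d0), mul_comm]
      refine mul_le_mul_left ?_ _
      rw [ENNReal.inv_rpow, ← ENNReal.rpow_neg]
      calc ((2 : ℝ≥0∞) ^ m) ^ (-(1 / p - 1)) ≤ ((2 : ℝ≥0∞) ^ m) ^ (1 : ℝ) := by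
            refine ENNReal.rpow_le_rpow_of_exponent_le h2d1 ?_
            have : 0 < 1 / p := by positivity
            linarith
        _ = _ := ENNReal.rpow_one _
    calc volume (Bc (c z.2) ρ) ^ (1 / p - 1) *
          ∫⁻ u in Bc (c z.2) ρ, F (pt (mk e k0 (z.1, u)) z.2)
        ≤ (2 ^ m * V i ^ (1 / p - 1)) *
          ∫⁻ u in Bc (c z.2) (rr i), F (pt (mk e k0 (z.1, u)) z.2) :=
          mul_le_mul' h3 (lintegral_mono_set hi1)
      _ = 2 ^ m * mm i z := by rw [mul_assoc]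
      _ ≤ _ := mul_le_mul_right (le_iSup (fun i => mm i z) i) _
  calc ∫⁻ z : ℝ × ℝ, cn p (c z.2) (fun u => F (pt (mk e k0 (z.1, u)) z.2)) ^ p
      ≤ ∫⁻ z, (2 ^ m) ^ p * (⨆ i, mm i z) ^ p := by
        refine lintegral_mono fun z => ?_
        rw [← ENNReal.mul_rpow_of_nonneg _ _ hp0.le]
        exact ENNReal.rpow_le_rpow (hcmp z) hp0.le
    _ = (2 ^ m) ^ p * ∫⁻ z, (⨆ i, mm i z) ^ p :=
        lintegral_const_mul' _ _ (ENNReal.rpow_ne_top_of_nonneg hp0.le (ENNReal.pow_ne_top (by norm_num)))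
    _ ≤ (2 ^ m) ^ p * B ^ p := mul_le_mul_right hsel _
    _ = _ := (ENNReal.mul_rpow_of_nonneg _ _ hp0.le).symm

end Pool.Agent.K4H46.MC
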